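import Pool.Agent.Helper91.Cyl.Ramsey

/-!
# Project EA, piece U-Ram: Ramsey's theorem for sequences

Uses `ramsey_infinite` (Pool/Agent/Helper91/Cyl/Ramsey.lean).  For an infinite set `H` take
`f = Nat.nth (· ∈ H)` (or `Nat.orderEmbeddingOfSet`); for `χ : (Fin r → ℕ) → κ` colour a finset `S`
of cardinality `r` by `χ` of its increasing enumeration (`Finset.orderEmbOfFin`).
-/

namespace Pool.Agent.Helper89.EA

theorem ramsey_seq {κ : Type*} [Finite κ] (r : ℕ) (χ : (Fin r → ℕ) → κ) :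
    ∃ f : ℕ → ℕ, StrictMono f ∧ ∀ g g' : Fin r → ℕ, StrictMono g → StrictMono g' →
      χ (f ∘ g) = χ (f ∘ g') := by
  classical
  obtain ⟨H, -, hH, k, hk⟩ := Pool.Agent.Helper91.Cyl.ramsey_infinite r
    (fun S : Finset ℕ => if h : S.card = r then χ (S.orderEmbOfFin h) else χ fun _ => 0)
    Set.univ Set.infinite_univ
  have hmono : StrictMono (Nat.nth (· ∈ H)) := Nat.nth_strictMono hH
  have key : ∀ g : Fin r → ℕ, StrictMono g → χ (Nat.nth (· ∈ H) ∘ g) = k := by
    intro g hg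
    have hfg : StrictMono (Nat.nth (· ∈ H) ∘ g) := hmono.comp hg
    let S : Finset ℕ := Finset.univ.image (Nat.nth (· ∈ H) ∘ g)
    have hS : S.card = r := by
      rw [Finset.card_image_of_injective _ hfg.injective, Finset.card_univ, Fintype.card_fin]
    have h1 := hk S (by
      intro x hx
      obtain ⟨i, -, rfl⟩ := Finset.mem_image.1 (Finset.mem_coe.1 hx)
      exact Nat.nth_mem_of_infinite hH _) hS
    rw [dif_pos hS] at h1
    have h2 : Nat.nth (· ∈ H) ∘ g = S.orderEmbOfFin hS :=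
      Finset.orderEmbOfFin_unique hS (fun x => Finset.mem_image.2 ⟨x, Finset.mem_univ _, rfl⟩) hfg
    rw [h2]
    exact h1
  exact ⟨Nat.nth (· ∈ H), hmono, fun g g' hg hg' => (key g hg).trans (key g' hg').symm⟩

/-- pairs -/
theorem ramsey_pairs {κ : Type*} [Finite κ] (χ : ℕ → ℕ → κ) :
    ∃ f : ℕ → ℕ, StrictMono f ∧ ∀ i j i' j', i < j → i' < j' →
      χ (f i) (f j) = χ (f i') (f j') := by
  obtain ⟨f, hf, h⟩ := ramsey_seq 2 (fun g : Fin 2 → ℕ => χ (g 0) (g 1))
  refine ⟨f, hf, fun i j i' j' hij hij' => ?_⟩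
  have hm : ∀ a b : ℕ, a < b → StrictMono (![a, b] : Fin 2 → ℕ) := by
    intro a b hab
    rw [Fin.strictMono_iff_lt_succ]
    intro x
    fin_cases x
    simpa using hab
  have := h ![i, j] ![i', j'] (hm i j hij) (hm i' j' hij')
  simpa using this

/-- pigeonhole -/
theorem pigeon_seq {κ : Type*} [Finite κ] (χ : ℕ → κ) :
    ∃ f : ℕ → ℕ, StrictMono f ∧ ∀ i j, χ (f i) = χ (f j) := by
  obtain ⟨f, hf, h⟩ := ramsey_seq 1 (fun g : Fin 1 → ℕ => χ (g 0))
  refine ⟨f, hf, fun i j => ?_⟩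
  exact h (fun _ => i) (fun _ => j) (Subsingleton.strictMono _) (Subsingleton.strictMono _)

end Pool.Agent.Helper89.EA
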