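import Pool.Agent.Helper89.EA.UDefs
import Pool.Agent.Helper89.EA.P.B1b
import Pool.Agent.Helper89.EA.P.B7

/-!
# Project EA, piece U1: ladders of all lengths in structures of the class give the order property

Proof.  As in piece B7: a ladder of length `n` in a structure of the class is a finite tuple, hence
has the type of a tuple in `M0`.  For the atom of equality there are no ladders of length `≥ 4`
(also not reversed ones).  Reindex with `Finite.equivFin`.  Reversing the order of a ladder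
(`i ↦ n - 1 - i`) and exchanging the roles of `X` and `Y` gives the other three statements.
-/

namespace Pool.Agent.Helper89.EA

variable {σ : Sig} {M N : Type}

theorem op_of_ladP_rel {M0 : RS σ M} {X Y C : Type} [Finite X] [Finite Y] [Finite C]
    (s : σ.Sy) (α : Fin (σ.ar s) → (X ⊕ Y) ⊕ C)
    (h : ∀ n, LadP M0 X Y C n ⟨At.rel s, α⟩) : OP M0 (Nat.card Y) (Nat.card X) := by
  have eX := Finite.equivFin X
  have eY := Finite.equivFin Y
  obtain ⟨p, ⟨eC⟩⟩ := Finite.exists_equiv_fin C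
  refine ⟨s, p, Sum.map (Sum.map eX eY) eC ∘ α, fun n => ?_⟩
  obtain ⟨N, A, hA, x, y, c, hl⟩ := h n
  obtain ⟨w, hw⟩ := inC_finite hA (ι := (Fin n × X ⊕ Fin n × Y) ⊕ C)
    (Sum.elim (Sum.elim (fun q => x q.1 q.2) (fun q => y q.1 q.2)) c)
  refine ⟨fun i q => w (Sum.inl (Sum.inl (i, eX.symm q))),
    fun j q => w (Sum.inl (Sum.inr (j, eY.symm q))), fun q => w (Sum.inr (eC.symm q)), ?_⟩
  intro i j hij
  rw [← hl i j hij]
  have h1 := st_comp hw (κ := (X ⊕ Y) ⊕ C)
    (Sum.map (Sum.map (fun q => (i, q)) (fun q => (j, q))) id)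
  have h2 := h1.2 s α
  have e1 : ((Sum.elim (Sum.elim (fun q : Fin n × X => x q.1 q.2) (fun q : Fin n × Y => y q.1 q.2)) c
      ∘ Sum.map (Sum.map (fun q => (i, q)) (fun q => (j, q))) id) ∘ α)
      = Sum.elim (Sum.elim (x i) (y j)) c ∘ α := by
    funext t
    simp only [Function.comp_apply]
    rcases α t with (q | q) | q <;> rfl
  have e2 : ((w ∘ Sum.map (Sum.map (fun q => (i, q)) (fun q => (j, q))) id) ∘ α)
      = Sum.elim (Sum.elim (fun q => w (Sum.inl (Sum.inl (i, eX.symm q))))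
        (fun q => w (Sum.inl (Sum.inr (j, eY.symm q))))) (fun q => w (Sum.inr (eC.symm q)))
        ∘ (Sum.map (Sum.map eX eY) eC ∘ α) := by
    funext t
    simp only [Function.comp_apply]
    rcases α t with (q | q) | q <;> simp
  rw [e1, e2] at h2
  exact h2.symm

theorem op_of_ladP {M0 : RS σ M} {X Y C : Type} [Finite X] [Finite Y] [Finite C]
    (a : At σ) (α : Fin a.ar → (X ⊕ Y) ⊕ C)
    (h : ∀ n, LadP M0 X Y C n ⟨a, α⟩) : OP M0 (Nat.card Y) (Nat.card X) := by
  cases a with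
  | rel s => exact op_of_ladP_rel s α h
  | eq => exact (ladP_eq α (h 4)).elim

theorem ladP_rev {M0 : RS σ M} {X Y C : Type} {n : ℕ} {a : At σ} {α : Fin a.ar → (X ⊕ Y) ⊕ C}
    (h : ∃ (N : Type) (A : RS σ N) (x : Fin n → X → N) (y : Fin n → Y → N) (c : C → N),
      InC M0 A ∧ ∀ i j, i ≠ j → (a.ev A (Sum.elim (Sum.elim (x i) (y j)) c ∘ α) ↔ j < i)) :
    LadP M0 X Y C n ⟨a, α⟩ := by
  obtain ⟨N, A, x, y, c, hA, hl⟩ := h
  refine ⟨N, A, hA, fun i => x i.rev, fun j => y j.rev, c, fun i j hij => ?_⟩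
  have := hl i.rev j.rev (fun e => hij (Fin.rev_injective e))
  rw [this, Fin.rev_lt_rev]

theorem ladP_swap {M0 : RS σ M} {X Y C : Type} {n : ℕ} {a : At σ} {α : Fin a.ar → (X ⊕ Y) ⊕ C}
    (h : ∃ (N : Type) (A : RS σ N) (x : Fin n → X → N) (y : Fin n → Y → N) (c : C → N),
      InC M0 A ∧ ∀ i j, i ≠ j → (a.ev A (Sum.elim (Sum.elim (x i) (y j)) c ∘ α) ↔ j < i)) :
    LadP M0 Y X C n ⟨a, Sum.map Sum.swap id ∘ α⟩ := by
  obtain ⟨N, A, x, y, c, hA, hl⟩ := h
  refine ⟨N, A, hA, y, x, c, fun i j hij => ?_⟩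
  have := hl j i (Ne.symm hij)
  rw [← this]
  have e : Sum.elim (Sum.elim (y i) (x j)) c ∘ (Sum.map Sum.swap id ∘ α) =
      Sum.elim (Sum.elim (x j) (y i)) c ∘ α := by
    funext t
    simp only [Function.comp_apply]
    rcases α t with (q | q) | q <;> rfl
  show a.ev A (Sum.elim (Sum.elim (y i) (x j)) c ∘ (Sum.map Sum.swap id ∘ α)) ↔ _
  rw [e]

/-- ladders of all lengths, decreasing -/
theorem op_of_ladders' {M0 : RS σ M} {X Y C : Type} [Finite X] [Finite Y] [Finite C] (a : At σ)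
    (α : Fin a.ar → (X ⊕ Y) ⊕ C)
    (h : ∀ n : ℕ, ∃ (N : Type) (A : RS σ N) (x : Fin n → X → N) (y : Fin n → Y → N) (c : C → N),
      InC M0 A ∧ ∀ i j, i ≠ j → (a.ev A (Sum.elim (Sum.elim (x i) (y j)) c ∘ α) ↔ j < i)) :
    OP M0 (Nat.card Y) (Nat.card X) ∧ OP M0 (Nat.card X) (Nat.card Y) :=
  ⟨op_of_ladP a α fun n => ladP_rev (h n), op_of_ladP a _ fun n => ladP_swap (h n)⟩

/-- ladders of all lengths, increasing -/
theorem op_of_ladders {M0 : RS σ M} {X Y C : Type} [Finite X] [Finite Y] [Finite C] (a : At σ)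
    (α : Fin a.ar → (X ⊕ Y) ⊕ C)
    (h : ∀ n : ℕ, ∃ (N : Type) (A : RS σ N) (x : Fin n → X → N) (y : Fin n → Y → N) (c : C → N),
      InC M0 A ∧ ∀ i j, i ≠ j → (a.ev A (Sum.elim (Sum.elim (x i) (y j)) c ∘ α) ↔ i < j)) :
    OP M0 (Nat.card Y) (Nat.card X) ∧ OP M0 (Nat.card X) (Nat.card Y) := by
  refine op_of_ladders' a α fun n => ?_
  obtain ⟨N, A, x, y, c, hA, hl⟩ := h n
  refine ⟨N, A, fun i => x i.rev, fun j => y j.rev, c, hA, fun i j hij => ?_⟩
  have := hl i.rev j.rev (fun e => hij (Fin.rev_injective e))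
  rw [this, Fin.rev_lt_rev]

/-- ladders with other index sets: if `OP M0 k l` then `1 ≤ k` and `1 ≤ l` -/
theorem op_pos {M0 : RS σ M} {k l : ℕ} (h : OP M0 k l) : 1 ≤ k ∧ 1 ≤ l := by
  obtain ⟨s, p, α, h⟩ := h
  obtain ⟨x, y, c, hl⟩ := h 3
  constructor
  · by_contra hk
    have hk0 : k = 0 := by omega
    subst hk0
    have e : y 0 = y 2 := Subsingleton.elim _ _
    have h1 := hl 1 0 (by decide)
    have h2 := hl 1 2 (by decide)
    rw [e] at h1
    exact absurd (h1.1 (h2.2 (by decide))) (by decide)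
  · by_contra hk
    have hk0 : l = 0 := by omega
    subst hk0
    have e : x 0 = x 2 := Subsingleton.elim _ _
    have h1 := hl 0 1 (by decide)
    have h2 := hl 2 1 (by decide)
    rw [e] at h1
    exact absurd (h2.1 (h1.2 (by decide))) (by decide)

theorem op_swap {M0 : RS σ M} {k l : ℕ} (h : OP M0 k l) : OP M0 l k := by
  obtain ⟨s, p, α, h⟩ := h
  have := (op_of_ladders (M0 := M0) (X := Fin l) (Y := Fin k) (C := Fin p) (At.rel s) α
    (fun n => by
      obtain ⟨x, y, c, hl⟩ := h n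
      exact ⟨M, M0, x, y, c, inC_self M0, hl⟩)).2
  simpa using this

/-- if there is some order property then there is a minimal one -/
theorem exists_isMinOP {M0 : RS σ M} (h : ∃ k l, OP M0 k l) : ∃ k l, IsMinOP M0 k l := by
  classical
  have hk := Nat.find_spec h
  refine ⟨Nat.find h, Nat.find hk, Nat.find_spec hk, ?_, ?_⟩
  · intro k' l' h'
    exact Nat.find_min' h ⟨l', h'⟩
  · intro l' h'
    exact Nat.find_min' hk h'

theorem isMinOP_pos {M0 : RS σ M} {k l : ℕ} (h : IsMinOP M0 k l) : 1 ≤ k ∧ k ≤ l :=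
  ⟨(op_pos h.1).1, h.2.1 _ _ (op_swap h.1)⟩

end Pool.Agent.Helper89.EA
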