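import Pool.Agent.Helper89.EA.U.U6b

/-!
# Project EA, piece U6c: the set `HH` near a flip

Proof of `hh_iff`.  Let `z ∈ ZZ` be pure at `v`, with `Flips`.  By `tw_run` (and the symmetry of
`Tw`) and induction in both directions along the path, all tuples `Z i` of a path of twins
containing `z` are pure at an index over the same rational number `v.pt` (with `Flips` for some
`w'`).  By `path_count`, `RunP … j z` with `l < j` implies `kd v.pt ∈ S` and `j ≤ kd v.pt`.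
Conversely `runP_of_run`.
-/

namespace Pool.Agent.Helper89.EA

variable {σ : Sig} {M N P : Type} {M0 : RS σ M} {k l p : ℕ} {s : σ.Sy}
  {α : Fin (σ.ar s) → (Fin l ⊕ Fin k) ⊕ Fin p} {S : Set ℕ}

theorem path_pure (h0 : 0 ∉ S) (hmin : IsMinOP M0 k l) (Λ : Lad M0 k l s p α P N)
    (c : Fin p → Car P (Ix S) l k Ix.Y) (w : Fin l → Car P (Ix S) l k Ix.Y) {m : ℕ}
    (Z : Fin m → Fin k → Car P (Ix S) l k Ix.Y)
    (hZ : ∀ i j : Fin m, i.val + 1 = j.val → Tw α (star Λ Ix.Y) c (Z i) (Z j)) (i0 : Fin m)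
    {u v : Ix S} {t : Prop} (hf : Flips Λ c w (Z i0) u v t) (hc : ∀ x ∈ Idx c, x.pt ≠ v.pt) :
    ∀ i, ∃ v' : Ix S, Pure (Z i) v' ∧ v'.pt = v.pt := by
  have step : ∀ i j : Fin m, Tw α (star Λ Ix.Y) c (Z i) (Z j) →
      (∃ (w' : Fin l → Car P (Ix S) l k Ix.Y) (u' v' : Ix S) (t' : Prop), v'.pt = v.pt ∧
        Flips Λ c w' (Z i) u' v' t') →
      ∃ (w' : Fin l → Car P (Ix S) l k Ix.Y) (u' v' : Ix S) (t' : Prop), v'.pt = v.pt ∧
        Flips Λ c w' (Z j) u' v' t' := by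
    rintro i j htw ⟨w', u', v', t', hv', hf'⟩
    obtain ⟨w'', u'', v'', t'', -, h2, h3⟩ := tw_run h0 hmin Λ c w' (Z i) (Z j) hf'
      (fun x hx => by rw [hv']; exact hc x hx) htw
    exact ⟨w'', u'', v'', t'', h2.trans hv', h3⟩
  have tws : ∀ i j : Fin m, Tw α (star Λ Ix.Y) c (Z i) (Z j) → Tw α (star Λ Ix.Y) c (Z j) (Z i) :=
    fun i j h x h1 h2 h3 => (h x h2 h1 h3).symm
  have up : ∀ n : ℕ, ∀ (h : i0.val + n < m), ∃ (w' : Fin l → Car P (Ix S) l k Ix.Y)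
      (u' v' : Ix S) (t' : Prop), v'.pt = v.pt ∧ Flips Λ c w' (Z ⟨i0.val + n, h⟩) u' v' t' := by
    intro n
    induction n with
    | zero => exact fun h => ⟨w, u, v, t, rfl, hf⟩
    | succ n ih =>
      intro h
      exact step ⟨i0.val + n, by omega⟩ ⟨i0.val + (n + 1), h⟩ (hZ _ _ rfl) (ih (by omega))
  have down : ∀ n : ℕ, ∀ (h : n ≤ i0.val), ∃ (w' : Fin l → Car P (Ix S) l k Ix.Y)
      (u' v' : Ix S) (t' : Prop), v'.pt = v.pt ∧
        Flips Λ c w' (Z ⟨i0.val - n, by have := i0.2; omega⟩) u' v' t' := by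
    intro n
    induction n with
    | zero => exact fun h => ⟨w, u, v, t, rfl, hf⟩
    | succ n ih =>
      intro h
      refine step ⟨i0.val - n, by have := i0.2; omega⟩ ⟨i0.val - (n + 1), by have := i0.2; omega⟩
        (tws _ _ (hZ _ _ ?_)) (ih (by omega))
      change i0.val - (n + 1) + 1 = i0.val - n
      omega
  intro i
  have hi : ∃ (w' : Fin l → Car P (Ix S) l k Ix.Y)
      (u' v' : Ix S) (t' : Prop), v'.pt = v.pt ∧ Flips Λ c w' (Z i) u' v' t' := by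
    rcases le_total i0.val i.val with h | h
    · have h1 := up (i.val - i0.val) (by have := i.2; omega)
      have h2 : (⟨i0.val + (i.val - i0.val), by have := i.2; omega⟩ : Fin m) = i :=
        Fin.ext (by simp only; omega)
      rwa [h2] at h1
    · have h1 := down (i0.val - i.val) (by omega)
      have h2 : (⟨i0.val - (i0.val - i.val), by have := i0.2; omega⟩ : Fin m) = i :=
        Fin.ext (by simp only; omega)
      rwa [h2] at h1
  obtain ⟨_, _, v', _, hv', hf'⟩ := hi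
  exact ⟨v', hf'.2.1, hv'⟩

theorem hh_iff (h0 : 0 ∉ S) (hmin : IsMinOP M0 k l) (Λ : Lad M0 k l s p α P N)
    (w0 w1 : Fin l → Car P (Ix S) l k Ix.Y) (c : Fin p → Car P (Ix S) l k Ix.Y)
    (w : Fin l → Car P (Ix S) l k Ix.Y) (z : Fin k → Car P (Ix S) l k Ix.Y) {u v : Ix S}
    {t : Prop} (hf : Flips Λ c w z u v t) (hZZ : ZZ α (star Λ Ix.Y) w0 w1 c z)
    (hc : ∀ x ∈ Idx c, x.pt ≠ v.pt) (hw0 : ∀ x ∈ Idx w0, x.pt ≠ v.pt)
    (hw1 : ∀ x ∈ Idx w1, x.pt ≠ v.pt) {m : ℕ} (hm : l < m) :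
    HH α (star Λ Ix.Y) w0 w1 c m z ↔ (kd v.pt ∈ S ∧ kd v.pt = m) := by
  have hk : 1 ≤ k := (isMinOP_pos hmin).1
  have hA : ∀ m' : ℕ, l < m' → RunP α (star Λ Ix.Y) w0 w1 c m' z →
      kd v.pt ∈ S ∧ m' ≤ kd v.pt := by
    rintro m' hm' ⟨Z, -, hdj, htw, i0, hi0⟩
    subst hi0
    choose v' hv' hpt using path_pure h0 hmin Λ c w Z htw i0 hf hc
    obtain ⟨h1, h2⟩ := path_count hk Z v' hv' hpt hdj
    by_cases hS : kd v.pt ∈ S
    · exact ⟨hS, h1 hS⟩
    · exact absurd (h2 hS) (not_le.mpr hm')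
  have hB : kd v.pt ∈ S → ∀ m' : ℕ, 1 ≤ m' → m' ≤ kd v.pt →
      RunP α (star Λ Ix.Y) w0 w1 c m' z := fun hS m' h1 h2 =>
    runP_of_run Λ w0 w1 c z hf.2.1 hS hZZ hc hw0 hw1 hk h1 h2
  constructor
  · rintro ⟨-, h1, h2⟩
    obtain ⟨hS, hle⟩ := hA m hm h1
    refine ⟨hS, ?_⟩
    by_contra hne
    exact h2 (hB hS (m + 1) (by omega) (by omega))
  · rintro ⟨hS, heq⟩
    refine ⟨hZZ, hB hS m (by omega) heq.ge, ?_⟩
    intro h
    have := (hA (m + 1) (by omega) h).2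
    omega

end Pool.Agent.Helper89.EA
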