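import Pool.Agent.Helper89.EA.UDefs

/-!
# Project EA, piece U5b: basic facts on the carrier `Car`

Everything is by cases on the points (`Sum.inl e` or `Sum.inr (q, u)`).
-/

namespace Pool.Agent.Helper89.EA

variable {P I : Type} {l k : ℕ} {Y : I → Prop}

theorem car_ext {t t' : Car P I l k Y} (h1 : t.ix = t'.ix) (h2 : t.cd = t'.cd) : t = t' := by
  have h : t.1 = t'.1 := by
    unfold Car.ix at h1
    unfold Car.cd at h2
    rcases ht : t.1 with e | ⟨q, u⟩ <;> rcases ht' : t'.1 with e' | ⟨q', u'⟩ <;>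
      rw [ht, ht'] at h1 h2 <;> simp_all
  exact Subtype.ext h

/-- a point without index is in `P` -/
theorem ix_none {t : Car P I l k Y} (h : t.ix = none) : ∃ e, t = Car.ofP e ∧ t.cd = .inl e := by
  obtain ⟨t, ht⟩ := t
  rcases t with e | ⟨q, u⟩
  · exact ⟨e, rfl, rfl⟩
  · simp [Car.ix] at h

/-- the two kinds of points with an index -/
theorem ix_some {t : Car P I l k Y} {q : I} (h : t.ix = some q) :
    (∃ (hq : ¬ Y q) (a : Fin l), t = Car.ofX q hq a) ∨
      ∃ (hq : Y q) (b : Fin k), t = Car.ofY q hq b := by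
  obtain ⟨t, ht⟩ := t
  rcases t with e | ⟨q', u⟩
  · simp [Car.ix] at h
  · simp only [Car.ix, Option.some.injEq] at h
    subst h
    rcases u with a | b
    · left
      refine ⟨fun hY => ?_, a, rfl⟩
      have := (ht q' (.inl a) rfl).2 hY
      simp at this
    · right
      exact ⟨(ht q' (.inr b) rfl).1 rfl, b, rfl⟩

@[simp] theorem ofP_ix (e : P) : (Car.ofP e : Car P I l k Y).ix = none := rfl

@[simp] theorem ofX_ix (q : I) (hq : ¬ Y q) (a : Fin l) :
    (Car.ofX q hq a : Car P I l k Y).ix = some q := rfl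

@[simp] theorem ofY_ix (q : I) (hq : Y q) (b : Fin k) :
    (Car.ofY q hq b : Car P I l k Y).ix = some q := rfl

@[simp] theorem ofP_cd (e : P) : (Car.ofP e : Car P I l k Y).cd = .inl e := rfl

@[simp] theorem ofX_cd (q : I) (hq : ¬ Y q) (a : Fin l) :
    (Car.ofX q hq a : Car P I l k Y).cd = .inr (.inl a) := rfl

@[simp] theorem ofY_cd (q : I) (hq : Y q) (b : Fin k) :
    (Car.ofY q hq b : Car P I l k Y).cd = .inr (.inr b) := rfl

theorem ix_none_iff_cd {t t' : Car P I l k Y} (h : t.cd = t'.cd) :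
    t.ix = none ↔ t'.ix = none := by
  obtain ⟨t, ht⟩ := t
  obtain ⟨t', ht'⟩ := t'
  rcases t with e | ⟨q, u⟩ <;> rcases t' with e' | ⟨q', u'⟩ <;>
    simp_all [Car.ix, Car.cd]

theorem cd_inl {t : Car P I l k Y} {e : P} (h : t.1 = .inl e) : t.cd = .inl e := by
  unfold Car.cd
  rw [h]

theorem cd_inr {t : Car P I l k Y} {q : I} {u : Co l k} (h : t.1 = .inr (q, u)) :
    t.cd = .inr u := by
  unfold Car.cd
  rw [h]

theorem ix_inl {t : Car P I l k Y} {e : P} (h : t.1 = .inl e) : t.ix = none := by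
  unfold Car.ix
  rw [h]

theorem ix_inr {t : Car P I l k Y} {q : I} {u : Co l k} (h : t.1 = .inr (q, u)) :
    t.ix = some q := by
  unfold Car.ix
  rw [h]

theorem mv_pos {q : I} {t : Car P I l k Y}
    (h : ∀ q' u', (t.1 = .inr (q', u')) → (Y q' ↔ Y q)) :
    (t.mv q).1 = pl (fun _ => q) t.1 :=
  congrArg Subtype.val (dif_pos h)

theorem mv_neg {q : I} {t : Car P I l k Y}
    (h : ¬ ∀ q' u', (t.1 = .inr (q', u')) → (Y q' ↔ Y q)) : t.mv q = t :=
  dif_neg h

theorem mv_cd (q : I) (t : Car P I l k Y) : (t.mv q).cd = t.cd := by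
  by_cases h : ∀ q' u', (t.1 = .inr (q', u')) → (Y q' ↔ Y q)
  · have h1 := mv_pos h
    rcases ht : t.1 with e | ⟨q', u⟩
    · rw [cd_inl ht]
      apply cd_inl
      rw [h1, ht]
      rfl
    · rw [cd_inr ht]
      apply cd_inr (q := q)
      rw [h1, ht]
      rfl
  · rw [mv_neg h]

theorem mv_ix {q q' : I} {t : Car P I l k Y} (ht : t.ix = some q') (h : Y q' ↔ Y q) :
    (t.mv q).ix = some q := by
  rcases ht1 : t.1 with e | ⟨q1, u⟩
  · rw [ix_inl ht1] at ht
    cases ht
  · rw [ix_inr ht1] at ht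
    cases ht
    have h1 : ∀ q' u', (t.1 = .inr (q', u')) → (Y q' ↔ Y q) := by
      intro q2 u2 hh
      rw [ht1] at hh
      simp only [Sum.inr.injEq, Prod.mk.injEq] at hh
      obtain ⟨rfl, rfl⟩ := hh
      exact h
    apply ix_inr (u := u)
    rw [mv_pos h1, ht1]
    rfl

/-- colours and coordinates: two points with the same coordinate have the same colour -/
theorem color_of_cd {t t' : Car P I l k Y} {q q' : I} (h : t.cd = t'.cd) (ht : t.ix = some q)
    (ht' : t'.ix = some q') : Y q ↔ Y q' := by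
  rcases ix_some ht with ⟨hq, a, rfl⟩ | ⟨hq, b, rfl⟩ <;>
    rcases ix_some ht' with ⟨hq', a', rfl⟩ | ⟨hq', b', rfl⟩
  · exact iff_of_false hq hq'
  · simp at h
  · simp at h
  · exact iff_of_true hq hq'

theorem pure_mv {n : ℕ} {z : Fin n → Car P I l k Y} {q q' : I} (h : Pure z q)
    (hq : Y q ↔ Y q') : Pure (fun i => (z i).mv q') q' := by
  refine ⟨fun i => mv_ix (h.1 i) hq, fun i j hij => h.2 (car_ext ?_ ?_)⟩
  · rw [h.1 i, h.1 j]
  · have := congrArg Car.cd hij
    simpa only [mv_cd] using this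

theorem pure_ofX (q : I) (hq : ¬ Y q) : Pure (Car.ofX q hq : Fin l → Car P I l k Y) q := by
  refine ⟨fun i => rfl, fun i j hij => ?_⟩
  have := congrArg Car.cd hij
  simpa using this

theorem pure_ofY (q : I) (hq : Y q) : Pure (Car.ofY q hq : Fin k → Car P I l k Y) q := by
  refine ⟨fun i => rfl, fun i j hij => ?_⟩
  have := congrArg Car.cd hij
  simpa using this

theorem idx_pure {n : ℕ} {z : Fin n → Car P I l k Y} {q : I} (h : Pure z q) (hn : 1 ≤ n) :
    Idx z = {q} := by
  ext x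
  rw [Set.mem_singleton_iff]
  constructor
  · rintro ⟨i, hi⟩
    rw [h.1 i] at hi
    exact (Option.some.inj hi).symm
  · rintro rfl
    exact ⟨⟨0, hn⟩, h.1 _⟩

/-- transfer of purity -/
theorem pure_of_cd {n : ℕ} {z z' : Fin n → Car P I l k Y} {q q' : I} (h : Pure z q)
    (hcd : ∀ i, (z i).cd = (z' i).cd) (hix : ∀ i, (z' i).ix = some q') : Pure z' q' := by
  refine ⟨hix, fun i j hij => h.2 (car_ext ?_ ?_)⟩
  · rw [h.1 i, h.1 j]
  · rw [hcd i, hcd j, hij]

/-- a pure `k`-tuple at a `Y`-index contains all the points at this index -/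
theorem pure_full_k {z : Fin k → Car P I l k Y} {q : I} (h : Pure z q) (hq : Y q)
    {t : Car P I l k Y} (ht : t.ix = some q) : ∃ i, z i = t := by
  have h1 : ∀ i, ∃ b : Fin k, z i = Car.ofY q hq b := by
    intro i
    rcases ix_some (h.1 i) with ⟨hq', _, _⟩ | ⟨hq', b, hb⟩
    · exact absurd hq hq'
    · exact ⟨b, hb⟩
  choose f hf using h1
  have hinj : Function.Injective f := by
    intro i j hij
    apply h.2
    rw [hf i, hf j, hij]
  have hsurj : Function.Surjective f := Finite.injective_iff_surjective.1 hinj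
  rcases ix_some ht with ⟨hq', _, _⟩ | ⟨hq', b, hb⟩
  · exact absurd hq hq'
  · obtain ⟨i, hi⟩ := hsurj b
    exact ⟨i, by rw [hf i, hi, hb]⟩

/-- a pure `l`-tuple contains all the points at its index (if `k ≤ l`) -/
theorem pure_full_l (hkl : k ≤ l) {w : Fin l → Car P I l k Y} {q : I} (h : Pure w q)
    {t : Car P I l k Y} (ht : t.ix = some q) : ∃ i, w i = t := by
  by_cases hq : Y q
  · have h1 : ∀ i, ∃ b : Fin k, w i = Car.ofY q hq b := by
      intro i
      rcases ix_some (h.1 i) with ⟨hq', _, _⟩ | ⟨hq', b, hb⟩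
      · exact absurd hq hq'
      · exact ⟨b, hb⟩
    choose f hf using h1
    have hinj : Function.Injective f := by
      intro i j hij
      apply h.2
      rw [hf i, hf j, hij]
    have hlk : l ≤ k := by
      have := Fintype.card_le_of_injective f hinj
      simpa using this
    have hbij : Function.Bijective f := by
      rw [Fintype.bijective_iff_injective_and_card]
      refine ⟨hinj, ?_⟩
      simp only [Fintype.card_fin]
      omega
    rcases ix_some ht with ⟨hq', _, _⟩ | ⟨hq', b, hb⟩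
    · exact absurd hq hq'
    · obtain ⟨i, hi⟩ := hbij.2 b
      exact ⟨i, by rw [hf i, hi, hb]⟩
  · have h1 : ∀ i, ∃ b : Fin l, w i = Car.ofX q hq b := by
      intro i
      rcases ix_some (h.1 i) with ⟨hq', b, hb⟩ | ⟨hq', _, _⟩
      · exact ⟨b, hb⟩
      · exact absurd hq' hq
    choose f hf using h1
    have hinj : Function.Injective f := by
      intro i j hij
      apply h.2
      rw [hf i, hf j, hij]
    have hsurj : Function.Surjective f := Finite.injective_iff_surjective.1 hinj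
    rcases ix_some ht with ⟨hq', b, hb⟩ | ⟨hq', _, _⟩
    · obtain ⟨i, hi⟩ := hsurj b
      exact ⟨i, by rw [hf i, hi, hb]⟩
    · exact absurd hq' hq

/-- a tuple disjoint from a pure `k`-tuple at a `Y`-index does not have this index -/
theorem not_idx_of_dj_k {ι : Type} {z : Fin k → Car P I l k Y} {q : I} (h : Pure z q) (hq : Y q)
    {w : ι → Car P I l k Y} (hd : Dj w z) : q ∉ Idx w := by
  rintro ⟨i, hi⟩
  obtain ⟨j, hj⟩ := pure_full_k h hq hi
  exact hd i j hj.symm

/-- a tuple disjoint from a pure `l`-tuple does not have its index (if `k ≤ l`) -/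
theorem not_idx_of_dj_l (hkl : k ≤ l) {ι : Type} {z : Fin l → Car P I l k Y} {q : I}
    (h : Pure z q) {w : ι → Car P I l k Y} (hd : Dj w z) : q ∉ Idx w := by
  rintro ⟨i, hi⟩
  obtain ⟨j, hj⟩ := pure_full_l hkl h hi
  exact hd i j hj.symm

/-- conversely, tuples without common index, one of them without points of `P`, are disjoint -/
theorem dj_of_pure {n : ℕ} {ι : Type} {z : Fin n → Car P I l k Y} {q : I} (h : Pure z q)
    {w : ι → Car P I l k Y} (hw : q ∉ Idx w) : Dj w z := by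
  intro i j hij
  exact hw ⟨i, by rw [hij]; exact h.1 j⟩

theorem dj_symm {N ι κ : Type} {v : ι → N} {w : κ → N} (h : Dj v w) : Dj w v :=
  fun i j hij => h j i hij.symm

theorem idx_finite {ι : Type} [Finite ι] (z : ι → Car P I l k Y) : (Idx z).Finite := by
  have h : (Set.range fun i => (z i).ix).Finite := Set.finite_range _
  refine Set.Finite.of_finite_image (f := some) (h.subset ?_) (Option.some_injective _).injOn
  rintro _ ⟨q, ⟨i, hi⟩, rfl⟩
  exact ⟨i, hi⟩

section Order

variable [LinearOrder I]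

theorem lt_irrefl_car (t : Car P I l k Y) : ¬ t.Lt t := by
  rintro ⟨q, q', h1, h2, h3⟩
  rw [h1] at h2
  cases h2
  exact lt_irrefl _ h3

theorem lt_iff_of_ix {t t' : Car P I l k Y} {q q' : I} (h : t.ix = some q) (h' : t'.ix = some q') :
    t.Lt t' ↔ q < q' := by
  constructor
  · rintro ⟨a, b, h1, h2, h3⟩
    rw [h] at h1
    rw [h'] at h2
    cases h1
    cases h2
    exact h3
  · intro h3
    exact ⟨q, q', h, h', h3⟩

/-- points with the same coordinates and no order between them have the same index -/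
theorem ix_eq_iff_not_lt {t t' : Car P I l k Y} {q q' : I} (h : t.ix = some q)
    (h' : t'.ix = some q') : t.ix = t'.ix ↔ (¬ t.Lt t' ∧ ¬ t'.Lt t) := by
  rw [lt_iff_of_ix h h', lt_iff_of_ix h' h, h, h', Option.some.injEq]
  constructor
  · rintro rfl
    exact ⟨lt_irrefl _, lt_irrefl _⟩
  · rintro ⟨h1, h2⟩
    exact le_antisymm (not_lt.1 h2) (not_lt.1 h1)

/-- a relation `Lt` involving a point without index is false -/
theorem not_lt_none_left {t t' : Car P I l k Y} (h : t.ix = none) : ¬ t.Lt t' := by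
  rintro ⟨a, b, h1, _, _⟩
  rw [h] at h1
  cases h1

theorem not_lt_none_right {t t' : Car P I l k Y} (h : t'.ix = none) : ¬ t.Lt t' := by
  rintro ⟨a, b, _, h1, _⟩
  rw [h] at h1
  cases h1

/-- comparison of a fixed point with a moved point -/
theorem lt_move {t z z' : Car P I l k Y} {q q' : I} (hz : z.ix = some q) (hz' : z'.ix = some q')
    (ht : ∀ x, t.ix = some x → (x < q ∧ x < q') ∨ (q < x ∧ q' < x)) :
    (t.Lt z ↔ t.Lt z') ∧ (z.Lt t ↔ z'.Lt t) := by
  rcases hx : t.ix with _ | x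
  · exact ⟨iff_of_false (not_lt_none_left hx) (not_lt_none_left hx),
      iff_of_false (not_lt_none_right hx) (not_lt_none_right hx)⟩
  · rw [lt_iff_of_ix hx hz, lt_iff_of_ix hx hz', lt_iff_of_ix hz hx, lt_iff_of_ix hz' hx]
    rcases ht x hx with ⟨h1, h2⟩ | ⟨h1, h2⟩
    · exact ⟨iff_of_true h1 h2, iff_of_false (not_lt.2 h1.le) (not_lt.2 h2.le)⟩
    · exact ⟨iff_of_false (not_lt.2 h1.le) (not_lt.2 h2.le), iff_of_true h1 h2⟩

/-- order types and moved tuples: replacing in a tuple the entries at the index `q` (and no others)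
by the entries moved to `q'`, where no index of the tuple is between `q` and `q'` (nor equal to
`q'`), does not change the order type.  Here in the form needed for `(w, z, c)`: `w` and `c` do not
have the indices `q, q'` and no index between, and `z` is pure at `q`. -/
theorem oty_move {ι κ : Type} {n : ℕ} (w : ι → Car P I l k Y) (c : κ → Car P I l k Y)
    (z z' : Fin n → Car P I l k Y) {q q' : I} (hz : Pure z q) (hz' : Pure z' q')
    (hcd : ∀ i, (z i).cd = (z' i).cd)
    (hw : ∀ x ∈ Idx w, (x < q ∧ x < q') ∨ (q < x ∧ q' < x))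
    (hc : ∀ x ∈ Idx c, (x < q ∧ x < q') ∨ (q < x ∧ q' < x)) :
    OTy (Sum.elim (Sum.elim w z) c) (Sum.elim (Sum.elim w z') c) := by
  have hw' : ∀ i x, (w i).ix = some x → (x < q ∧ x < q') ∨ (q < x ∧ q' < x) :=
    fun i x h => hw x ⟨i, h⟩
  have hc' : ∀ i x, (c i).ix = some x → (x < q ∧ x < q') ∨ (q < x ∧ q' < x) :=
    fun i x h => hc x ⟨i, h⟩
  refine ⟨?_, ?_⟩
  · rintro ((i | i) | i) <;> simp [hcd]
  · rintro ((i | i) | i) ((j | j) | j) <;> simp only [Sum.elim_inl, Sum.elim_inr]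
    · exact (lt_move (hz.1 j) (hz'.1 j) (hw' i)).1
    · exact (lt_move (hz.1 i) (hz'.1 i) (hw' j)).2
    · rw [lt_iff_of_ix (hz.1 i) (hz.1 j), lt_iff_of_ix (hz'.1 i) (hz'.1 j)]
      exact iff_of_false (lt_irrefl _) (lt_irrefl _)
    · exact (lt_move (hz.1 i) (hz'.1 i) (hc' j)).2
    · exact (lt_move (hz.1 j) (hz'.1 j) (hc' i)).1

/-- the same, moving `w` and `z` -/
theorem oty_move2 {κ : Type} {n n' : ℕ} (c : κ → Car P I l k Y)
    (w w' : Fin n' → Car P I l k Y) (z z' : Fin n → Car P I l k Y) {u u' v v' : I}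
    (hw : Pure w u) (hw' : Pure w' u') (hwcd : ∀ i, (w i).cd = (w' i).cd)
    (hz : Pure z v) (hz' : Pure z' v') (hzcd : ∀ i, (z i).cd = (z' i).cd)
    (huv : u ≠ v) (huv' : u' ≠ v') (hlt : u < v ↔ u' < v')
    (hcu : ∀ x ∈ Idx c, (x < u ∧ x < u') ∨ (u < x ∧ u' < x))
    (hcv : ∀ x ∈ Idx c, (x < v ∧ x < v') ∨ (v < x ∧ v' < x)) :
    OTy (Sum.elim (Sum.elim w z) c) (Sum.elim (Sum.elim w' z') c) := by
  have hcu' : ∀ i x, (c i).ix = some x → (x < u ∧ x < u') ∨ (u < x ∧ u' < x) :=
    fun i x h => hcu x ⟨i, h⟩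
  have hcv' : ∀ i x, (c i).ix = some x → (x < v ∧ x < v') ∨ (v < x ∧ v' < x) :=
    fun i x h => hcv x ⟨i, h⟩
  have hgt : v < u ↔ v' < u' := by
    rw [← not_le, ← not_le, le_iff_lt_or_eq, le_iff_lt_or_eq]
    constructor
    · intro h h'
      rcases h' with h' | h'
      · exact h (Or.inl (hlt.2 h'))
      · exact huv' h'
    · intro h h'
      rcases h' with h' | h'
      · exact h (Or.inl (hlt.1 h'))
      · exact huv h'
  refine ⟨?_, ?_⟩
  · rintro ((i | i) | i) <;> simp [hwcd, hzcd]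
  · rintro ((i | i) | i) ((j | j) | j) <;> simp only [Sum.elim_inl, Sum.elim_inr]
    · rw [lt_iff_of_ix (hw.1 i) (hw.1 j), lt_iff_of_ix (hw'.1 i) (hw'.1 j)]
      exact iff_of_false (lt_irrefl _) (lt_irrefl _)
    · rw [lt_iff_of_ix (hw.1 i) (hz.1 j), lt_iff_of_ix (hw'.1 i) (hz'.1 j)]
      exact hlt
    · exact (lt_move (hw.1 i) (hw'.1 i) (hcu' j)).2
    · rw [lt_iff_of_ix (hz.1 i) (hw.1 j), lt_iff_of_ix (hz'.1 i) (hw'.1 j)]
      exact hgt
    · rw [lt_iff_of_ix (hz.1 i) (hz.1 j), lt_iff_of_ix (hz'.1 i) (hz'.1 j)]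
      exact iff_of_false (lt_irrefl _) (lt_irrefl _)
    · exact (lt_move (hz.1 i) (hz'.1 i) (hcv' j)).2
    · exact (lt_move (hw.1 j) (hw'.1 j) (hcu' i)).1
    · exact (lt_move (hz.1 j) (hz'.1 j) (hcv' i)).1

end Order

end Pool.Agent.Helper89.EA
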