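import Pool.Agent.Helper89.EA.UDefs
import Pool.Agent.Helper89.EA.U.Ram
import Pool.Agent.Helper89.EA.U.U5b

/-!
# Project EA, piece U7b: homogeneous subsequences of tuples in `Car`

Proof.  For `i < j` colour the pair by all the (finitely many) data of the tuple
`T i j = (w i, z i, w j, z j, c)` with index type
`ι = ((Fin l ⊕ Fin k) ⊕ (Fin l ⊕ Fin k)) ⊕ Fin p` : the map `ι → P ⊕ Co l k` of the `cd`, the
relation `Lt` on `ι` and the relation of having the same index on `ι` (the type of colours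
`(ι → P ⊕ Co l k) × (ι → ι → Prop) × (ι → ι → Prop)` is finite; `classical`).  `ramsey_pairs`
gives `f`.  Write `Z = z ∘ f`, `W = w ∘ f`.  All `Z j` have the same data over `c` (compare the
pairs `(j, j + 1)` and `(j', j' + 1)`).  Let `j < i < j'`.

Claim: if `(Z j b).ix = (W i a).ix`, or if `(Z j' b).ix = (W i a).ix`, then
`(Z j b).ix = (Z j' b).ix`.  First case: by homogeneity `(Z 0 b).ix = (W 2 a).ix = (Z 1 b).ix`, so
by homogeneity the index of `Z · b` is constant.  Second case: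
`(Z 1 b).ix = (W 0 a).ix = (Z 2 b).ix`, the same.  So `hzw` holds.

If `W i a = Z j b` with `j < i`, then by the claim and the equality of the `cd`, `Z j b = Z j' b`
for `j' > i`, so `W i a = Z j' b`, against the hypothesis `hle`.
-/

namespace Pool.Agent.Helper89.EA

theorem hom_subseq {P I : Type} [Finite P] [LinearOrder I] {l k p : ℕ} {Y : I → Prop}
    (c : Fin p → Car P I l k Y) (w : ℕ → Fin l → Car P I l k Y) (z : ℕ → Fin k → Car P I l k Y)
    (hle : ∀ i j, i ≤ j → Dj (w i) (z j)) :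
    ∃ f : ℕ → ℕ, StrictMono f ∧ ∀ j i j', j < i → i < j' →
      (∀ b, (z (f j) b).cd = (z (f j') b).cd) ∧
      (∀ b b', (z (f j) b).Lt (z (f j) b') ↔ (z (f j') b).Lt (z (f j') b')) ∧
      (∀ b e, ((z (f j) b).Lt (c e) ↔ (z (f j') b).Lt (c e)) ∧
        ((c e).Lt (z (f j) b) ↔ (c e).Lt (z (f j') b))) ∧
      (∀ b a, (z (f j) b).ix = (w (f i) a).ix ↔ (z (f j') b).ix = (w (f i) a).ix) ∧
      Dj (w (f i)) (z (f j)) := by
  classical
  have h1 : Finite ((((Fin l ⊕ Fin k) ⊕ (Fin l ⊕ Fin k)) ⊕ Fin p) → P ⊕ Co l k) := inferInstance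
  have h2 : Finite ((((Fin l ⊕ Fin k) ⊕ (Fin l ⊕ Fin k)) ⊕ Fin p) →
        (((Fin l ⊕ Fin k) ⊕ (Fin l ⊕ Fin k)) ⊕ Fin p) → Prop) := inferInstance
  have h3 : Finite (((((Fin l ⊕ Fin k) ⊕ (Fin l ⊕ Fin k)) ⊕ Fin p) →
        (((Fin l ⊕ Fin k) ⊕ (Fin l ⊕ Fin k)) ⊕ Fin p) → Prop) ×
      ((((Fin l ⊕ Fin k) ⊕ (Fin l ⊕ Fin k)) ⊕ Fin p) →
        (((Fin l ⊕ Fin k) ⊕ (Fin l ⊕ Fin k)) ⊕ Fin p) → Prop)) := @Finite.instProd _ _ h2 h2
  have hfin : Finite (((((Fin l ⊕ Fin k) ⊕ (Fin l ⊕ Fin k)) ⊕ Fin p) → P ⊕ Co l k) ×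
      ((((Fin l ⊕ Fin k) ⊕ (Fin l ⊕ Fin k)) ⊕ Fin p) →
        (((Fin l ⊕ Fin k) ⊕ (Fin l ⊕ Fin k)) ⊕ Fin p) → Prop) ×
      ((((Fin l ⊕ Fin k) ⊕ (Fin l ⊕ Fin k)) ⊕ Fin p) →
        (((Fin l ⊕ Fin k) ⊕ (Fin l ⊕ Fin k)) ⊕ Fin p) → Prop)) := @Finite.instProd _ _ h1 h3
  let T : ℕ → ℕ → (((Fin l ⊕ Fin k) ⊕ (Fin l ⊕ Fin k)) ⊕ Fin p) → Car P I l k Y :=
    fun i j => Sum.elim (Sum.elim (Sum.elim (w i) (z i)) (Sum.elim (w j) (z j))) c
  obtain ⟨f, hf, hχ⟩ := ramsey_pairs (κ := (((((Fin l ⊕ Fin k) ⊕ (Fin l ⊕ Fin k)) ⊕ Fin p) →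
      P ⊕ Co l k) ×
      ((((Fin l ⊕ Fin k) ⊕ (Fin l ⊕ Fin k)) ⊕ Fin p) →
        (((Fin l ⊕ Fin k) ⊕ (Fin l ⊕ Fin k)) ⊕ Fin p) → Prop) ×
      ((((Fin l ⊕ Fin k) ⊕ (Fin l ⊕ Fin k)) ⊕ Fin p) →
        (((Fin l ⊕ Fin k) ⊕ (Fin l ⊕ Fin k)) ⊕ Fin p) → Prop)))
    (fun i j => (fun t => (T i j t).cd, fun t t' => (T i j t).Lt (T i j t'),
      fun t t' => (T i j t).ix = (T i j t').ix))
  have hcd : ∀ i j i' j', i < j → i' < j' → ∀ t, (T (f i) (f j) t).cd = (T (f i') (f j') t).cd :=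
    fun i j i' j' h h' t => congrFun (congrArg Prod.fst (hχ i j i' j' h h')) t
  have hlt : ∀ i j i' j', i < j → i' < j' → ∀ t t',
      ((T (f i) (f j) t).Lt (T (f i) (f j) t') ↔ (T (f i') (f j') t).Lt (T (f i') (f j') t')) :=
    fun i j i' j' h h' t t' => iff_of_eq
      (congrFun (congrFun (congrArg (fun u => u.2.1) (hχ i j i' j' h h')) t) t')
  have hix : ∀ i j i' j', i < j → i' < j' → ∀ t t',
      ((T (f i) (f j) t).ix = (T (f i) (f j) t').ix ↔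
        (T (f i') (f j') t).ix = (T (f i') (f j') t').ix) :=
    fun i j i' j' h h' t t' => iff_of_eq
      (congrFun (congrFun (congrArg (fun u => u.2.2) (hχ i j i' j' h h')) t) t')
  -- the positions
  -- first `w`: `inl (inl (inl a))`, first `z`: `inl (inl (inr b))`,
  -- second `w`: `inl (inr (inl a))`, second `z`: `inl (inr (inr b))`
  have hconst1 : ∀ b a, (∃ j i, j < i ∧ (z (f j) b).ix = (w (f i) a).ix) →
      ∀ j j', j < j' → (z (f j) b).ix = (z (f j') b).ix := by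
    rintro b a ⟨j, i, hji, h⟩ j1 j2 h12
    have h02 : (z (f 0) b).ix = (w (f 2) a).ix :=
      (hix j i 0 2 hji (by omega) (.inl (.inl (.inr b))) (.inl (.inr (.inl a)))).1 h
    have h12' : (z (f 1) b).ix = (w (f 2) a).ix :=
      (hix j i 1 2 hji (by omega) (.inl (.inl (.inr b))) (.inl (.inr (.inl a)))).1 h
    exact (hix 0 1 j1 j2 (by omega) h12 (.inl (.inl (.inr b))) (.inl (.inr (.inr b)))).1
      (h02.trans h12'.symm)
  have hconst2 : ∀ b a, (∃ i j, i < j ∧ (z (f j) b).ix = (w (f i) a).ix) →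
      ∀ j j', j < j' → (z (f j) b).ix = (z (f j') b).ix := by
    rintro b a ⟨i, j, hij, h⟩ j1 j2 h12
    have h01 : (z (f 1) b).ix = (w (f 0) a).ix :=
      (hix i j 0 1 hij (by omega) (.inl (.inr (.inr b))) (.inl (.inl (.inl a)))).1 h
    have h02 : (z (f 2) b).ix = (w (f 0) a).ix :=
      (hix i j 0 2 hij (by omega) (.inl (.inr (.inr b))) (.inl (.inl (.inl a)))).1 h
    exact (hix 1 2 j1 j2 (by omega) h12 (.inl (.inl (.inr b))) (.inl (.inr (.inr b)))).1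
      (h01.trans h02.symm)
  refine ⟨f, hf, fun j i j' hji hij' => ⟨?_, ?_, ?_, ?_, ?_⟩⟩
  · intro b
    exact hcd j i j' (j' + 1) hji (by omega) (.inl (.inl (.inr b)))
  · intro b b'
    exact hlt j i j' (j' + 1) hji (by omega) (.inl (.inl (.inr b))) (.inl (.inl (.inr b')))
  · intro b e
    exact ⟨hlt j i j' (j' + 1) hji (by omega) (.inl (.inl (.inr b))) (.inr e),
      hlt j i j' (j' + 1) hji (by omega) (.inr e) (.inl (.inl (.inr b)))⟩
  · intro b a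
    constructor
    · intro h
      exact (hconst1 b a ⟨j, i, hji, h⟩ j j' (by omega)).symm.trans h
    · intro h
      exact (hconst2 b a ⟨i, j', hij', h⟩ j j' (by omega)).trans h
  · intro a b h
    have h1 : (z (f j) b).ix = (z (f j') b).ix :=
      hconst1 b a ⟨j, i, hji, by rw [h]⟩ j j' (by omega)
    have h2 : (z (f j) b).cd = (z (f j') b).cd :=
      hcd j i j' (j' + 1) hji (by omega) (.inl (.inl (.inr b)))
    have h3 : z (f j) b = z (f j') b := car_ext h1 h2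
    exact hle (f i) (f j') (hf.monotone (by omega)) a b (h.trans h3)

end Pool.Agent.Helper89.EA
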