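import Pool.Agent.Helper89.EA.U.U7a
import Pool.Agent.Helper89.EA.U.U7b
import Pool.Agent.Helper89.EA.U.U6c
import Pool.Agent.Helper89.EA.U.U1

/-!
# Project EA, piece U7c: the coding sentence `Psi m` implies `m ∈ S`

Proof.  `chain_of_psi` gives `w0, w1, c, w, z`; let `f` be as in `hom_subseq`, `Z = z ∘ f`,
`W = w ∘ f`.  For `j < i < j'`: `Dj (W i) (Z j)`, so `¬ Rl (W i) (Z j) c`, and
`Rl (W i) (Z j') c`.  `mv_lemma` for `W i, Z j, Z j', c` gives: `Z j, Z j'` are pure at `v j, v j'`,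
`W i` is pure at `u i`, `v j < u i < v j'` or `v j' < u i < v j`, not indices of `c`.  In particular
`v j ≠ v j'` if `j + 2 ≤ j'`.  The set of rational numbers `x.pt`, `x` an index of `c, w0` or `w1`
is finite, and so is the set of indices over them (`finite_pt`, `idx_finite`); so there is `j`
(even) such that `v j` is not over one of these rational numbers.  Put `i = j + 1`, `j' = j + 2`.
By the hypothesis on `c` in `hom_subseq`, `v j` and `v j'` are in the same cut of the indices of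
`c`, hence so is `u i` which is between; `flips_intro` gives `Flips Λ c (W i) (Z j) (u i) (v j) t`.
Since `HH (Z j)`, `hh_iff` gives `kd (v j).pt ∈ S` and `kd (v j).pt = m`.
-/

namespace Pool.Agent.Helper89.EA

variable {σ : Sig} {M N P : Type} {M0 : RS σ M} {k l p : ℕ} {s : σ.Sy}
  {α : Fin (σ.ar s) → (Fin l ⊕ Fin k) ⊕ Fin p} {S : Set ℕ}

theorem pure_unique {k : ℕ} (hk : 1 ≤ k) {l : ℕ} {P I : Type} {Y : I → Prop}
    {z : Fin k → Car P I l k Y} {q q' : I} (h : Pure z q) (h' : Pure z q') : q = q' := by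
  have h1 := h.1 ⟨0, hk⟩
  have h2 := h'.1 ⟨0, hk⟩
  rw [h1] at h2
  exact Option.some_injective _ h2

theorem psi_conv [Finite P] (h0 : 0 ∉ S) (hmin : IsMinOP M0 k l) (Λ : Lad M0 k l s p α P N)
    {m : ℕ} (hm : l < m) (h : Psi α m _ (star Λ (Ix.Y (S := S)))) : m ∈ S := by
  classical
  obtain ⟨w0, w1, c, w, z, hHH, hle, hgt⟩ := chain_of_psi h
  obtain ⟨f, hf, hom⟩ := hom_subseq c w z (fun i j hij => (hle i j hij).1)
  have hk : 1 ≤ k := (isMinOP_pos hmin).1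
  have hrel : ∀ j i j', j < i → i < j' → ¬ (Rl α (star Λ (Ix.Y (S := S))) (w (f i)) (z (f j)) c ↔
      Rl α (star Λ (Ix.Y (S := S))) (w (f i)) (z (f j')) c) := by
    intro j i j' hji hij' hiff
    have h1 := (hom j i j' hji hij').2.2.2.2
    have h2 := hgt (f i) (f j) (hf hji)
    have h3 := (hle (f i) (f j') (hf hij').le).2
    exact h2 ⟨h1, hiff.2 h3⟩
  have key : ∀ j i j', j < i → i < j' → ∃ v v' i0, Pure (z (f j)) v ∧ Pure (z (f j')) v' ∧
      Pure (w (f i)) i0 ∧ ((v < i0 ∧ i0 < v') ∨ (v' < i0 ∧ i0 < v)) ∧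
      v ∉ Idx c ∧ v' ∉ Idx c ∧ i0 ∉ Idx c := by
    intro j i j' hji hij'
    obtain ⟨h1, h2, h3, h4, h5⟩ := hom j i j' hji hij'
    exact mv_lemma hmin Λ (w (f i)) (z (f j)) (z (f j')) c h1 h2 h3 h4 (hrel j i j' hji hij')
  choose v hv using fun j => (show ∃ v, Pure (z (f j)) v by
    obtain ⟨v, v', i0, h1, -⟩ := key j (j + 1) (j + 2) (by omega) (by omega)
    exact ⟨v, h1⟩)
  have hne : ∀ j j', j + 2 ≤ j' → v j ≠ v j' := by
    intro j j' hjj' he
    obtain ⟨x, x', i0, h1, h2, h3, h4, -⟩ := key j (j + 1) j' (by omega) (by omega)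
    rw [pure_unique hk h1 (hv j), pure_unique hk h2 (hv j'), he] at h4
    rcases h4 with ⟨h4, h5⟩ | ⟨h4, h5⟩
    · exact lt_asymm h4 h5
    · exact lt_asymm h4 h5
  have hinj : Function.Injective (fun j => v (2 * j)) := by
    intro j j' he
    rcases lt_trichotomy j j' with hlt | heq | hlt
    · exact absurd he (hne _ _ (by omega))
    · exact heq
    · exact absurd he.symm (hne _ _ (by omega))
  have hfin : ({a : Ix S | ∃ x ∈ Idx c ∪ Idx w0 ∪ Idx w1, a.pt = x.pt}).Finite := by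
    have h1 : (Idx c ∪ Idx w0 ∪ Idx w1).Finite :=
      ((idx_finite c).union (idx_finite w0)).union (idx_finite w1)
    refine (h1.biUnion (fun x _ => finite_pt (S := S) x.pt)).subset ?_
    rintro a ⟨x, hx, hax⟩
    exact Set.mem_biUnion hx hax
  obtain ⟨j, hj⟩ : ∃ j, v (2 * j) ∉ {a : Ix S | ∃ x ∈ Idx c ∪ Idx w0 ∪ Idx w1, a.pt = x.pt} := by
    by_contra hcon
    push Not at hcon
    exact Set.infinite_of_injective_forall_mem hinj hcon hfin
  obtain ⟨x, x', i0, h1, h2, h3, h4, h5, h6, h7⟩ :=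
    key (2 * j) (2 * j + 1) (2 * j + 2) (by omega) (by omega)
  obtain ⟨g1, g2, g3, g4, g5⟩ := hom (2 * j) (2 * j + 1) (2 * j + 2) (by omega) (by omega)
  have hx : x = v (2 * j) := pure_unique hk h1 (hv _)
  have hr := hrel (2 * j) (2 * j + 1) (2 * j + 2) (by omega) (by omega)
  generalize hZ : z (f (2 * j)) = Z at *
  generalize z (f (2 * j + 2)) = Z' at *
  generalize w (f (2 * j + 1)) = W at *
  have hcut : SC c x x' := by
    rintro q ⟨e, he⟩
    obtain ⟨g31, g32⟩ := g3 ⟨0, hk⟩ e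
    rw [lt_iff_of_ix (h1.1 _) he, lt_iff_of_ix (h2.1 _) he] at g31
    rw [lt_iff_of_ix he (h1.1 _), lt_iff_of_ix he (h2.1 _)] at g32
    have hxq : x ≠ q := fun hh => h5 (hh ▸ ⟨e, he⟩)
    rcases lt_or_gt_of_ne hxq with hlt | hlt
    · exact Or.inr ⟨hlt, g31.1 hlt⟩
    · exact Or.inl ⟨hlt, g32.1 hlt⟩
  have hcut' : SC c x' x := fun q hq => (hcut q hq).imp (fun a => ⟨a.2, a.1⟩) (fun a => ⟨a.2, a.1⟩)
  have hcuti : SC c i0 i0 := by
    intro q hq
    have hxq : i0 ≠ q := fun hh => h7 (hh ▸ hq)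
    rcases lt_or_gt_of_ne hxq with hlt | hlt
    · exact Or.inr ⟨hlt, hlt⟩
    · exact Or.inl ⟨hlt, hlt⟩
  have hcix : SC c i0 x ∧ SC c i0 x' := by
    refine ⟨fun q hq => ?_, fun q hq => ?_⟩
    · rcases hcut q hq with ⟨a1, a2⟩ | ⟨a1, a2⟩
      · refine Or.inl ⟨?_, a1⟩
        rcases h4 with ⟨b1, b2⟩ | ⟨b1, b2⟩
        · exact a1.trans b1
        · exact a2.trans b1
      · refine Or.inr ⟨?_, a1⟩
        rcases h4 with ⟨b1, b2⟩ | ⟨b1, b2⟩
        · exact b2.trans a2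
        · exact b2.trans a1
    · rcases hcut q hq with ⟨a1, a2⟩ | ⟨a1, a2⟩
      · refine Or.inl ⟨?_, a2⟩
        rcases h4 with ⟨b1, b2⟩ | ⟨b1, b2⟩
        · exact a1.trans b1
        · exact a2.trans b1
      · refine Or.inr ⟨?_, a2⟩
        rcases h4 with ⟨b1, b2⟩ | ⟨b1, b2⟩
        · exact b2.trans a2
        · exact b2.trans a1
  obtain ⟨t, ht⟩ : ∃ t, Flips Λ c W Z i0 x t := by
    rcases h4 with ⟨b1, b2⟩ | ⟨b1, b2⟩
    · obtain ⟨t, -, ht⟩ := flips_intro Λ c W W Z' Z h3 h3 h2 h1 (fun _ => rfl)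
        (fun i => (g1 i).symm) hcix.2 hcuti hcut' b2 b1 (fun hh => hr hh.symm)
      exact ⟨t, ht⟩
    · obtain ⟨t, ht, -⟩ := flips_intro Λ c W W Z Z' h3 h3 h1 h2 (fun _ => rfl)
        g1 hcix.1 hcuti hcut b2 b1 hr
      exact ⟨t, ht⟩
  have hbad : ∀ y ∈ Idx c ∪ Idx w0 ∪ Idx w1, y.pt ≠ x.pt := by
    intro y hy he
    exact hj ⟨y, hy, by rw [← hx, he]⟩
  have hH : HH α (star Λ Ix.Y) w0 w1 c m Z := hZ ▸ hHH (f (2 * j))
  have hfinal := (hh_iff h0 hmin Λ w0 w1 c W Z ht hH.1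
    (fun y hy => hbad y (Or.inl (Or.inl hy))) (fun y hy => hbad y (Or.inl (Or.inr hy)))
    (fun y hy => hbad y (Or.inr hy)) hm).1 hH
  rw [← hfinal.2]
  exact hfinal.1

end Pool.Agent.Helper89.EA
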