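import Pool.Agent.Helper89.EA.UDefs
import Pool.Agent.Helper89.EA.P.B2

/-!
# Project EA, piece U8: the coding sentences are first order

Proof.  Show step by step, with the closure properties of piece B2 (`foc_ren`, `foc_all`,
`FOc.ex`, `foc_finite_all`, …), that for variables `v : ι → N` (`ι` finite) and maps
`f0 f1 fw : Fin l → ι`, `fz fz' : Fin k → ι`, `fc : Fin p → ι`, the predicates
`Rl α A (v ∘ fw) (v ∘ fz) (v ∘ fc)`, `Dj (v ∘ f) (v ∘ g)`, `Tw α A (v ∘ fc) (v ∘ fz) (v ∘ fz')`,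
`ZZ α A (v ∘ f0) (v ∘ f1) (v ∘ fc) (v ∘ fz)`, `RunP … m (v ∘ fz)` (quantify over
`Fin m × Fin k → N` and curry), `HH`, `WW`, `Tr` are `FOc`, and finally `Psi` (no free variables).
-/

namespace Pool.Agent.Helper89.EA

variable {σ : Sig} {k l p : ℕ} {s : σ.Sy}

section

variable {ι : Type} [Finite ι]

theorem foc_rl (α : Fin (σ.ar s) → (Fin l ⊕ Fin k) ⊕ Fin p) (fw : Fin l → ι) (fz : Fin k → ι)
    (fc : Fin p → ι) : FOc σ (fun _ A v => Rl α A (v ∘ fw) (v ∘ fz) (v ∘ fc)) := by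
  refine foc_congr (foc_rel s (Sum.elim (Sum.elim fw fz) fc ∘ α)) fun N A v => ?_
  unfold Rl
  rw [← Function.comp_assoc, Sum.comp_elim, Sum.comp_elim]

theorem foc_dj {a b : ℕ} (f : Fin a → ι) (g : Fin b → ι) :
    FOc σ (fun _ _ v => Dj (v ∘ f) (v ∘ g)) :=
  foc_finite_all fun i => foc_finite_all fun j => FOc.not _ (foc_eq (f i) (g j))

theorem foc_tw (α : Fin (σ.ar s) → (Fin l ⊕ Fin k) ⊕ Fin p) (fc : Fin p → ι)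
    (fz fz' : Fin k → ι) :
    FOc σ (fun _ A v => Tw α A (v ∘ fc) (v ∘ fz) (v ∘ fz')) := by
  let L : ι → ι ⊕ Fin l := Sum.inl
  let R : Fin l → ι ⊕ Fin l := Sum.inr
  exact foc_congr (foc_all (foc_imp (foc_dj R (L ∘ fz)) (foc_imp (foc_dj R (L ∘ fz'))
    (foc_imp (foc_dj R (L ∘ fc)) (foc_iff (foc_rl α R (L ∘ fz) (L ∘ fc))
      (foc_rl α R (L ∘ fz') (L ∘ fc))))))) fun N A v => Iff.rfl

theorem foc_zz (α : Fin (σ.ar s) → (Fin l ⊕ Fin k) ⊕ Fin p) (f0 f1 : Fin l → ι) (fc : Fin p → ι)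
    (fz : Fin k → ι) :
    FOc σ (fun _ A v => ZZ α A (v ∘ f0) (v ∘ f1) (v ∘ fc) (v ∘ fz)) :=
  FOc.and _ _ (foc_dj fz f0) (FOc.and _ _ (foc_dj fz f1) (FOc.and _ _ (foc_dj fz fc)
    (FOc.and _ _ (foc_rl α f0 fz fc) (FOc.not _ (foc_rl α f1 fz fc)))))

theorem foc_runP (α : Fin (σ.ar s) → (Fin l ⊕ Fin k) ⊕ Fin p) (f0 f1 : Fin l → ι)
    (fc : Fin p → ι) (m : ℕ) (fz : Fin k → ι) :
    FOc σ (fun _ A v => RunP α A (v ∘ f0) (v ∘ f1) (v ∘ fc) m (v ∘ fz)) := by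
  let L : ι → ι ⊕ (Fin m × Fin k) := Sum.inl
  let R : Fin m → Fin k → ι ⊕ (Fin m × Fin k) := fun i b => Sum.inr (i, b)
  have h1 : FOc σ (fun _ A (v : ι ⊕ (Fin m × Fin k) → _) =>
      ∀ i, ZZ α A (v ∘ (L ∘ f0)) (v ∘ (L ∘ f1)) (v ∘ (L ∘ fc)) (v ∘ R i)) :=
    foc_finite_all fun i => foc_zz α (L ∘ f0) (L ∘ f1) (L ∘ fc) (R i)
  have h2 : FOc σ (fun _ _ (v : ι ⊕ (Fin m × Fin k) → _) =>
      ∀ i j, i ≠ j → Dj (v ∘ R i) (v ∘ R j)) :=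
    foc_finite_all fun i => foc_finite_all fun j =>
      foc_imp (foc_const (i ≠ j)) (foc_dj (R i) (R j))
  have h3 : FOc σ (fun _ A (v : ι ⊕ (Fin m × Fin k) → _) =>
      ∀ i j : Fin m, i.val + 1 = j.val → Tw α A (v ∘ (L ∘ fc)) (v ∘ R i) (v ∘ R j)) :=
    foc_finite_all fun i => foc_finite_all fun j =>
      foc_imp (foc_const (i.val + 1 = j.val)) (foc_tw α (L ∘ fc) (R i) (R j))
  have h4 : FOc σ (fun _ _ (v : ι ⊕ (Fin m × Fin k) → _) =>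
      ∃ i, ∀ b, v (R i b) = v (L (fz b))) :=
    foc_finite_ex fun i => foc_finite_all fun b => foc_eq (R i b) (L (fz b))
  refine foc_congr (FOc.ex _ (FOc.and _ _ h1 (FOc.and _ _ h2 (FOc.and _ _ h3 h4))))
    fun N A v => ?_
  constructor
  · rintro ⟨W, hW1, hW2, hW3, i, hi⟩
    exact ⟨fun i b => W (i, b), hW1, hW2, hW3, i, funext hi⟩
  · rintro ⟨Z, hZ1, hZ2, hZ3, i, hi⟩
    exact ⟨fun q => Z q.1 q.2, hZ1, hZ2, hZ3, i, fun b => congrFun hi b⟩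

theorem foc_hh (α : Fin (σ.ar s) → (Fin l ⊕ Fin k) ⊕ Fin p) (f0 f1 : Fin l → ι)
    (fc : Fin p → ι) (m : ℕ) (fz : Fin k → ι) :
    FOc σ (fun _ A v => HH α A (v ∘ f0) (v ∘ f1) (v ∘ fc) m (v ∘ fz)) :=
  FOc.and _ _ (foc_zz α f0 f1 fc fz) (FOc.and _ _ (foc_runP α f0 f1 fc m fz)
    (FOc.not _ (foc_runP α f0 f1 fc (m + 1) fz)))

theorem foc_ww (α : Fin (σ.ar s) → (Fin l ⊕ Fin k) ⊕ Fin p) (f0 f1 : Fin l → ι)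
    (fc : Fin p → ι) (m : ℕ) (fw : Fin l → ι) :
    FOc σ (fun _ A v => WW α A (v ∘ f0) (v ∘ f1) (v ∘ fc) m (v ∘ fw)) := by
  let L : ι → ι ⊕ Fin k := Sum.inl
  let R : Fin k → ι ⊕ Fin k := Sum.inr
  refine FOc.and _ _ (foc_dj fw fc) ?_
  exact foc_congr (foc_all (foc_finite_all fun τ : Equiv.Perm (Fin k) =>
    foc_imp (foc_hh α (L ∘ f0) (L ∘ f1) (L ∘ fc) m R)
      (foc_imp (foc_hh α (L ∘ f0) (L ∘ f1) (L ∘ fc) m (R ∘ τ))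
        (foc_imp (foc_dj (L ∘ fw) R) (foc_iff (foc_rl α (L ∘ fw) R (L ∘ fc))
          (foc_rl α (L ∘ fw) (R ∘ τ) (L ∘ fc))))))) fun N A v => Iff.rfl

theorem foc_tr (α : Fin (σ.ar s) → (Fin l ⊕ Fin k) ⊕ Fin p) (f0 f1 : Fin l → ι)
    (fc : Fin p → ι) (m : ℕ) (fw : Fin l → ι) (fz : Fin k → ι) :
    FOc σ (fun _ A v => Tr α A (v ∘ f0) (v ∘ f1) (v ∘ fc) m (v ∘ fw) (v ∘ fz)) :=
  FOc.and _ _ (foc_hh α f0 f1 fc m fz) (FOc.and _ _ (foc_dj fw fz) (foc_rl α fw fz fc))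

/-- the trace is not empty -/
theorem foc_trne (α : Fin (σ.ar s) → (Fin l ⊕ Fin k) ⊕ Fin p) (f0 f1 : Fin l → ι)
    (fc : Fin p → ι) (m : ℕ) (fw : Fin l → ι) :
    FOc σ (fun _ A v => ∃ z, Tr α A (v ∘ f0) (v ∘ f1) (v ∘ fc) m (v ∘ fw) z) := by
  let L : ι → ι ⊕ Fin k := Sum.inl
  let R : Fin k → ι ⊕ Fin k := Sum.inr
  exact foc_congr (FOc.ex _ (foc_tr α (L ∘ f0) (L ∘ f1) (L ∘ fc) m (L ∘ fw) R))
    fun N A v => Iff.rfl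

/-- one trace is contained in another one -/
theorem foc_trsub (α : Fin (σ.ar s) → (Fin l ⊕ Fin k) ⊕ Fin p) (f0 f1 : Fin l → ι)
    (fc : Fin p → ι) (m : ℕ) (fw fw' : Fin l → ι) :
    FOc σ (fun _ A v => ∀ z, Tr α A (v ∘ f0) (v ∘ f1) (v ∘ fc) m (v ∘ fw') z →
      Tr α A (v ∘ f0) (v ∘ f1) (v ∘ fc) m (v ∘ fw) z) := by
  let L : ι → ι ⊕ Fin k := Sum.inl
  let R : Fin k → ι ⊕ Fin k := Sum.inr
  exact foc_congr (foc_all (foc_imp (foc_tr α (L ∘ f0) (L ∘ f1) (L ∘ fc) m (L ∘ fw') R)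
    (foc_tr α (L ∘ f0) (L ∘ f1) (L ∘ fc) m (L ∘ fw) R))) fun N A v => Iff.rfl

/-- a point of one trace which is not in the other one -/
theorem foc_trdiff (α : Fin (σ.ar s) → (Fin l ⊕ Fin k) ⊕ Fin p) (f0 f1 : Fin l → ι)
    (fc : Fin p → ι) (m : ℕ) (fw fw' : Fin l → ι) :
    FOc σ (fun _ A v => ∃ z, Tr α A (v ∘ f0) (v ∘ f1) (v ∘ fc) m (v ∘ fw) z ∧
      ¬ Tr α A (v ∘ f0) (v ∘ f1) (v ∘ fc) m (v ∘ fw') z) := by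
  let L : ι → ι ⊕ Fin k := Sum.inl
  let R : Fin k → ι ⊕ Fin k := Sum.inr
  exact foc_congr (FOc.ex _ (FOc.and _ _
    (foc_tr α (L ∘ f0) (L ∘ f1) (L ∘ fc) m (L ∘ fw) R)
    (FOc.not _ (foc_tr α (L ∘ f0) (L ∘ f1) (L ∘ fc) m (L ∘ fw') R)))) fun N A v => Iff.rfl

end

theorem foc_psi (α : Fin (σ.ar s) → (Fin l ⊕ Fin k) ⊕ Fin p) (m : ℕ) :
    FOc σ (fun N A (_ : Empty → N) => Psi α m N A) := by
  -- the variables `w0, w1, c`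
  let I : Type := (Fin l ⊕ Fin l) ⊕ Fin p
  let f0 : Fin l → I := Sum.inl ∘ Sum.inl
  let f1 : Fin l → I := Sum.inl ∘ Sum.inr
  let fc : Fin p → I := Sum.inr
  -- one more tuple `w`
  let J : Type := I ⊕ Fin l
  let LJ : I → J := Sum.inl
  let RJ : Fin l → J := Sum.inr
  -- one more tuple `w'`
  let H : Type := J ⊕ Fin l
  let LH : J → H := Sum.inl
  let RH : Fin l → H := Sum.inr
  have h1 : FOc σ (fun _ A (v : I → _) => ∃ w, WW α A (v ∘ f0) (v ∘ f1) (v ∘ fc) m w ∧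
      ∃ z, Tr α A (v ∘ f0) (v ∘ f1) (v ∘ fc) m w z) :=
    foc_congr (FOc.ex _ (FOc.and _ _ (foc_ww α (LJ ∘ f0) (LJ ∘ f1) (LJ ∘ fc) m RJ)
      (foc_trne α (LJ ∘ f0) (LJ ∘ f1) (LJ ∘ fc) m RJ))) fun N A v => Iff.rfl
  have h2 : FOc σ (fun _ A (v : J → _) => ∃ w',
      WW α A (v ∘ (LJ ∘ f0)) (v ∘ (LJ ∘ f1)) (v ∘ (LJ ∘ fc)) m w' ∧
      (∃ z, Tr α A (v ∘ (LJ ∘ f0)) (v ∘ (LJ ∘ f1)) (v ∘ (LJ ∘ fc)) m w' z) ∧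
      (∀ z, Tr α A (v ∘ (LJ ∘ f0)) (v ∘ (LJ ∘ f1)) (v ∘ (LJ ∘ fc)) m w' z →
        Tr α A (v ∘ (LJ ∘ f0)) (v ∘ (LJ ∘ f1)) (v ∘ (LJ ∘ fc)) m (v ∘ RJ) z) ∧
      ∃ z, Tr α A (v ∘ (LJ ∘ f0)) (v ∘ (LJ ∘ f1)) (v ∘ (LJ ∘ fc)) m (v ∘ RJ) z ∧
        ¬ Tr α A (v ∘ (LJ ∘ f0)) (v ∘ (LJ ∘ f1)) (v ∘ (LJ ∘ fc)) m w' z) :=
    foc_congr (FOc.ex _ (FOc.and _ _
      (foc_ww α (LH ∘ (LJ ∘ f0)) (LH ∘ (LJ ∘ f1)) (LH ∘ (LJ ∘ fc)) m RH)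
      (FOc.and _ _ (foc_trne α (LH ∘ (LJ ∘ f0)) (LH ∘ (LJ ∘ f1)) (LH ∘ (LJ ∘ fc)) m RH)
        (FOc.and _ _
          (foc_trsub α (LH ∘ (LJ ∘ f0)) (LH ∘ (LJ ∘ f1)) (LH ∘ (LJ ∘ fc)) m (LH ∘ RJ) RH)
          (foc_trdiff α (LH ∘ (LJ ∘ f0)) (LH ∘ (LJ ∘ f1)) (LH ∘ (LJ ∘ fc)) m (LH ∘ RJ) RH)))))
      fun N A v => Iff.rfl
  have h3 : FOc σ (fun _ A (v : I → _) => ∀ w, WW α A (v ∘ f0) (v ∘ f1) (v ∘ fc) m w →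
      (∃ z, Tr α A (v ∘ f0) (v ∘ f1) (v ∘ fc) m w z) →
      ∃ w', WW α A (v ∘ f0) (v ∘ f1) (v ∘ fc) m w' ∧
        (∃ z, Tr α A (v ∘ f0) (v ∘ f1) (v ∘ fc) m w' z) ∧
        (∀ z, Tr α A (v ∘ f0) (v ∘ f1) (v ∘ fc) m w' z →
          Tr α A (v ∘ f0) (v ∘ f1) (v ∘ fc) m w z) ∧
        ∃ z, Tr α A (v ∘ f0) (v ∘ f1) (v ∘ fc) m w z ∧
          ¬ Tr α A (v ∘ f0) (v ∘ f1) (v ∘ fc) m w' z) :=
    foc_congr (foc_all (foc_imp (foc_ww α (LJ ∘ f0) (LJ ∘ f1) (LJ ∘ fc) m RJ)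
      (foc_imp (foc_trne α (LJ ∘ f0) (LJ ∘ f1) (LJ ∘ fc) m RJ) h2))) fun N A v => Iff.rfl
  have h4 : FOc σ (fun _ A (v : Empty ⊕ I → _) =>
      (∃ w, WW α A (v ∘ Sum.inr ∘ f0) (v ∘ Sum.inr ∘ f1) (v ∘ Sum.inr ∘ fc) m w ∧
        ∃ z, Tr α A (v ∘ Sum.inr ∘ f0) (v ∘ Sum.inr ∘ f1) (v ∘ Sum.inr ∘ fc) m w z) ∧
      ∀ w, WW α A (v ∘ Sum.inr ∘ f0) (v ∘ Sum.inr ∘ f1) (v ∘ Sum.inr ∘ fc) m w →
        (∃ z, Tr α A (v ∘ Sum.inr ∘ f0) (v ∘ Sum.inr ∘ f1) (v ∘ Sum.inr ∘ fc) m w z) →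
        ∃ w', WW α A (v ∘ Sum.inr ∘ f0) (v ∘ Sum.inr ∘ f1) (v ∘ Sum.inr ∘ fc) m w' ∧
          (∃ z, Tr α A (v ∘ Sum.inr ∘ f0) (v ∘ Sum.inr ∘ f1) (v ∘ Sum.inr ∘ fc) m w' z) ∧
          (∀ z, Tr α A (v ∘ Sum.inr ∘ f0) (v ∘ Sum.inr ∘ f1) (v ∘ Sum.inr ∘ fc) m w' z →
            Tr α A (v ∘ Sum.inr ∘ f0) (v ∘ Sum.inr ∘ f1) (v ∘ Sum.inr ∘ fc) m w z) ∧
          ∃ z, Tr α A (v ∘ Sum.inr ∘ f0) (v ∘ Sum.inr ∘ f1) (v ∘ Sum.inr ∘ fc) m w z ∧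
            ¬ Tr α A (v ∘ Sum.inr ∘ f0) (v ∘ Sum.inr ∘ f1) (v ∘ Sum.inr ∘ fc) m w' z) :=
    foc_congr (foc_ren (FOc.and _ _ h1 h3) (Sum.inr : I → Empty ⊕ I)) fun N A v => Iff.rfl
  refine foc_congr (FOc.ex _ h4) fun N A v => ?_
  constructor
  · rintro ⟨W, hW⟩
    exact ⟨W ∘ f0, W ∘ f1, W ∘ fc, hW⟩
  · rintro ⟨w0, w1, c, h⟩
    exact ⟨Sum.elim (Sum.elim w0 w1) c, h⟩

end Pool.Agent.Helper89.EA
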