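import Pool.Agent.Helper89.EA.U.U9a

/-!
# Project EA, piece U9b: smaller traces for the real parameters, case A

Notation: parameters `X_{u0}, X_{u1}, c = cP Λ S` as in U9a.

Given `w ∈ WW`, `z0 ∈ Tr w` pure at `v0` and `z1 ∈ HH` with the same coordinates, pure at `v1`,
disjoint from `w`, with `¬ Rl w z1 c`.  (`v0, v1 ∉ Idx w` since `z0` contains all the points at the
`Y`-index `v0`: `not_idx_of_dj_k`; `u0 < v0, v1 < u1` by `real_zz`.)  By `real_between`, `w` is pure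
at some `i0` strictly between `v0` and `v1`.  By homogeneity (`oty_move2`, `star_ot`; `c` has no
indices) the truth value of `Rl (w moved to i) (z0 moved to v) c` for indices `i ≠ v` of the right
colours depends only on whether `i < v`: it is true iff (`i < v ↔ i0 < v0`).

Say `v1 < i0 < v0` (the case `v0 < i0 < v1` is symmetric); so `Rl (w at i) (z0 at v) c ↔ i < v`.
We have `i0.pt < u1.pt` (`i0 < v0 < u1`, `eq_of_pt_eq`) and `u0.pt < i0.pt`.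
Choose (`exists_between_kd`, `exists_between_color`) indices with
`i0.pt < v2.pt < i'.pt < v3.pt < u1.pt`, `i'` of the colour of `i0`, `kd v2.pt = kd v3.pt = m`.
Put `w' = w` moved to `i'`.
* `z0` moved to `v3` is in `Tr w'` (`real_mv`).
* `w' ∈ WW`: `w'` is disjoint from `c`.  Let `z, z ∘ τ ∈ HH` with `Dj w' z`, `z` pure at `v`.
  (`v ≠ i'` by `not_idx_of_dj_k` applied to `z`.)  Choose `v*` with `kd v*.pt = m`,
  `u0 < v* < u1`, and `i0 < v* ↔ i' < v`, `v* ≠ i0`; then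
  `Rl w' z c ↔ Rl w (z moved to v*) c ↔ Rl w ((z ∘ τ) moved to v*) c ↔ Rl w' (z ∘ τ) c`, by
  homogeneity and `w ∈ WW` (`real_mv` shows that the moved tuples are in `HH`).
* `Tr w' ⊆ Tr w`: let `z ∈ Tr w'` be pure at `v`.  Then `z = z0' ∘ τ` where `z0'` is `z0` moved to
  `v` (both contain exactly the `k` points at `v`), `z0' ∈ HH` (`real_mv`), so `Rl w' z0' c` by
  `w' ∈ WW`, i.e. `i' < v`, hence `i0 < v`, so `v ≠ i0`, `Rl w z0' c`, and `Rl w z c` by `w ∈ WW`.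
* `z0` moved to `v2` is in `Tr w` and not in `Tr w'`.
-/

namespace Pool.Agent.Helper89.EA

variable {σ : Sig} {M N P : Type} {M0 : RS σ M} {k l p : ℕ} {s : σ.Sy}
  {α : Fin (σ.ar s) → (Fin l ⊕ Fin k) ⊕ Fin p} {S : Set ℕ}

/-- there is `w'` in `WW` with a nonempty strictly smaller trace -/
def Smaller {N : Type} (α : Fin (σ.ar s) → (Fin l ⊕ Fin k) ⊕ Fin p) (A : RS σ N)
    (w0 w1 : Fin l → N) (c : Fin p → N) (m : ℕ) (w : Fin l → N) : Prop :=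
  ∃ w', WW α A w0 w1 c m w' ∧ (∃ z, Tr α A w0 w1 c m w' z) ∧
    (∀ z, Tr α A w0 w1 c m w' z → Tr α A w0 w1 c m w z) ∧
    ∃ z, Tr α A w0 w1 c m w z ∧ ¬ Tr α A w0 w1 c m w' z

/-! ### Auxiliary facts -/

namespace R9

/-- the index of a pure tuple is unique -/
theorem pure_unique {P I : Type} {l k : ℕ} {Y : I → Prop} {n : ℕ} {z : Fin n → Car P I l k Y}
    {q q' : I} (h : Pure z q) (h' : Pure z q') (hn : 1 ≤ n) : q = q' := by
  have h1 := h.1 ⟨0, hn⟩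
  have h2 := h'.1 ⟨0, hn⟩
  rw [h1] at h2
  exact Option.some.inj h2

/-- two pure `k`-tuples at the same `Y`-index differ by a permutation -/
theorem exists_perm_of_pure {P I : Type} {l k : ℕ} {Y : I → Prop} {z z' : Fin k → Car P I l k Y}
    {q : I} (h : Pure z q) (h' : Pure z' q) (hq : Y q) :
    ∃ τ : Equiv.Perm (Fin k), z = z' ∘ τ := by
  have h1 : ∀ i, ∃ j, z' j = z i := fun i => pure_full_k h' hq (h.1 i)
  choose f hf using h1
  have hinj : Function.Injective f := by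
    intro i j hij
    apply h.2
    rw [← hf i, ← hf j, hij]
  refine ⟨Equiv.ofBijective f (Finite.injective_iff_bijective.1 hinj), ?_⟩
  funext i
  simp [hf]

theorem pure_comp_perm {P I : Type} {l k : ℕ} {Y : I → Prop} {n : ℕ} {z : Fin n → Car P I l k Y}
    {q : I} (h : Pure z q) (τ : Equiv.Perm (Fin n)) : Pure (z ∘ τ) q :=
  ⟨fun i => h.1 (τ i), h.2.comp τ.injective⟩

/-- pure tuples are disjoint from the parameters in `P` -/
theorem dj_cP (Λ : Lad M0 k l s p α P N) {n : ℕ} {w : Fin n → Car P (Ix S) l k Ix.Y} {i : Ix S}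
    (hw : Pure w i) : Dj w (cP Λ S) := by
  intro a e h
  have h1 := hw.1 a
  rw [h] at h1
  simp [cP] at h1

/-- pure tuples at different indices are disjoint -/
theorem dj_pure_pure {n n' : ℕ} {w : Fin n → Car P (Ix S) l k Ix.Y}
    {z : Fin n' → Car P (Ix S) l k Ix.Y} {i v : Ix S} (hw : Pure w i) (hz : Pure z v)
    (hne : i ≠ v) : Dj w z := by
  intro a b h
  have h1 := hw.1 a
  have h2 := hz.1 b
  rw [h, h2] at h1
  exact hne (Option.some.inj h1).symm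

/-- homogeneity for the real parameters -/
theorem rl_move9 (Λ : Lad M0 k l s p α P N) {w w' : Fin l → Car P (Ix S) l k Ix.Y}
    {z z' : Fin k → Car P (Ix S) l k Ix.Y} {i i' v v' : Ix S} (hw : Pure w i) (hw' : Pure w' i')
    (hwcd : ∀ a, (w a).cd = (w' a).cd) (hz : Pure z v) (hz' : Pure z' v')
    (hzcd : ∀ a, (z a).cd = (z' a).cd) (hne : i ≠ v) (hne' : i' ≠ v') (hlt : i < v ↔ i' < v') :
    Rl α (star Λ Ix.Y) w z (cP Λ S) ↔ Rl α (star Λ Ix.Y) w' z' (cP Λ S) := by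
  have hc : Idx (cP Λ S) = ∅ := idx_cP Λ S
  have h1 : OTy (Sum.elim (Sum.elim w z) (cP Λ S)) (Sum.elim (Sum.elim w' z') (cP Λ S)) :=
    oty_move2 (cP Λ S) w w' z z' hw hw' hwcd hz hz' hzcd hne hne' hlt
      (by intro x hx; rw [hc] at hx; exact hx.elim) (by intro x hx; rw [hc] at hx; exact hx.elim)
  exact (star_ot Λ _ _ h1).2 s α

/-- tuples of `HH` are pure at a `Y`-index between `u0` and `u1` -/
theorem hh_pure (h0 : 0 ∉ S) (hmin : IsMinOP M0 k l) (Λ : Lad M0 k l s p α P N) {u0 u1 : Ix S}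
    (hu0 : ¬ u0.Y) (hu1 : ¬ u1.Y) (h01 : u0 < u1) {m : ℕ} (hm : l < m) (hmS : m ∈ S)
    {z : Fin k → Car P (Ix S) l k Ix.Y}
    (hz : HH α (star Λ Ix.Y) (Car.ofX u0 hu0) (Car.ofX u1 hu1) (cP Λ S) m z) :
    ∃ v, Pure z v ∧ v.Y ∧ u0 < v ∧ v < u1 ∧ kd v.pt = m := by
  obtain ⟨hzz, v, hv, hkd⟩ := (real_hh h0 hmin Λ hu0 hu1 h01 hm hmS z).1 hz
  obtain ⟨v', h1, h2, h3, -⟩ := real_zz h0 hmin Λ hu0 hu1 h01 z hzz
  have hvv : v = v' := pure_unique hv h3 (isMinOP_pos hmin).1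
  subst hvv
  refine ⟨v, hv, ?_, h1, h2, hkd⟩
  show kd v.pt ∈ S
  rw [hkd]
  exact hmS

theorem pt_lt_of_lt_right {a b : Ix S} (h : a < b) (hb : ¬ b.Y) : a.pt < b.pt := by
  rcases lt_or_eq_of_le (pt_le_of_le h.le) with h1 | h1
  · exact h1
  · exact absurd (eq_of_pt_eq h1.symm hb) (ne_of_gt h)

theorem pt_lt_of_lt_left {a b : Ix S} (h : a < b) (ha : ¬ a.Y) : a.pt < b.pt := by
  rcases lt_or_eq_of_le (pt_le_of_le h.le) with h1 | h1
  · exact h1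
  · exact absurd (eq_of_pt_eq h1 ha) (ne_of_lt h)

/-- moving a tuple of `HH` -/
theorem hh_mv (h0 : 0 ∉ S) (hmin : IsMinOP M0 k l) (Λ : Lad M0 k l s p α P N) {u0 u1 : Ix S}
    (hu0 : ¬ u0.Y) (hu1 : ¬ u1.Y) (h01 : u0 < u1) {m : ℕ} (hm : l < m) (hmS : m ∈ S)
    {z : Fin k → Car P (Ix S) l k Ix.Y}
    (hz : HH α (star Λ Ix.Y) (Car.ofX u0 hu0) (Car.ofX u1 hu1) (cP Λ S) m z) {v' : Ix S}
    (h0' : u0 < v') (h1' : v' < u1) (hk : kd v'.pt = m) :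
    Pure (fun i => (z i).mv v') v' ∧ (∀ i, (z i).cd = ((z i).mv v').cd) ∧
      HH α (star Λ Ix.Y) (Car.ofX u0 hu0) (Car.ofX u1 hu1) (cP Λ S) m
        (fun i => (z i).mv v') := by
  obtain ⟨v, hv, hvY, -, -, -⟩ := hh_pure h0 hmin Λ hu0 hu1 h01 hm hmS hz
  have hY' : v'.Y := by
    show kd v'.pt ∈ S
    rw [hk]
    exact hmS
  have hp : Pure (fun i => (z i).mv v') v' := pure_mv hv ⟨fun _ => hY', fun _ => hvY⟩
  have hcd : ∀ i, (z i).cd = ((z i).mv v').cd := fun i => (mv_cd v' (z i)).symm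
  exact ⟨hp, hcd, real_mv h0 hmin Λ hu0 hu1 h01 hm hmS z _ hz hv hp hcd h0' h1' hk⟩

/-- the core of the step, for both directions -/
theorem step_core (h0 : 0 ∉ S) (hmin : IsMinOP M0 k l) (Λ : Lad M0 k l s p α P N) {u0 u1 : Ix S}
    (hu0 : ¬ u0.Y) (hu1 : ¬ u1.Y) (h01 : u0 < u1) {m : ℕ} (hm : l < m) (hmS : m ∈ S)
    (w : Fin l → Car P (Ix S) l k Ix.Y)
    (hw : WW α (star Λ Ix.Y) (Car.ofX u0 hu0) (Car.ofX u1 hu1) (cP Λ S) m w)
    (z0 : Fin k → Car P (Ix S) l k Ix.Y)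
    (hz0 : HH α (star Λ Ix.Y) (Car.ofX u0 hu0) (Car.ofX u1 hu1) (cP Λ S) m z0)
    {i0 : Ix S} (hwi : Pure w i0) (D : Prop)
    (hT : ∀ (w' : Fin l → Car P (Ix S) l k Ix.Y) (z' : Fin k → Car P (Ix S) l k Ix.Y)
      (i v : Ix S), Pure w' i → Pure z' v → (∀ a, (w a).cd = (w' a).cd) →
      (∀ a, (z0 a).cd = (z' a).cd) → i ≠ v →
      (Rl α (star Λ Ix.Y) w' z' (cP Λ S) ↔ (i < v ↔ D)))
    {v0 v1 : Ix S} (hv0 : kd v0.pt = m) (hv1 : kd v1.pt = m) (h0a : u0 < v0) (h0b : v0 < u1)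
    (h1a : u0 < v1) (h1b : v1 < u1) (hn0 : v0 ≠ i0) (hn1 : v1 ≠ i0) (hD0 : i0 < v0 ↔ D)
    (hD1 : i0 < v1 ↔ ¬ D)
    {i' v2 v3 : Ix S} (hi' : i0.Y ↔ i'.Y) (hv2 : kd v2.pt = m) (hv3 : kd v3.pt = m)
    (h2a : u0 < v2) (h2b : v2 < u1) (h3a : u0 < v3) (h3b : v3 < u1) (hn2 : v2 ≠ i0)
    (hn2' : v2 ≠ i') (hD2 : i0 < v2 ↔ D) (hD2' : ¬ (i' < v2 ↔ D)) (hn3' : v3 ≠ i')
    (hD3' : i' < v3 ↔ D)
    (hmono : ∀ v, v ≠ i' → (i' < v ↔ D) → v ≠ i0 ∧ (i0 < v ↔ D)) :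
    Smaller α (star Λ Ix.Y) (Car.ofX u0 hu0) (Car.ofX u1 hu1) (cP Λ S) m w := by
  have hpos := isMinOP_pos hmin
  have hl : 1 ≤ l := hpos.1.trans hpos.2
  -- the moved tuple
  have hw' : Pure (fun a => (w a).mv i') i' := pure_mv hwi hi'
  have hwcd : ∀ a, (w a).cd = ((w a).mv i').cd := fun a => (mv_cd i' (w a)).symm
  -- membership in `WW`
  have hWW : WW α (star Λ Ix.Y) (Car.ofX u0 hu0) (Car.ofX u1 hu1) (cP Λ S) m
      (fun a => (w a).mv i') := by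
    refine ⟨dj_cP Λ hw', ?_⟩
    intro z τ hz hzτ hd
    obtain ⟨v, hv, hvY, hva, hvb, hvk⟩ := hh_pure h0 hmin Λ hu0 hu1 h01 hm hmS hz
    have hvi : i' ≠ v := by
      rintro rfl
      exact not_idx_of_dj_k hv hvY hd ⟨⟨0, hl⟩, hw'.1 _⟩
    obtain ⟨vs, hsk, hsa, hsb, hsn, hsD⟩ : ∃ vs : Ix S, kd vs.pt = m ∧ u0 < vs ∧ vs < u1 ∧
        i0 ≠ vs ∧ (i' < v ↔ i0 < vs) := by
      by_cases hD : D
      · by_cases hlt : i' < v
        · exact ⟨v0, hv0, h0a, h0b, hn0.symm, fun _ => hD0.2 hD, fun _ => hlt⟩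
        · exact ⟨v1, hv1, h1a, h1b, hn1.symm, fun h => absurd h hlt,
            fun h => absurd hD (hD1.1 h)⟩
      · by_cases hlt : i' < v
        · exact ⟨v1, hv1, h1a, h1b, hn1.symm, fun _ => hD1.2 hD, fun _ => hlt⟩
        · exact ⟨v0, hv0, h0a, h0b, hn0.symm, fun h => absurd h hlt,
            fun h => absurd (hD0.1 h) hD⟩
    obtain ⟨hp, hpcd, hpH⟩ := hh_mv h0 hmin Λ hu0 hu1 h01 hm hmS hz hsa hsb hsk
    obtain ⟨hq, hqcd, hqH⟩ := hh_mv h0 hmin Λ hu0 hu1 h01 hm hmS hzτ hsa hsb hsk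
    have e1 := rl_move9 Λ (α := α) hw' hwi (fun a => (hwcd a).symm) hv hp hpcd hvi hsn hsD
    have e3 := rl_move9 Λ (α := α) hw' hwi (fun a => (hwcd a).symm) (pure_comp_perm hv τ) hq hqcd
      hvi hsn hsD
    have e2 := hw.2 (fun i => (z i).mv vs) τ hpH hqH (dj_pure_pure hwi hp hsn)
    exact e1.trans (e2.trans e3.symm)
  refine ⟨fun a => (w a).mv i', hWW, ?_, ?_, ?_⟩
  · obtain ⟨hp, hpcd, hpH⟩ := hh_mv h0 hmin Λ hu0 hu1 h01 hm hmS hz0 h3a h3b hv3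
    exact ⟨_, hpH, dj_pure_pure hw' hp hn3'.symm,
      (hT _ _ _ _ hw' hp hwcd hpcd hn3'.symm).2 hD3'⟩
  · intro z hz
    obtain ⟨v, hv, hvY, hva, hvb, hvk⟩ := hh_pure h0 hmin Λ hu0 hu1 h01 hm hmS hz.1
    have hvi : i' ≠ v := by
      rintro rfl
      exact not_idx_of_dj_k hv hvY hz.2.1 ⟨⟨0, hl⟩, hw'.1 _⟩
    obtain ⟨hp, hpcd, hpH⟩ := hh_mv h0 hmin Λ hu0 hu1 h01 hm hmS hz0 hva hvb hvk
    obtain ⟨τ, hτ⟩ := exists_perm_of_pure hv hp hvY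
    have hzH : HH α (star Λ Ix.Y) (Car.ofX u0 hu0) (Car.ofX u1 hu1) (cP Λ S) m
        ((fun i => (z0 i).mv v) ∘ τ) := hτ ▸ hz.1
    have hR : Rl α (star Λ Ix.Y) (fun a => (w a).mv i') ((fun i => (z0 i).mv v) ∘ τ) (cP Λ S) :=
      hτ ▸ hz.2.2
    have e1 := (hWW.2 _ τ hpH hzH (dj_pure_pure hw' hp hvi)).2 hR
    have e2 := (hT _ _ _ _ hw' hp hwcd hpcd hvi).1 e1
    obtain ⟨e3, e4⟩ := hmono v hvi.symm e2
    have e5 := (hT w _ _ _ hwi hp (fun _ => rfl) hpcd e3.symm).2 e4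
    have e6 := (hw.2 _ τ hpH hzH (dj_pure_pure hwi hp e3.symm)).1 e5
    refine ⟨hz.1, dj_pure_pure hwi hv e3.symm, ?_⟩
    rw [hτ]
    exact e6
  · obtain ⟨hp, hpcd, hpH⟩ := hh_mv h0 hmin Λ hu0 hu1 h01 hm hmS hz0 h2a h2b hv2
    refine ⟨_, ⟨hpH, dj_pure_pure hwi hp hn2.symm,
      (hT w _ _ _ hwi hp (fun _ => rfl) hpcd hn2.symm).2 hD2⟩, ?_⟩
    intro h
    exact hD2' ((hT _ _ _ _ hw' hp hwcd hpcd hn2'.symm).1 h.2.2)

end R9

open R9

theorem real_step_A (h0 : 0 ∉ S) (hmin : IsMinOP M0 k l) (Λ : Lad M0 k l s p α P N) {u0 u1 : Ix S}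
    (hu0 : ¬ u0.Y) (hu1 : ¬ u1.Y) (h01 : u0 < u1) {m : ℕ} (hm : l < m) (hmS : m ∈ S)
    (w : Fin l → Car P (Ix S) l k Ix.Y)
    (hw : WW α (star Λ Ix.Y) (Car.ofX u0 hu0) (Car.ofX u1 hu1) (cP Λ S) m w)
    (z0 z1 : Fin k → Car P (Ix S) l k Ix.Y)
    (hz0 : Tr α (star Λ Ix.Y) (Car.ofX u0 hu0) (Car.ofX u1 hu1) (cP Λ S) m w z0)
    (hz1 : HH α (star Λ Ix.Y) (Car.ofX u0 hu0) (Car.ofX u1 hu1) (cP Λ S) m z1)
    (hcd : ∀ i, (z0 i).cd = (z1 i).cd) (hdj : Dj w z1)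
    (hne : ¬ Rl α (star Λ Ix.Y) w z1 (cP Λ S)) :
    Smaller α (star Λ Ix.Y) (Car.ofX u0 hu0) (Car.ofX u1 hu1) (cP Λ S) m w := by
  obtain ⟨hH0, hd0, hR0⟩ := hz0
  obtain ⟨v0, hv0, hv0Y, h0a, h0b, h0k⟩ := hh_pure h0 hmin Λ hu0 hu1 h01 hm hmS hH0
  obtain ⟨v1, hv1, hv1Y, h1a, h1b, h1k⟩ := hh_pure h0 hmin Λ hu0 hu1 h01 hm hmS hz1
  obtain ⟨i0, hwi, hbet⟩ := real_between hmin Λ w z0 z1 hv0 hv1 hcd
    (not_idx_of_dj_k hv0 hv0Y hd0) (not_idx_of_dj_k hv1 hv1Y hdj) (fun h => hne (h.1 hR0))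
  rcases hbet with ⟨hb1, hb2⟩ | ⟨hb1, hb2⟩
  · -- `v0 < i0 < v1`
    have hT : ∀ (w' : Fin l → Car P (Ix S) l k Ix.Y) (z' : Fin k → Car P (Ix S) l k Ix.Y)
        (i v : Ix S), Pure w' i → Pure z' v → (∀ a, (w a).cd = (w' a).cd) →
        (∀ a, (z0 a).cd = (z' a).cd) → i ≠ v →
        (Rl α (star Λ Ix.Y) w' z' (cP Λ S) ↔ (i < v ↔ False)) := by
      intro w' z' i v hw' hz' hwc hzc hiv
      by_cases hlt : i < v
      · have e := rl_move9 Λ (α := α) hwi hw' hwc hv1 hz' (fun a => (hcd a).symm.trans (hzc a))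
          hb2.ne hiv ⟨fun _ => hlt, fun _ => hb2⟩
        exact ⟨fun h => absurd (e.2 h) hne, fun h => (h.1 hlt).elim⟩
      · have e := rl_move9 Λ (α := α) hwi hw' hwc hv0 hz' hzc
          hb1.ne' hiv ⟨fun h => absurd hb1 (not_lt.2 h.le), fun h => absurd h hlt⟩
        exact ⟨fun _ => iff_false_intro hlt, fun _ => e.1 hR0⟩
    have hpt : u0.pt < i0.pt := pt_lt_of_lt_left (h0a.trans hb1) hu0
    obtain ⟨i', hi1, hi2, hiY⟩ := exists_between_color h0 i0 hpt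
    obtain ⟨v2, h21, h22, h2k⟩ := exists_between_kd h0 m hi2
    obtain ⟨v3, h31, h32, h3k⟩ := exists_between_kd h0 m hi1
    have hi0u : i0 < u1 := hb2.trans h1b
    have a1 := lt_of_pt_lt hi1
    have a2 := lt_of_pt_lt hi2
    have a3 := lt_of_pt_lt h21
    have a4 := lt_of_pt_lt h22
    have a5 := lt_of_pt_lt h31
    have a6 := lt_of_pt_lt h32
    refine step_core h0 hmin Λ hu0 hu1 h01 hm hmS w hw z0 hH0 hwi False hT h0k h1k h0a h0b h1a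
      h1b hb1.ne hb2.ne' (iff_false_intro (not_lt.2 hb1.le)) ⟨fun _ h => h, fun _ => hb2⟩
      hiY.symm h2k h3k (a1.trans a3) (a4.trans hi0u) a5 ((a6.trans a2).trans hi0u) a4.ne a3.ne'
      (iff_false_intro (not_lt.2 a4.le)) (fun h => h.1 a3) a6.ne
      (iff_false_intro (not_lt.2 a6.le)) ?_
    intro v hv1 hv2
    have hv3 : v < i' := lt_of_le_of_ne (not_lt.1 (fun h => hv2.1 h)) hv1
    have hv4 : v < i0 := hv3.trans a2
    exact ⟨hv4.ne, iff_false_intro (not_lt.2 hv4.le)⟩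
  · -- `v1 < i0 < v0`
    have hT : ∀ (w' : Fin l → Car P (Ix S) l k Ix.Y) (z' : Fin k → Car P (Ix S) l k Ix.Y)
        (i v : Ix S), Pure w' i → Pure z' v → (∀ a, (w a).cd = (w' a).cd) →
        (∀ a, (z0 a).cd = (z' a).cd) → i ≠ v →
        (Rl α (star Λ Ix.Y) w' z' (cP Λ S) ↔ (i < v ↔ True)) := by
      intro w' z' i v hw' hz' hwc hzc hiv
      by_cases hlt : i < v
      · have e := rl_move9 Λ (α := α) hwi hw' hwc hv0 hz' hzc
          hb2.ne hiv ⟨fun _ => hlt, fun _ => hb2⟩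
        exact ⟨fun _ => iff_true_intro hlt, fun _ => e.1 hR0⟩
      · have e := rl_move9 Λ (α := α) hwi hw' hwc hv1 hz' (fun a => (hcd a).symm.trans (hzc a))
          hb1.ne' hiv ⟨fun h => absurd hb1 (not_lt.2 h.le), fun h => absurd h hlt⟩
        exact ⟨fun h => absurd (e.2 h) hne, fun h => absurd (h.2 trivial) hlt⟩
    have hpt : i0.pt < u1.pt := pt_lt_of_lt_right (hb2.trans h0b) hu1
    obtain ⟨i', hi1, hi2, hiY⟩ := exists_between_color h0 i0 hpt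
    obtain ⟨v2, h21, h22, h2k⟩ := exists_between_kd h0 m hi1
    obtain ⟨v3, h31, h32, h3k⟩ := exists_between_kd h0 m hi2
    have hi0u : u0 < i0 := h1a.trans hb1
    have a1 := lt_of_pt_lt hi1
    have a2 := lt_of_pt_lt hi2
    have a3 := lt_of_pt_lt h21
    have a4 := lt_of_pt_lt h22
    have a5 := lt_of_pt_lt h31
    have a6 := lt_of_pt_lt h32
    refine step_core h0 hmin Λ hu0 hu1 h01 hm hmS w hw z0 hH0 hwi True hT h0k h1k h0a h0b h1a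
      h1b hb2.ne' hb1.ne (iff_true_intro hb2)
      ⟨fun h => absurd h (not_lt.2 hb1.le), fun h => absurd trivial h⟩
      hiY.symm h2k h3k (hi0u.trans a3) (a4.trans a2) ((hi0u.trans a1).trans a5) a6 a3.ne' a4.ne
      (iff_true_intro a3) (fun h => absurd (h.2 trivial) (not_lt.2 a4.le)) a5.ne'
      (iff_true_intro a5) ?_
    intro v hv1 hv2
    have hv4 : i0 < v := a1.trans (hv2.2 trivial)
    exact ⟨hv4.ne', iff_true_intro hv4⟩

end Pool.Agent.Helper89.EA
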