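import Pool.Agent.Helper89.EA.U.U9a
import Pool.Agent.Helper89.EA.U.U9b

/-!
# Project EA, piece U9c: smaller traces for the real parameters, case B

Notation: parameters `X_{u0}, X_{u1}, c = cP Λ S` as in U9a.

Given `w ∈ WW`, `z0 ∈ Tr w` such that for all `z1 ∈ HH` with the same coordinates as `z0` and
`Dj w z1` we have `Rl w z1 c`.  Choose `u` without `Y`, `u0 < u < u1`, such that all indices `x` of
`w` with `x < u1` are `< u`, and such that there is a `Y`-index `v2` with `kd v2.pt = m`,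
`u0 < v2 < u`, larger than all indices of `w` which are `< u1` (`exists_between_kd`,
`exists_between_color` with the maximum of the finitely many rational numbers `u0.pt`, `x.pt`,
`x ∈ Idx w`, `x < u1`; note `x < u1` implies `x.pt < u1.pt` by `eq_of_pt_eq`).  Put `w' = X_u`.
`w' ∈ WW` by `real_zz` (its truth values on `ZZ` only depend on whether `u < v`, and permuting `z`
does not change `v`; `v ≠ u` as `v` is a `Y`-index, `real_hh`).  Its trace is nonempty (`z0` moved to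
some `v` with `u < v < u1`, `real_mv`).  `Tr w' ⊆ Tr w`: `z ∈ Tr w'` is pure at `v > u`, so
`v ∉ Idx w` (`v < u1`), `z = z0' ∘ τ` where `z0'` is `z0` moved to `v` (both consist of the `k`
points at the `Y`-index `v`), `Rl w z0' c` by hypothesis, and `Rl w z c` by `w ∈ WW`.
`z0` moved to `v2` is in `Tr w` and not in `Tr w'`.
-/

namespace Pool.Agent.Helper89.EA

variable {σ : Sig} {M N P : Type} {M0 : RS σ M} {k l p : ℕ} {s : σ.Sy}
  {α : Fin (σ.ar s) → (Fin l ⊕ Fin k) ⊕ Fin p} {S : Set ℕ}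

open R9

theorem real_step_B (h0 : 0 ∉ S) (hmin : IsMinOP M0 k l) (Λ : Lad M0 k l s p α P N) {u0 u1 : Ix S}
    (hu0 : ¬ u0.Y) (hu1 : ¬ u1.Y) (h01 : u0 < u1) {m : ℕ} (hm : l < m) (hmS : m ∈ S)
    (w : Fin l → Car P (Ix S) l k Ix.Y)
    (hw : WW α (star Λ Ix.Y) (Car.ofX u0 hu0) (Car.ofX u1 hu1) (cP Λ S) m w)
    (z0 : Fin k → Car P (Ix S) l k Ix.Y)
    (hz0 : Tr α (star Λ Ix.Y) (Car.ofX u0 hu0) (Car.ofX u1 hu1) (cP Λ S) m w z0)
    (hall : ∀ z1 : Fin k → Car P (Ix S) l k Ix.Y,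
      HH α (star Λ Ix.Y) (Car.ofX u0 hu0) (Car.ofX u1 hu1) (cP Λ S) m z1 →
      (∀ i, (z0 i).cd = (z1 i).cd) → Dj w z1 → Rl α (star Λ Ix.Y) w z1 (cP Λ S)) :
    Smaller α (star Λ Ix.Y) (Car.ofX u0 hu0) (Car.ofX u1 hu1) (cP Λ S) m w := by
  obtain ⟨hH0, hd0, hR0⟩ := hz0
  have hpos := isMinOP_pos hmin
  -- the largest relevant index `a`
  have hF : ({x | x ∈ insert u0 (Idx w) ∧ x < u1} : Set (Ix S)).Finite :=
    ((idx_finite w).insert u0).subset (fun x hx => hx.1)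
  obtain ⟨a, ⟨ha1, ha2⟩, ha3⟩ := Set.exists_max_image _ id hF ⟨u0, Set.mem_insert _ _, h01⟩
  have hapt : a.pt < u1.pt := pt_lt_of_lt_right ha2 hu1
  have hua : u0 ≤ a := ha3 u0 ⟨Set.mem_insert _ _, h01⟩
  have hwa : ∀ v, a < v → v < u1 → v ∉ Idx w := fun v h1 h2 h3 =>
    absurd (ha3 v ⟨Set.mem_insert_of_mem _ h3, h2⟩) (not_le.2 h1)
  obtain ⟨v2, h21, h22, h2k⟩ := exists_between_kd h0 m hapt
  obtain ⟨u, hu1', hu2', huk⟩ := exists_between_kd h0 0 h22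
  obtain ⟨v3, h31, h32, h3k⟩ := exists_between_kd h0 m hu2'
  have huY : ¬ u.Y := by
    intro h
    have h' : kd u.pt ∈ S := h
    rw [huk] at h'
    exact h0 h'
  have b1 := lt_of_pt_lt h21
  have b2 := lt_of_pt_lt h22
  have b3 := lt_of_pt_lt hu1'
  have b4 := lt_of_pt_lt hu2'
  have b5 := lt_of_pt_lt h31
  have b6 := lt_of_pt_lt h32
  have hXu : Pure (Car.ofX u huY : Fin l → Car P (Ix S) l k Ix.Y) u := pure_ofX u huY
  -- the truth values of the new tuple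
  have hval : ∀ z : Fin k → Car P (Ix S) l k Ix.Y, ∀ v, v.Y → Pure z v →
      HH α (star Λ Ix.Y) (Car.ofX u0 hu0) (Car.ofX u1 hu1) (cP Λ S) m z →
      (Rl α (star Λ Ix.Y) (Car.ofX u huY) z (cP Λ S) ↔ u < v) := by
    intro z v hvY hv hz
    have hzz := ((real_hh h0 hmin Λ hu0 hu1 h01 hm hmS z).1 hz).1
    obtain ⟨v', -, -, hv', hR, -⟩ := real_zz h0 hmin Λ hu0 hu1 h01 z hzz
    have hvv : v = v' := pure_unique hv hv' hpos.1
    subst hvv
    exact hR u huY (fun h => huY (h ▸ hvY))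
  have hWW : WW α (star Λ Ix.Y) (Car.ofX u0 hu0) (Car.ofX u1 hu1) (cP Λ S) m
      (Car.ofX u huY) := by
    refine ⟨dj_cP Λ hXu, ?_⟩
    intro z τ hz hzτ hd
    obtain ⟨v, hv, hvY, -, -, -⟩ := hh_pure h0 hmin Λ hu0 hu1 h01 hm hmS hz
    exact (hval z v hvY hv hz).trans (hval (z ∘ τ) v hvY (pure_comp_perm hv τ) hzτ).symm
  have hY : ∀ v : Ix S, kd v.pt = m → v.Y := by
    intro v hv
    show kd v.pt ∈ S
    rw [hv]
    exact hmS
  refine ⟨Car.ofX u huY, hWW, ?_, ?_, ?_⟩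
  · obtain ⟨hp, hpcd, hpH⟩ := hh_mv h0 hmin Λ hu0 hu1 h01 hm hmS hH0
      (hua.trans_lt (b1.trans (b3.trans b5))) b6 h3k
    exact ⟨_, hpH, dj_pure_pure hXu hp b5.ne, (hval _ v3 (hY v3 h3k) hp hpH).2 b5⟩
  · intro z hz
    obtain ⟨v, hv, hvY, hva, hvb, hvk⟩ := hh_pure h0 hmin Λ hu0 hu1 h01 hm hmS hz.1
    have huv : u < v := (hval z v hvY hv hz.1).1 hz.2.2
    have hvw : v ∉ Idx w := hwa v (b1.trans (b3.trans huv)) hvb
    obtain ⟨hp, hpcd, hpH⟩ := hh_mv h0 hmin Λ hu0 hu1 h01 hm hmS hH0 hva hvb hvk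
    obtain ⟨τ, hτ⟩ := exists_perm_of_pure hv hp hvY
    have hzH : HH α (star Λ Ix.Y) (Car.ofX u0 hu0) (Car.ofX u1 hu1) (cP Λ S) m
        ((fun i => (z0 i).mv v) ∘ τ) := hτ ▸ hz.1
    have hd : Dj w (fun i => (z0 i).mv v) := dj_of_pure hp hvw
    have e1 := hall _ hpH hpcd hd
    have e2 := (hw.2 _ τ hpH hzH hd).1 e1
    refine ⟨hz.1, dj_of_pure hv hvw, ?_⟩
    rw [hτ]
    exact e2
  · obtain ⟨hp, hpcd, hpH⟩ := hh_mv h0 hmin Λ hu0 hu1 h01 hm hmS hH0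
      (hua.trans_lt b1) b2 h2k
    have hd : Dj w (fun i => (z0 i).mv v2) := dj_of_pure hp (hwa v2 b1 b2)
    refine ⟨_, ⟨hpH, hd, hall _ hpH hpcd hd⟩, ?_⟩
    intro h
    exact absurd ((hval _ v2 (hY v2 h2k) hp hpH).1 h.2.2) (not_lt.2 b3.le)

end Pool.Agent.Helper89.EA
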