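import Pool.Agent.Helper89.EA.U.U9b
import Pool.Agent.Helper89.EA.U.U9c

/-!
# Project EA, piece U9d: the coding sentence holds in the real structure
-/

namespace Pool.Agent.Helper89.EA

variable {σ : Sig} {M N P : Type} {M0 : RS σ M} {k l p : ℕ} {s : σ.Sy}
  {α : Fin (σ.ar s) → (Fin l ⊕ Fin k) ⊕ Fin p} {S : Set ℕ}

/-- a tuple consisting of points at one index is disjoint from the parameters -/
private theorem dj_ofX_cP (Λ : Lad M0 k l s p α P N) {u : Ix S} (hu : ¬ u.Y) :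
    Dj (Car.ofX u hu : Fin l → Car P (Ix S) l k Ix.Y) (cP Λ S) := by
  intro i j hij
  have h1 := congrArg Car.ix hij
  unfold cP at h1
  rw [ofX_ix, ofP_ix] at h1
  exact absurd h1 (by simp)

/-- the index of a pure tuple is determined -/
private theorem pure_unique {n : ℕ} {z : Fin n → Car P (Ix S) l k Ix.Y} {v v' : Ix S}
    (hn : 1 ≤ n) (h : Pure z v) (h' : Pure z v') : v = v' := by
  have h1 := h.1 ⟨0, hn⟩
  have h2 := h'.1 ⟨0, hn⟩
  rw [h1] at h2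
  exact Option.some.inj h2

/-- `X_u` is in `WW` for `u` between the parameters -/
private theorem ww_ofX (h0 : 0 ∉ S) (hmin : IsMinOP M0 k l) (Λ : Lad M0 k l s p α P N)
    {u0 u1 u : Ix S} (hu0 : ¬ u0.Y) (hu1 : ¬ u1.Y) (h01 : u0 < u1) (hu : ¬ u.Y) {m : ℕ}
    (hm : l < m) (hmS : m ∈ S) :
    WW α (star Λ Ix.Y) (Car.ofX u0 hu0) (Car.ofX u1 hu1) (cP Λ S) m (Car.ofX u hu) := by
  have hk := (isMinOP_pos hmin).1
  refine ⟨dj_ofX_cP Λ hu, ?_⟩
  intro z τ hz hzτ hd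
  obtain ⟨v, -, -, hv, hvr, -⟩ := real_zz h0 hmin Λ hu0 hu1 h01 z hz.1
  obtain ⟨v', -, -, hv', hvr', -⟩ := real_zz h0 hmin Λ hu0 hu1 h01 (z ∘ τ) hzτ.1
  have hvτ : Pure (z ∘ τ) v := ⟨fun i => hv.1 (τ i), hv.2.comp τ.injective⟩
  have hvv : v' = v := pure_unique hk hv' hvτ
  subst hvv
  obtain ⟨-, v2, hv2, hkd⟩ := (real_hh h0 hmin Λ hu0 hu1 h01 hm hmS z).1 hz
  have hvv2 : v2 = v' := pure_unique hk hv2 hv
  subst hvv2
  have hY : v2.Y := by
    show kd v2.pt ∈ S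
    rw [hkd]
    exact hmS
  have hne : u ≠ v2 := by
    rintro rfl
    exact hu hY
  rw [hvr u hu hne, hvr' u hu hne]

/-- the coding sentence holds (parameters `X_{u0}, X_{u1}` for any `u0 < u1` without `Y`, which
exist by `exists_between_kd` with `m = 0`) -/
theorem psi_real (h0 : 0 ∉ S) (hmin : IsMinOP M0 k l) (Λ : Lad M0 k l s p α P N) {m : ℕ}
    (hm : l < m) (hmS : m ∈ S) : Psi α m _ (star Λ (Ix.Y (S := S))) := by
  have hk := (isMinOP_pos hmin).1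
  -- the indices
  have hnY : ∀ {d : Ix S}, kd d.pt = 0 → ¬ d.Y := by
    intro d hd hY
    have : kd d.pt ∈ S := hY
    rw [hd] at this
    exact h0 this
  obtain ⟨a, ha⟩ := exists_pt h0 (0 : ℚ)
  obtain ⟨b, hb⟩ := exists_pt h0 (1 : ℚ)
  have hab : a.pt < b.pt := by rw [ha, hb]; norm_num
  obtain ⟨u0, -, hu0b, hk0⟩ := exists_between_kd h0 0 hab
  obtain ⟨u1, hu01, -, hk1⟩ := exists_between_kd h0 0 hu0b
  have hu0 : ¬ u0.Y := hnY hk0
  have hu1 : ¬ u1.Y := hnY hk1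
  have h01 : u0 < u1 := lt_of_pt_lt hu01
  obtain ⟨u, huu0, huu1, hku⟩ := exists_between_kd h0 0 hu01
  have hu : ¬ u.Y := hnY hku
  obtain ⟨v, hvu, hvu1, hkv⟩ := exists_between_kd h0 m huu1
  have hvY : v.Y := by
    show kd v.pt ∈ S
    rw [hkv]
    exact hmS
  have h0v : u0 < v := lt_of_pt_lt (huu0.trans hvu)
  have huv : u < v := lt_of_pt_lt hvu
  have hv1 : v < u1 := lt_of_pt_lt hvu1
  refine ⟨Car.ofX u0 hu0, Car.ofX u1 hu1, cP Λ S, ⟨Car.ofX u hu, ?_, Car.ofY v hvY, ?_⟩, ?_⟩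
  · exact ww_ofX h0 hmin Λ hu0 hu1 h01 hu hm hmS
  · have hHH := real_y h0 hmin Λ hu0 hu1 h01 hm hmS hvY h0v hv1 hkv
    refine ⟨hHH, ?_, ?_⟩
    · intro i j hij
      have h1 := congrArg Car.ix hij
      rw [ofX_ix, ofY_ix] at h1
      exact huv.ne (Option.some.inj h1)
    · obtain ⟨v', -, -, hv', hvr, -⟩ := real_zz h0 hmin Λ hu0 hu1 h01 _ hHH.1
      have hvv : v' = v := pure_unique hk hv' (pure_ofY v hvY)
      subst hvv
      rw [hvr u hu huv.ne]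
      exact huv
  · rintro w hw ⟨z0, hz0⟩
    by_cases hex : ∃ z1 : Fin k → Car P (Ix S) l k Ix.Y,
        HH α (star Λ Ix.Y) (Car.ofX u0 hu0) (Car.ofX u1 hu1) (cP Λ S) m z1 ∧
        (∀ i, (z0 i).cd = (z1 i).cd) ∧ Dj w z1 ∧ ¬ Rl α (star Λ Ix.Y) w z1 (cP Λ S)
    · obtain ⟨z1, hz1, hcd, hdj, hne⟩ := hex
      exact real_step_A h0 hmin Λ hu0 hu1 h01 hm hmS w hw z0 z1 hz0 hz1 hcd hdj hne
    · refine real_step_B h0 hmin Λ hu0 hu1 h01 hm hmS w hw z0 hz0 ?_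
      intro z1 hz1 hcd hdj
      by_contra hne
      exact hex ⟨z1, hz1, hcd, hdj, hne⟩

end Pool.Agent.Helper89.EA
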