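import Pool.Agent.Helper89.EA.U.U2
import Pool.Agent.Helper89.EA.U.U7c
import Pool.Agent.Helper89.EA.U.U8
import Pool.Agent.Helper89.EA.U.U9d

/-!
# Project EA, piece U10: assembly of the unstable case

Take `k, l` with `IsMinOP` (`exists_isMinOP`), and `s, p, α` with `OPat M0 k l s p α`.
`Ψ i := Psi α (l + 1 + i)`.  For `S`, and a finite tuple `a` of `M`: `exists_lad` for `a`, the
structure `star Λ (Ix.Y (S := S'))` with `S' = {l + 1 + i | i ∈ S}`.
-/

namespace Pool.Agent.Helper89.EA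

variable {σ : Sig} {M : Type}

theorem unstable_manyS {M0 : RS σ M} (h : ∃ k l, OP M0 k l) : ManyS M0 := by
  obtain ⟨k, l, hmin⟩ := exists_isMinOP h
  obtain ⟨s, p, α, hα⟩ := hmin.1
  refine ⟨fun i N A _ => Psi α (l + 1 + i) N A, fun i => foc_psi α _, ?_⟩
  intro n S t a
  obtain ⟨N, P, hP, Λ, b, hb⟩ := exists_lad hmin hα t a
  set S' : Set ℕ := (fun i => l + 1 + i) '' S with hS'
  have h0 : 0 ∉ S' := by
    rintro ⟨i, _, hi⟩
    simp at hi
  refine ⟨_, star Λ (Ix.Y (S := S')), star_inC Λ _, ⟨fun i => Car.ofP (b i), ?_⟩, ?_⟩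
  · exact st_trans (star_base Λ _ b) hb
  · intro i _
    constructor
    · intro hi
      have := psi_conv h0 hmin Λ (m := l + 1 + i) (by omega) hi
      obtain ⟨j, hj, hji⟩ := this
      have hji' : l + 1 + j = l + 1 + i := hji
      have : j = i := by omega
      exact this ▸ hj
    · intro hi
      exact psi_real h0 hmin Λ (by omega) ⟨i, hi, rfl⟩

end Pool.Agent.Helper89.EA
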