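import Pool.Agent.Helper89.EA.U.U1
import Pool.Agent.Helper89.EA.U.Ram
import Pool.Agent.Helper89.EA.P.B3a

/-!
# Project EA, piece U2: existence of homogeneous ladders

Proof of `exists_lad`.

(1) Let `u` be the hyperfilter on `ℕ` and `N = UP u (fun _ => M)`, `A = UP.rs u (fun _ => M0)`.  `OPat` gives
(for `n`, extended arbitrarily) points `x n i`, `y n i`, `c n`; the classes
`x i = UP.mk (fun n => x n i)`, … satisfy the ladder condition for all `i ≠ j : ℕ`
(`up_rs_mk`; for `n > i, j` the condition holds).  Let `P` be the range of the finite tuple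
consisting of `c` and of the diagonal images of the `a i` (so `P → N` is injective).

(2) Homogeneity.  By `st_small'` it is enough to have `hom` for `n = σ.r`.  Colour an increasing
`g : Fin σ.r → ℕ` by the diagram (set of all atoms over the finite set
`P ⊕ Fin σ.r × Co l k`) of the points of `P` and the `x (g i), y (g i)`.
`ramsey_seq` gives `f`; replace `x, y` by `x ∘ f`, `y ∘ f`.  A tuple `v : Fin σ.r → P ⊕ ℕ × Co`
uses at most `σ.r` indices; extend this set of indices to a set of exactly `σ.r` indices by adding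
large ones; apply this to `v` and to `pl g ∘ v`.

(3) Distinctness.  By homogeneity, an equality `el (i, u) = el (j, u')` with `i < j` implies the
same for all `i < j`; so `el (·, u')` is constant on the indices `≥ 1`, hence (homogeneity) it is
constant.  If a coordinate of the `x i` is constant then it can be made a parameter:
`OP M0 k (l - 1)` (use `op_of_ladders` with `X = {a' // a' ≠ a}` and `C = Fin p ⊕ Unit`), against
the minimality of `l`; a constant coordinate of the `y j` contradicts the minimality of `k`.  The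
same for a coordinate with `el (i, u) = el e`, `e : P`.  Finally `el (i, inl a) = el (i, inl a')`
with `a ≠ a'` (for one `i`, hence for all `i`) contradicts the minimality of `l` (use only the
coordinates different from `a'`), similarly for `y`.
-/

namespace Pool.Agent.Helper89.EA

open Filter

variable {σ : Sig} {M N : Type}

/-- finitely many indices are contained in the range of a strictly monotone tuple -/
theorem exists_cover_idx (r : ℕ) (w : Fin r → ℕ) :
    ∃ h : Fin r → ℕ, StrictMono h ∧ ∀ i, ∃ j, h j = w i := by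
  classical
  have h1 : (Finset.univ.image w).card ≤ r :=
    Finset.card_image_le.trans (by simp)
  obtain ⟨t, ht, htc⟩ := Infinite.exists_superset_card_eq (Finset.univ.image w) r h1
  refine ⟨t.orderEmbOfFin htc, (t.orderEmbOfFin htc).strictMono, fun i => ?_⟩
  have h2 : w i ∈ t := ht (Finset.mem_image_of_mem _ (Finset.mem_univ i))
  have h3 : w i ∈ Set.range (t.orderEmbOfFin htc) := by
    rw [Finset.range_orderEmbOfFin]
    exact h2
  exact h3

/-- strictly monotone maps with prescribed values at two points -/
theorem exists_shift (i j i' j' : ℕ) (hij : i < j) (hij' : i' < j') :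
    ∃ g g' : ℕ → ℕ, StrictMono g ∧ StrictMono g' ∧ g i = g' i' ∧ g j = g' j' := by
  refine ⟨fun t => if t ≤ i then t + i' else t + i' + (j' - i'),
    fun t => if t ≤ i' then t + i else t + i + (j - i), ?_, ?_, ?_, ?_⟩
  · intro a b hab
    simp only
    split_ifs <;> omega
  · intro a b hab
    simp only
    split_ifs <;> omega
  · simp only [le_refl, if_true]
    omega
  · simp only
    rw [if_neg (by omega), if_neg (by omega)]
    omega

section hom

variable {M0 : RS σ M} {A : RS σ N} {P : Type} {l k : ℕ}

theorem pl_comp {I J K : Type} (g : J → K) (f : I → J) :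
    (pl g ∘ pl f : P ⊕ I × Co l k → P ⊕ K × Co l k) = pl (g ∘ f) := by
  funext t
  rcases t with e | ⟨q, u⟩ <;> rfl

/-- homogeneity by Ramsey's theorem -/
theorem exists_hom (hA : InC M0 A) [Finite P] (el0 : P ⊕ ℕ × Co l k → N) :
    ∃ f : ℕ → ℕ, StrictMono f ∧ ∀ (ι : Type) (v : ι → P ⊕ ℕ × Co l k) (g : ℕ → ℕ), StrictMono g →
      ST A A ((el0 ∘ pl f) ∘ v) ((el0 ∘ pl f) ∘ pl g ∘ v) := by
  classical
  let Q : Type := P ⊕ Fin σ.r × Co l k
  let T : Type := (Q → Q → Prop) × (∀ s : σ.Sy, (Fin (σ.ar s) → Q) → Prop)
  have hfin : Finite T := by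
    have : ∀ s : σ.Sy, Finite ((Fin (σ.ar s) → Q) → Prop) := fun s => inferInstance
    infer_instance
  let χ : (Fin σ.r → ℕ) → T := fun g =>
    (fun a b => el0 (pl g a) = el0 (pl g b), fun s z => A s (el0 ∘ pl g ∘ z))
  obtain ⟨f, hf, hχ⟩ := ramsey_seq σ.r χ
  refine ⟨f, hf, fun ι v g hg => ?_⟩
  refine st_small' hA hA fun x => ?_
  -- the indices
  let w : Fin σ.r → ℕ := fun i => match v (x i) with
    | .inl _ => 0
    | .inr (q, _) => q
  obtain ⟨h, hh, hw⟩ := exists_cover_idx σ.r w
  choose j hj using hw
  let v' : Fin σ.r → Q := fun i => match v (x i) with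
    | .inl e => .inl e
    | .inr (_, u) => .inr (j i, u)
  have hv : v ∘ x = pl h ∘ v' := by
    funext i
    have h1 := hj i
    simp only [Function.comp_apply, w, v'] at h1 ⊢
    rcases hvx : v (x i) with e | ⟨q, u⟩
    · rfl
    · rw [hvx] at h1
      simp only at h1
      simp only [pl, Sum.map_inr, Prod.map, id, h1]
  have e1 : ((el0 ∘ pl f) ∘ v) ∘ x = el0 ∘ pl (f ∘ h) ∘ v' := by
    rw [← pl_comp]
    change el0 ∘ pl f ∘ (v ∘ x) = _
    rw [hv]
    rfl
  have e2 : ((el0 ∘ pl f) ∘ pl g ∘ v) ∘ x = el0 ∘ pl (f ∘ (g ∘ h)) ∘ v' := by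
    rw [← pl_comp, ← pl_comp]
    change el0 ∘ pl f ∘ pl g ∘ (v ∘ x) = _
    rw [hv]
    rfl
  rw [e1, e2]
  have h2 := hχ h (g ∘ h) hh (hg.comp hh)
  refine st_comp (v := el0 ∘ pl (f ∘ h)) (w := el0 ∘ pl (f ∘ (g ∘ h))) ?_ v'
  refine ⟨fun a b => ?_, fun s z => ?_⟩
  · have h3 := congrFun (congrFun (congrArg Prod.fst h2) a) b
    exact Iff.of_eq h3
  · have h3 := congrFun (congrFun (congrArg Prod.snd h2) s) z
    exact Iff.of_eq h3

/-- reduction of a ladder -/
theorem reduce {s : σ.Sy} {p : ℕ} {α : Fin (σ.ar s) → (Fin l ⊕ Fin k) ⊕ Fin p} (hA : InC M0 A)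
    (x : ℕ → Fin l → N) (y : ℕ → Fin k → N) (c : Fin p → N)
    (hrel : ∀ i j : ℕ, i ≠ j → (A s (Sum.elim (Sum.elim (x i) (y j)) c ∘ α) ↔ i < j))
    {X Y C : Type} [Finite X] [Finite Y] [Finite C]
    (x' : ℕ → X → N) (y' : ℕ → Y → N) (c' : C → N) (τ : (Fin l ⊕ Fin k) ⊕ Fin p → (X ⊕ Y) ⊕ C)
    (hτ : ∀ i j t, Sum.elim (Sum.elim (x' i) (y' j)) c' (τ t) =
      Sum.elim (Sum.elim (x i) (y j)) c t) :
    OP M0 (Nat.card Y) (Nat.card X) := by
  refine (op_of_ladders (M0 := M0) (At.rel s) (τ ∘ α) fun n => ?_).1
  refine ⟨N, A, fun i => x' i, fun j => y' j, c', hA, fun i j hij => ?_⟩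
  have h1 := hrel i j (fun h => hij (Fin.ext h))
  have h2 : (Sum.elim (Sum.elim (x' i) (y' j)) c' ∘ (τ ∘ α)) =
      Sum.elim (Sum.elim (x i) (y j)) c ∘ α := by
    funext t
    exact hτ i j (α t)
  change A s (Sum.elim (Sum.elim (x' i) (y' j)) c' ∘ (τ ∘ α)) ↔ i < j
  rw [h2, h1]
  exact Iff.rfl

end hom

theorem card_ne {l : ℕ} (a : Fin l) : Nat.card {a' : Fin l // a' ≠ a} = l - 1 := by
  classical
  rw [Nat.card_eq_fintype_card, Fintype.card_subtype_compl, Fintype.card_fin]
  simp

theorem exists_lad {M0 : RS σ M} {k l : ℕ} (hmin : IsMinOP M0 k l) {s : σ.Sy} {p : ℕ}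
    {α : Fin (σ.ar s) → (Fin l ⊕ Fin k) ⊕ Fin p} (h : OPat M0 k l s p α) (n : ℕ)
    (a : Fin n → M) :
    ∃ (N P : Type) (_ : Finite P) (Λ : Lad M0 k l s p α P N) (b : Fin n → P),
      ST Λ.A M0 (fun i => Λ.el (.inl (b i))) a := by
  classical
  -- step 1: an infinite ladder in an ultrapower
  choose x y c hxy using h
  let u : Ultrafilter ℕ := Filter.hyperfilter ℕ
  let A : RS σ (UP u (fun _ => M)) := UP.rs u (fun _ => M0)
  have hA : InC M0 A := up_inC fun _ => inC_self M0
  let xt : ℕ → Fin l → ℕ → M := fun i a m => if h : i < m then x m ⟨i, h⟩ a else x 1 0 a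
  let yt : ℕ → Fin k → ℕ → M := fun i a m => if h : i < m then y m ⟨i, h⟩ a else y 1 0 a
  let X : ℕ → Fin l → UP u (fun _ => M) := fun i a => UP.mk u (xt i a)
  let Y : ℕ → Fin k → UP u (fun _ => M) := fun i b => UP.mk u (yt i b)
  let C : Fin p → UP u (fun _ => M) := fun e => UP.mk u (fun m => c m e)
  let B : Fin n → UP u (fun _ => M) := fun i => UP.mk u (fun _ => a i)
  have hB : ST A M0 B a := by
    have := (up_st_iff (u := u) (A := fun _ => M0) (fun (i : Fin n) (_ : ℕ) => a i) M0 a).2
      (Filter.Eventually.of_forall fun _ => st_refl M0 a)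
    exact this
  have hrel0 : ∀ i j : ℕ, i ≠ j →
      (A s (Sum.elim (Sum.elim (X i) (Y j)) C ∘ α) ↔ i < j) := by
    intro i j hij
    have e1 : Sum.elim (Sum.elim (X i) (Y j)) C ∘ α =
        fun t => UP.mk u (Sum.elim (Sum.elim (xt i) (yt j)) (fun e m => c m e) (α t)) := by
      funext t
      simp only [Function.comp_apply]
      rcases α t with (a' | b') | e <;> rfl
    rw [e1]
    change UP.rs u (fun _ => M0) s _ ↔ _
    rw [up_rs_mk, uf_iff_const]
    have h1 : ∀ᶠ m in (u : Filter ℕ), i < m ∧ j < m := by
      apply Filter.Eventually.filter_mono Nat.hyperfilter_le_atTop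
      exact (Filter.eventually_gt_atTop i).and (Filter.eventually_gt_atTop j)
    filter_upwards [h1] with m hm
    have h2 := hxy m ⟨i, hm.1⟩ ⟨j, hm.2⟩ (fun h => hij (congrArg Fin.val h))
    have e2 : (fun t => Sum.elim (Sum.elim (xt i) (yt j)) (fun e m => c m e) (α t) m) =
        Sum.elim (Sum.elim (x m ⟨i, hm.1⟩) (y m ⟨j, hm.2⟩)) (c m) ∘ α := by
      funext t
      simp only [Function.comp_apply]
      rcases α t with (a' | b') | e
      · simp only [Sum.elim_inl, xt, dif_pos hm.1]
      · simp only [Sum.elim_inl, Sum.elim_inr, yt, dif_pos hm.2]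
      · rfl
    rw [e2, h2]
    exact Iff.rfl
  -- the points
  let P : Type := Set.range (Sum.elim C B)
  have hP : Finite P := Set.finite_range _
  let el0 : P ⊕ ℕ × Co l k → UP u (fun _ => M) :=
    Sum.elim Subtype.val fun t => Sum.elim (X t.1) (Y t.1) t.2
  obtain ⟨f, hf, hom⟩ := exists_hom (M0 := M0) (A := A) hA el0
  let el : P ⊕ ℕ × Co l k → UP u (fun _ => M) := el0 ∘ pl f
  let cc : Fin p → P := fun e => ⟨C e, ⟨.inl e, rfl⟩⟩
  let bb : Fin n → P := fun i => ⟨B i, ⟨.inr i, rfl⟩⟩
  have hrel : ∀ i j : ℕ, i ≠ j → (A s (Sum.elim (Sum.elim (fun a => el (.inr (i, .inl a)))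
    (fun b => el (.inr (j, .inr b)))) (fun e => el (.inl (cc e))) ∘ α) ↔ i < j) := by
    intro i j hij
    have h1 := hrel0 (f i) (f j) (fun h => hij (hf.injective h))
    rw [hf.lt_iff_lt] at h1
    exact h1
  -- equalities are homogeneous
  have heq1 : ∀ (i i' : ℕ) (v v' : Co l k), el (.inr (i, v)) = el (.inr (i, v')) →
      el (.inr (i', v)) = el (.inr (i', v')) := by
    intro i i' v v' h
    have h1 := (hom Bool (fun b => if b then .inr (i, v) else .inr (i, v'))
      (fun t => t + i') (fun a b hab => by simpa using hab)).1 true false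
    have h2 := (hom Bool (fun b => if b then .inr (i', v) else .inr (i', v'))
      (fun t => t + i) (fun a b hab => by simpa using hab)).1 true false
    have h3 : el (.inr (i + i', v)) = el (.inr (i + i', v')) := h1.1 h
    rw [add_comm] at h3
    exact h2.2 h3
  have heqP : ∀ (i i' : ℕ) (v : Co l k) (e : P), el (.inr (i, v)) = el (.inl e) →
      el (.inr (i', v)) = el (.inl e) := by
    intro i i' v e h
    have h1 := (hom Bool (fun b => if b then .inr (i, v) else .inl e)
      (fun t => t + i') (fun a b hab => by simpa using hab)).1 true false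
    have h2 := (hom Bool (fun b => if b then .inr (i', v) else .inl e)
      (fun t => t + i) (fun a b hab => by simpa using hab)).1 true false
    have h3 : el (.inr (i + i', v)) = el (.inl e) := h1.1 h
    rw [add_comm] at h3
    exact h2.2 h3
  have heq2 : ∀ (i j i' j' : ℕ) (v v' : Co l k), i < j → i' < j' →
      el (.inr (i, v)) = el (.inr (j, v')) → el (.inr (i', v)) = el (.inr (j', v')) := by
    intro i j i' j' v v' hij hij' h
    obtain ⟨g, g', hg, hg', e1, e2⟩ := exists_shift i j i' j' hij hij'
    have h1 := (hom Bool (fun b => if b then .inr (i, v) else .inr (j, v')) g hg).1 true false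
    have h2 := (hom Bool (fun b => if b then .inr (i', v) else .inr (j', v')) g' hg').1 true false
    have h3 : el (.inr (g i, v)) = el (.inr (g j, v')) := h1.1 h
    rw [e1, e2] at h3
    exact h2.2 h3
  -- no constant coordinate
  have hconst : ∀ (v : Co l k) (d : UP u (fun _ => M)), (∀ i, el (.inr (i, v)) = d) → False := by
    intro v d hd
    rcases v with a0 | b0
    · have h1 : OP M0 (Nat.card (Fin k)) (Nat.card {a' : Fin l // a' ≠ a0}) :=
        reduce (A := A) hA _ _ _ hrel (X := {a' : Fin l // a' ≠ a0}) (Y := Fin k)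
          (C := Fin p ⊕ Unit) (fun i a' => el (.inr (i, .inl a'.1)))
          (fun j b => el (.inr (j, .inr b))) (Sum.elim (fun e => el (.inl (cc e))) fun _ => d)
          (Sum.elim (Sum.elim (fun a' => if h : a' ≠ a0 then .inl (.inl ⟨a', h⟩) else
            .inr (.inr ())) (fun b => .inl (.inr b))) (fun e => .inr (.inl e)))
          (by
            rintro i j ((a' | b') | e)
            · simp only [Sum.elim_inl]
              by_cases h : a' ≠ a0
              · rw [dif_pos h]
                rfl
              · rw [dif_neg h]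
                push Not at h
                rw [h]
                exact (hd i).symm
            · rfl
            · rfl)
      rw [card_ne, Nat.card_eq_fintype_card, Fintype.card_fin] at h1
      have h2 := hmin.2.2 _ h1
      have h3 := a0.pos
      omega
    · have h1 : OP M0 (Nat.card {b' : Fin k // b' ≠ b0}) (Nat.card (Fin l)) :=
        reduce (A := A) hA _ _ _ hrel (X := Fin l) (Y := {b' : Fin k // b' ≠ b0})
          (C := Fin p ⊕ Unit) (fun i a => el (.inr (i, .inl a)))
          (fun j b' => el (.inr (j, .inr b'.1))) (Sum.elim (fun e => el (.inl (cc e))) fun _ => d)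
          (Sum.elim (Sum.elim (fun a => .inl (.inl a)) (fun b' => if h : b' ≠ b0 then
            .inl (.inr ⟨b', h⟩) else .inr (.inr ()))) (fun e => .inr (.inl e)))
          (by
            rintro i j ((a' | b') | e)
            · rfl
            · simp only [Sum.elim_inl, Sum.elim_inr]
              by_cases h : b' ≠ b0
              · rw [dif_pos h]
                rfl
              · rw [dif_neg h]
                push Not at h
                rw [h]
                exact (hd j).symm
            · rfl)
      rw [card_ne, Nat.card_eq_fintype_card, Fintype.card_fin] at h1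
      have h2 := hmin.2.1 _ _ h1
      have h3 := b0.pos
      omega
  refine ⟨UP u (fun _ => M), P, hP, ⟨A, hA, cc, el, fun n v g hg => hom _ v g hg, hrel, ?_, ?_,
    ?_, ?_, ?_⟩, bb, hB⟩
  · intro e e' h
    exact Subtype.ext h
  · intro e i v h
    exact hconst v _ fun i' => heqP i i' v e h
  · have key : ∀ i j v v', i < j → el (.inr (i, v)) ≠ el (.inr (j, v')) := by
      intro i j v v' hij h
      refine hconst v' (el (.inr (0, v))) fun t => ?_
      rcases Nat.eq_zero_or_pos t with rfl | ht
      · have h1 := heq2 i j 0 1 v v' hij (by norm_num) h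
        have h2 := heq2 i j 0 2 v v' hij (by norm_num) h
        have h3 : el (.inr (1, v')) = el (.inr (2, v')) := h1.symm.trans h2
        have h4 := heq2 1 2 0 1 v' v' (by norm_num) (by norm_num) h3
        rw [h4, ← h1]
      · exact (heq2 i j 0 t v v' hij ht h).symm
    intro i j v v' hij h
    rcases lt_or_gt_of_ne hij with hlt | hlt
    · exact key i j v v' hlt h
    · exact key j i v' v hlt h.symm
  · intro i0 a1 a2 h
    by_contra hne
    have h1 : OP M0 (Nat.card (Fin k)) (Nat.card {a' : Fin l // a' ≠ a2}) :=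
      reduce (A := A) hA _ _ _ hrel (X := {a' : Fin l // a' ≠ a2}) (Y := Fin k)
        (C := Fin p) (fun i a' => el (.inr (i, .inl a'.1)))
        (fun j b => el (.inr (j, .inr b))) (fun e => el (.inl (cc e)))
        (Sum.elim (Sum.elim (fun a' => if h : a' ≠ a2 then .inl (.inl ⟨a', h⟩) else
          .inl (.inl ⟨a1, hne⟩)) (fun b => .inl (.inr b))) (fun e => .inr e))
        (by
          rintro i j ((a' | b') | e)
          · simp only [Sum.elim_inl]
            by_cases h' : a' ≠ a2
            · rw [dif_pos h']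
              rfl
            · rw [dif_neg h']
              push Not at h'
              rw [h']
              exact heq1 i0 i _ _ h
          · rfl
          · rfl)
    rw [card_ne, Nat.card_eq_fintype_card, Fintype.card_fin] at h1
    have h2 := hmin.2.2 _ h1
    have h3 := a2.pos
    omega
  · intro i0 b1 b2 h
    by_contra hne
    have h1 : OP M0 (Nat.card {b' : Fin k // b' ≠ b2}) (Nat.card (Fin l)) :=
      reduce (A := A) hA _ _ _ hrel (X := Fin l) (Y := {b' : Fin k // b' ≠ b2})
        (C := Fin p) (fun i a => el (.inr (i, .inl a)))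
        (fun j b' => el (.inr (j, .inr b'.1))) (fun e => el (.inl (cc e)))
        (Sum.elim (Sum.elim (fun a => .inl (.inl a)) (fun b' => if h : b' ≠ b2 then
          .inl (.inr ⟨b', h⟩) else .inl (.inr ⟨b1, hne⟩))) (fun e => .inr e))
        (by
          rintro i j ((a' | b') | e)
          · rfl
          · simp only [Sum.elim_inl, Sum.elim_inr]
            by_cases h' : b' ≠ b2
            · rw [dif_pos h']
              rfl
            · rw [dif_neg h']
              push Not at h'
              rw [h']
              exact heq1 i0 j _ _ h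
          · rfl)
    rw [card_ne, Nat.card_eq_fintype_card, Fintype.card_fin] at h1
    have h2 := hmin.2.1 _ _ h1
    have h3 := b2.pos
    omega

end Pool.Agent.Helper89.EA
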