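import Pool.Agent.Helper89.EA.UDefs
import Pool.Agent.Helper89.EA.P.B1b

/-!
# Project EA, piece U3: the structure along a coloured linear order

`pl_st`: for `g, g' : I → ℕ` strictly monotone on the (finite) set of indices of a finite tuple
`v`, the tuples `Λ.el ∘ pl g ∘ v` and `Λ.el ∘ pl g' ∘ v` have the same type: the indices are
`q_1 < ... < q_t`; put `c_i = g q_i + g' q_i`; there are strictly increasing `h, h' : ℕ → ℕ` with
`h (g q_i) = c_i = h' (g' q_i)` (since `c_i - c_{i-1} ≥ g q_i - g q_{i-1}`), apply `Λ.hom` twice.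
A strictly monotone `g` on a finite set of indices exists (count the smaller elements, e.g.
`fun q => (F.filter (· < q)).card`, or `Finset.orderIsoOfFin`).
So in the definition of `star` one may take any such `g`: `star_iff`.  For equality of points:
`Λ.el ∘ pl g` is injective on the points of the carrier with indices in a set on which `g` is
strictly monotone, by the distinctness conditions of `Lad`.

`star_ot`: if `v, v'` have the same order type, choose `g` for `v`, and `g'` for `v'` such that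
`pl g ∘ v = pl g' ∘ v'` (transport `g` along the bijection of the indices).
-/

namespace Pool.Agent.Helper89.EA

variable {σ : Sig} {M N P I : Type} {M0 : RS σ M} {k l p : ℕ} {s : σ.Sy}
  {α : Fin (σ.ar s) → (Fin l ⊕ Fin k) ⊕ Fin p}

/-- the rank of an index in a finite set -/
noncomputable def rk [LinearOrder I] (F : Finset I) (q : I) : ℕ :=
  open Classical in
  if h : q ∈ F then ((F.orderIsoOfFin rfl).symm ⟨q, h⟩).val else 0

theorem rk_strictMonoOn [LinearOrder I] (F : Finset I) : StrictMonoOn (rk F) (F : Set I) := by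
  intro q hq q' hq' hlt
  have hq1 : q ∈ F := hq
  have hq2 : q' ∈ F := hq'
  unfold rk
  rw [dif_pos hq1, dif_pos hq2]
  have : (F.orderIsoOfFin rfl).symm ⟨q, hq1⟩ < (F.orderIsoOfFin rfl).symm ⟨q', hq2⟩ :=
    (F.orderIsoOfFin rfl).symm.strictMono hlt
  exact this

/-- every monotone placement is the rank followed by a strictly increasing function -/
theorem exists_extend [LinearOrder I] (F : Finset I) (g : I → ℕ)
    (hg : StrictMonoOn g (F : Set I)) :
    ∃ H : ℕ → ℕ, StrictMono H ∧ ∀ q ∈ F, H (rk F q) = g q := by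
  classical
  refine ⟨fun n => if h : n < F.card then g ((F.orderIsoOfFin rfl) ⟨n, h⟩).1
    else F.sup g + 1 + n, ?_, ?_⟩
  · intro n m hnm
    show (if h : n < F.card then g ((F.orderIsoOfFin rfl) ⟨n, h⟩).1 else F.sup g + 1 + n) <
      (if h : m < F.card then g ((F.orderIsoOfFin rfl) ⟨m, h⟩).1 else F.sup g + 1 + m)
    by_cases hm : m < F.card
    · have hn : n < F.card := hnm.trans hm
      rw [dif_pos hn, dif_pos hm]
      refine hg ((F.orderIsoOfFin rfl) ⟨n, hn⟩).2 ((F.orderIsoOfFin rfl) ⟨m, hm⟩).2 ?_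
      exact (F.orderIsoOfFin rfl).strictMono (show (⟨n, hn⟩ : Fin F.card) < ⟨m, hm⟩ from hnm)
    · rw [dif_neg hm]
      by_cases hn : n < F.card
      · rw [dif_pos hn]
        have := Finset.le_sup (f := g) ((F.orderIsoOfFin rfl) ⟨n, hn⟩).2
        omega
      · rw [dif_neg hn]
        omega
  · intro q hq
    have h1 : rk F q = ((F.orderIsoOfFin rfl).symm ⟨q, hq⟩).val := by
      unfold rk
      rw [dif_pos hq]
    show (if h : rk F q < F.card then g ((F.orderIsoOfFin rfl) ⟨rk F q, h⟩).1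
      else F.sup g + 1 + rk F q) = g q
    have h2 : rk F q < F.card := by
      rw [h1]
      exact ((F.orderIsoOfFin rfl).symm ⟨q, hq⟩).2
    rw [dif_pos h2]
    have h3 : (⟨rk F q, h2⟩ : Fin F.card) = (F.orderIsoOfFin rfl).symm ⟨q, hq⟩ := Fin.ext h1
    rw [h3, OrderIso.apply_symm_apply]

theorem hom_finite (Λ : Lad M0 k l s p α P N) {ι : Type} [Finite ι]
    (v : ι → P ⊕ ℕ × Co l k) (g : ℕ → ℕ) (hg : StrictMono g) :
    ST Λ.A Λ.A (Λ.el ∘ v) (Λ.el ∘ pl g ∘ v) := by
  obtain ⟨n, ⟨e⟩⟩ := Finite.exists_equiv_fin ι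
  have h1 := st_comp (Λ.hom n (v ∘ e.symm) g hg) e
  have h2 : (Λ.el ∘ v ∘ e.symm) ∘ e = Λ.el ∘ v := by
    funext i
    simp
  have h3 : (Λ.el ∘ pl g ∘ v ∘ e.symm) ∘ e = Λ.el ∘ pl g ∘ v := by
    funext i
    simp
  rw [h2, h3] at h1
  exact h1

/-- the index of a point -/
def oix {P I J : Type} (t : P ⊕ I × J) : Option I := Sum.elim (fun _ => none) (fun z => some z.1) t

theorem finite_ix {ι : Type} [Finite ι] {J : Type} (v : ι → P ⊕ I × J) :
    {q : I | ∃ i, oix (v i) = some q}.Finite := by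
  have h1 : (Set.range (fun i => oix (v i))).Finite := Set.finite_range _
  have h2 := h1.preimage (f := (some : I → Option I)) (Option.some_injective I).injOn
  refine h2.subset ?_
  rintro q ⟨i, hi⟩
  exact ⟨i, hi⟩

theorem oix_eq_some {J : Type} {t : P ⊕ I × J} {q : I} : oix t = some q ↔ ∃ u, t = .inr (q, u) := by
  rcases t with e | ⟨q', u⟩
  · simp [oix]
  · simp only [oix, Sum.elim_inr, Option.some.injEq, Sum.inr.injEq, Prod.mk.injEq]
    constructor
    · rintro rfl
      exact ⟨u, rfl, rfl⟩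
    · rintro ⟨_, h, _⟩
      exact h

theorem pl_congr {J K : Type} {l k : ℕ} {t : P ⊕ I × Co l k} {g g' : I → K}
    (h : ∀ q, oix t = some q → g q = g' q) : pl g t = pl g' t := by
  rcases t with e | ⟨q, u⟩
  · rfl
  · have := h q rfl
    simp only [pl, Sum.map_inr, Prod.map, this]

/-- placements with the same order give the same type -/
theorem pl_st (Λ : Lad M0 k l s p α P N) [LinearOrder I] {ι : Type} [Finite ι]
    (v : ι → P ⊕ I × Co l k) (g g' : I → ℕ)
    (h : ∀ i j q q' u u', v i = .inr (q, u) → v j = .inr (q', u') → q < q' → g q < g q')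
    (h' : ∀ i j q q' u u', v i = .inr (q, u) → v j = .inr (q', u') → q < q' → g' q < g' q') :
    ST Λ.A Λ.A (Λ.el ∘ pl g ∘ v) (Λ.el ∘ pl g' ∘ v) := by
  have hfin := finite_ix v
  have key : ∀ G : I → ℕ, (∀ i j q q' u u', v i = .inr (q, u) → v j = .inr (q', u') → q < q' →
      G q < G q') → ST Λ.A Λ.A (Λ.el ∘ pl (rk hfin.toFinset) ∘ v) (Λ.el ∘ pl G ∘ v) := by
    intro G hG
    have hmono : StrictMonoOn G (hfin.toFinset : Set I) := by
      intro q hq q' hq' hlt
      rw [Set.Finite.coe_toFinset] at hq hq'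
      obtain ⟨i, hi⟩ := hq
      obtain ⟨j, hj⟩ := hq'
      obtain ⟨u, hu⟩ := oix_eq_some.1 hi
      obtain ⟨u', hu'⟩ := oix_eq_some.1 hj
      exact hG i j q q' u u' hu hu' hlt
    obtain ⟨H, hH1, hH2⟩ := exists_extend hfin.toFinset G hmono
    have h1 := hom_finite Λ (pl (rk hfin.toFinset) ∘ v) H hH1
    have h2 : (Λ.el ∘ pl H ∘ pl (rk hfin.toFinset) ∘ v) = Λ.el ∘ pl G ∘ v := by
      funext i
      show Λ.el (pl H (pl (rk hfin.toFinset) (v i))) = Λ.el (pl G (v i))
      congr 1
      rcases hvi : v i with e | ⟨q, u⟩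
      · rfl
      · have hq : q ∈ hfin.toFinset := by
          rw [Set.Finite.mem_toFinset]
          exact ⟨i, oix_eq_some.2 ⟨u, hvi⟩⟩
        simp only [pl, Sum.map_inr, Prod.map, hH2 q hq, id]
    rw [h2] at h1
    exact h1
  exact st_trans (st_symm (key g h)) (key g' h')

theorem Car.ix_eq {Y : I → Prop} (t : Car P I l k Y) : t.ix = oix t.1 := by
  obtain ⟨t, ht⟩ := t
  rcases t with e | ⟨q, u⟩ <;> rfl

/-- evaluation of the structure `star` with any monotone placement -/
theorem star_st (Λ : Lad M0 k l s p α P N) [LinearOrder I] {Y : I → Prop} {ι : Type} [Finite ι]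
    (v : ι → Car P I l k Y) (g : I → ℕ) (hg : StrictMonoOn g (Idx v)) :
    ST (star Λ Y) Λ.A v (fun i => Λ.el (pl g (v i).1)) := by
  refine ⟨fun i j => ⟨fun h => congrArg (fun t : Car P I l k Y => Λ.el (pl g t.1)) h,
    fun h => ?_⟩, fun s' x => ⟨?_, ?_⟩⟩
  · change Λ.el (pl g (v i).1) = Λ.el (pl g (v j).1) at h
    refine Subtype.ext ?_
    have hi : ∀ q, oix (v i).1 = some q → q ∈ Idx v := fun q hq => ⟨i, by rw [Car.ix_eq]; exact hq⟩
    have hj : ∀ q, oix (v j).1 = some q → q ∈ Idx v := fun q hq => ⟨j, by rw [Car.ix_eq]; exact hq⟩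
    have hYi := (v i).2
    have hYj := (v j).2
    generalize (v i).1 = t at h hi hYi
    generalize (v j).1 = t' at h hj hYj
    rcases t with e | ⟨q, u⟩ <;> rcases t' with e' | ⟨q', u'⟩
    · rw [Λ.injP e e' h]
    · exact absurd h.symm (Λ.notP e (g q') u')
    · exact absurd h (Λ.notP e' (g q) u)
    · by_cases hqq : q = q'
      · subst hqq
        have h1 := hYi q u rfl
        have h2 := hYj q u' rfl
        rcases u with a | b <;> rcases u' with a' | b'
        · rw [Λ.injX (g q) a a' h]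
        · simp only [Sum.isRight_inl, Sum.isRight_inr, true_iff] at h1 h2
          exact absurd (h1.2 h2) (by simp)
        · simp only [Sum.isRight_inl, Sum.isRight_inr, true_iff] at h1 h2
          exact absurd (h2.2 h1) (by simp)
        · rw [Λ.injY (g q) b b' h]
      · have hgne : g q ≠ g q' := fun hh => hqq (hg.injOn (hi q rfl) (hj q' rfl) hh)
        exact absurd h (Λ.inj1 (g q) (g q') u u' hgne)
  · rintro ⟨g', hg', hA⟩
    have hst := pl_st Λ (fun i => ((v ∘ x) i).1) g' g ?_ ?_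
    · exact (hst.2 s' id).1 hA
    · intro i j q q' u u' hi hj hlt
      refine hg' ⟨i, ?_⟩ ⟨j, ?_⟩ hlt
      · rw [Car.ix_eq]; exact oix_eq_some.2 ⟨u, hi⟩
      · rw [Car.ix_eq]; exact oix_eq_some.2 ⟨u', hj⟩
    · intro i j q q' u u' hi hj hlt
      refine hg ⟨x i, ?_⟩ ⟨x j, ?_⟩ hlt
      · rw [Car.ix_eq]; exact oix_eq_some.2 ⟨u, hi⟩
      · rw [Car.ix_eq]; exact oix_eq_some.2 ⟨u', hj⟩
  · intro hA
    refine ⟨g, hg.mono ?_, hA⟩
    rintro q ⟨i, hi⟩
    exact ⟨x i, hi⟩

theorem Car.eq_iff [LinearOrder I] {Y : I → Prop} (t t' : Car P I l k Y) :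
    t = t' ↔ t.cd = t'.cd ∧ ¬ t.Lt t' ∧ ¬ t'.Lt t := by
  constructor
  · rintro rfl
    refine ⟨rfl, ?_, ?_⟩
    · rintro ⟨q, q', h1, h2, h3⟩
      rw [h1] at h2
      injection h2 with h2
      exact absurd h3 (by rw [h2]; exact lt_irrefl _)
    · rintro ⟨q, q', h1, h2, h3⟩
      rw [h1] at h2
      injection h2 with h2
      exact absurd h3 (by rw [h2]; exact lt_irrefl _)
  · rintro ⟨h1, h2, h3⟩
    obtain ⟨t, ht⟩ := t
    obtain ⟨t', ht'⟩ := t'
    refine Subtype.ext ?_
    rcases t with e | ⟨q, u⟩ <;> rcases t' with e' | ⟨q', u'⟩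
    · simp only [Car.cd, Sum.inl.injEq] at h1
      simp only [h1]
    · simp [Car.cd] at h1
    · simp [Car.cd] at h1
    · simp only [Car.cd, Sum.inr.injEq] at h1
      have hq : q = q' := by
        rcases lt_trichotomy q q' with h | h | h
        · exact absurd ⟨q, q', rfl, rfl, h⟩ h2
        · exact h
        · exact absurd ⟨q', q, rfl, rfl, h⟩ h3
      simp only [hq, h1]

/-- points with the same coordinates -/
theorem cd_cases {Y : I → Prop} {t t' : Car P I l k Y} (h : t.cd = t'.cd) :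
    (∃ e, t.1 = .inl e ∧ t'.1 = .inl e) ∨ ∃ q q' u, t.1 = .inr (q, u) ∧ t'.1 = .inr (q', u) := by
  obtain ⟨t, ht⟩ := t
  obtain ⟨t', ht'⟩ := t'
  rcases t with e | ⟨q, u⟩ <;> rcases t' with e' | ⟨q', u'⟩
  · simp only [Car.cd, Sum.inl.injEq] at h
    exact .inl ⟨e, rfl, by simp only [h]⟩
  · simp [Car.cd] at h
  · simp [Car.cd] at h
  · simp only [Car.cd, Sum.inr.injEq] at h
    exact .inr ⟨q, q', u, rfl, by simp only [h]⟩

theorem star_of_oty (Λ : Lad M0 k l s p α P N) [LinearOrder I] {Y : I → Prop} {s' : σ.Sy}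
    (v v' : Fin (σ.ar s') → Car P I l k Y) (h : OTy v v') (hA : star Λ Y s' v) :
    star Λ Y s' v' := by
  classical
  obtain ⟨g, hg, hA⟩ := hA
  obtain ⟨hc, hl⟩ := h
  -- indices
  have hsame : ∀ i j q q1 q', (v i).ix = some q → (v j).ix = some q1 → (v' i).ix = some q' →
      (v' j).ix = some q' → q = q1 := by
    intro i j q q1 q' h1 h2 h3 h4
    rcases lt_trichotomy q q1 with hh | hh | hh
    · obtain ⟨a, b, h5, h6, h7⟩ := (hl i j).1 ⟨q, q1, h1, h2, hh⟩
      rw [h3] at h5
      rw [h4] at h6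
      injection h5 with h5
      injection h6 with h6
      exact absurd h7 (by rw [← h5, ← h6]; exact lt_irrefl _)
    · exact hh
    · obtain ⟨a, b, h5, h6, h7⟩ := (hl j i).1 ⟨q1, q, h2, h1, hh⟩
      rw [h4] at h5
      rw [h3] at h6
      injection h5 with h5
      injection h6 with h6
      exact absurd h7 (by rw [← h5, ← h6]; exact lt_irrefl _)
  have hex : ∃ g' : I → ℕ, ∀ i q q', (v i).ix = some q → (v' i).ix = some q' → g' q' = g q := by
    refine ⟨fun q' => if hh : ∃ i q, (v i).ix = some q ∧ (v' i).ix = some q' then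
      g hh.choose_spec.choose else 0, ?_⟩
    intro i q q' h1 h2
    have hh : ∃ i q, (v i).ix = some q ∧ (v' i).ix = some q' := ⟨i, q, h1, h2⟩
    show (if hh : ∃ i q, (v i).ix = some q ∧ (v' i).ix = some q' then
      g hh.choose_spec.choose else 0) = g q
    rw [dif_pos hh]
    have h3 := hh.choose_spec.choose_spec
    rw [hsame _ _ _ _ _ h3.1 h1 h3.2 h2]
  obtain ⟨g', hg'⟩ := hex
  have hix : ∀ i q', (v' i).ix = some q' → ∃ q, (v i).ix = some q := by
    intro i q' h1
    rcases cd_cases (hc i) with ⟨e, h2, h3⟩ | ⟨a, b, u, h2, h3⟩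
    · rw [Car.ix_eq, h3] at h1
      simp [oix] at h1
    · exact ⟨a, by rw [Car.ix_eq, h2]; rfl⟩
  refine ⟨g', ?_, ?_⟩
  · rintro q1 ⟨i, hi⟩ q2 ⟨j, hj⟩ hlt
    obtain ⟨p1, hp1⟩ := hix i q1 hi
    obtain ⟨p2, hp2⟩ := hix j q2 hj
    obtain ⟨a, b, h5, h6, h7⟩ := (hl i j).2 ⟨q1, q2, hi, hj, hlt⟩
    rw [hp1] at h5
    rw [hp2] at h6
    injection h5 with h5
    injection h6 with h6
    rw [hg' i p1 q1 hp1 hi, hg' j p2 q2 hp2 hj]
    refine hg ⟨i, hp1⟩ ⟨j, hp2⟩ ?_
    rw [h5, h6]
    exact h7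
  · have : (fun i => Λ.el (pl g' (v' i).1)) = fun i => Λ.el (pl g (v i).1) := by
      funext i
      rcases cd_cases (hc i) with ⟨e, h2, h3⟩ | ⟨a, b, u, h2, h3⟩
      · rw [h2, h3]
        rfl
      · have h4 := hg' i a b (by rw [Car.ix_eq, h2]; rfl) (by rw [Car.ix_eq, h3]; rfl)
        rw [h2, h3]
        simp only [pl, Sum.map_inr, Prod.map, h4]
    rw [this]
    exact hA

theorem OTy.symm [LinearOrder I] {Y : I → Prop} {ι : Type} {v v' : ι → Car P I l k Y}
    (h : OTy v v') : OTy v' v :=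
  ⟨fun i => (h.1 i).symm, fun i j => (h.2 i j).symm⟩

/-- tuples of the same order type have the same type -/
theorem star_ot (Λ : Lad M0 k l s p α P N) [LinearOrder I] {Y : I → Prop} {ι : Type}
    (v v' : ι → Car P I l k Y) (h : OTy v v') : ST (star Λ Y) (star Λ Y) v v' := by
  refine ⟨fun i j => ?_, fun s' x => ⟨?_, ?_⟩⟩
  · rw [Car.eq_iff, Car.eq_iff, h.1 i, h.1 j, h.2 i j, h.2 j i]
  · exact star_of_oty Λ (v ∘ x) (v' ∘ x) ⟨fun i => h.1 (x i), fun i j => h.2 (x i) (x j)⟩
  · exact star_of_oty Λ (v' ∘ x) (v ∘ x)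
      ⟨fun i => (h.1 (x i)).symm, fun i j => (h.2 (x i) (x j)).symm⟩

theorem exists_place [LinearOrder I] {Y : I → Prop} {ι : Type} [Finite ι]
    (v : ι → Car P I l k Y) : ∃ g : I → ℕ, StrictMonoOn g (Idx v) := by
  have hfin := finite_ix (fun i => (v i).1)
  refine ⟨rk hfin.toFinset, ?_⟩
  have h := rk_strictMonoOn hfin.toFinset
  refine h.mono ?_
  rintro q ⟨i, hi⟩
  rw [Set.Finite.coe_toFinset]
  exact ⟨i, by rw [← Car.ix_eq]; exact hi⟩

theorem star_inC (Λ : Lad M0 k l s p α P N) [LinearOrder I] (Y : I → Prop) :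
    InC M0 (star Λ Y) := by
  intro n v
  obtain ⟨g, hg⟩ := exists_place v
  obtain ⟨w, hw⟩ := Λ.inC n (fun i => Λ.el (pl g (v i).1))
  exact ⟨w, st_trans (star_st Λ v g hg) hw⟩

theorem star_base (Λ : Lad M0 k l s p α P N) [LinearOrder I] (Y : I → Prop) {ι : Type}
    (a : ι → P) :
    ST (star Λ Y) Λ.A (fun i => Car.ofP (a i)) (fun i => Λ.el (.inl (a i))) := by
  refine ⟨fun i j => ⟨fun h => ?_, fun h => ?_⟩, fun s' x => ⟨?_, ?_⟩⟩
  · have h1 : (.inl (a i) : P ⊕ I × Co l k) = .inl (a j) := congrArg Subtype.val h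
    injection h1 with h1
    show Λ.el (.inl (a i)) = Λ.el (.inl (a j))
    rw [h1]
  · show Car.ofP (a i) = Car.ofP (a j)
    rw [Λ.injP _ _ h]
  · rintro ⟨g, _, hA⟩
    exact hA
  · intro hA
    refine ⟨fun _ => 0, ?_, hA⟩
    rintro q ⟨i, hi⟩
    exact absurd hi (by simp [Car.ix, Car.ofP])

theorem star_rel (Λ : Lad M0 k l s p α P N) [LinearOrder I] {Y : I → Prop} (q q' : I)
    (hq : ¬ Y q) (hq' : Y q') :
    Rl α (star Λ Y) (Car.ofX q hq) (Car.ofY q' hq') (fun e => Car.ofP (Λ.c e)) ↔ q < q' := by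
  classical
  have hne : q ≠ q' := fun h => hq (h ▸ hq')
  have key : ∀ g : I → ℕ, (q < q' → g q < g q') → (q' < q → g q' < g q) →
      (Rl α (star Λ Y) (Car.ofX q hq) (Car.ofY q' hq') (fun e => Car.ofP (Λ.c e)) ↔
        g q < g q') := by
    intro g h1 h2
    have hgne : g q ≠ g q' := by
      rcases lt_or_gt_of_ne hne with h | h
      · exact (h1 h).ne
      · exact (h2 h).ne'
    have hst := star_st Λ (Sum.elim (Sum.elim (Car.ofX (P := P) (k := k) q hq)
      (Car.ofY (P := P) (l := l) q' hq')) (fun e => Car.ofP (Λ.c e))) g ?_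
    · unfold Rl
      rw [hst.2 s α]
      rw [← Λ.rel (g q) (g q') hgne]
      have : (fun i => Λ.el (pl g ((Sum.elim (Sum.elim (Car.ofX (P := P) (k := k) q hq)
          (Car.ofY (P := P) (l := l) q' hq')) (fun e => Car.ofP (Λ.c e)) i).1))) =
          Sum.elim (Sum.elim (fun a => Λ.el (.inr (g q, .inl a)))
            (fun b => Λ.el (.inr (g q', .inr b)))) (fun e => Λ.el (.inl (Λ.c e))) := by
        funext i
        rcases i with (a | b) | e <;> rfl
      rw [this]
    · have hsub : Idx (Sum.elim (Sum.elim (Car.ofX (P := P) (k := k) q hq)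
          (Car.ofY (P := P) (l := l) q' hq')) (fun e => Car.ofP (Λ.c e))) ⊆ {q, q'} := by
        rintro z ⟨i, hi⟩
        rcases i with (a | b) | e
        · have : some q = some z := hi
          injection this with this
          exact .inl this.symm
        · have : some q' = some z := hi
          injection this with this
          exact .inr this.symm
        · exact absurd hi (by simp [Car.ix, Car.ofP])
      intro a ha b hb hab
      rcases hsub ha with ha | ha <;> rcases hsub hb with hb | hb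
      · rw [ha, hb] at hab; exact absurd hab (lt_irrefl _)
      · rw [ha, hb] at hab ⊢; exact h1 hab
      · rw [ha, hb] at hab ⊢; exact h2 hab
      · rw [ha, hb] at hab; exact absurd hab (lt_irrefl _)
  rcases lt_or_gt_of_ne hne with h | h
  · have := key (fun z => if z = q then 0 else 1) (by simp [hne.symm])
      (fun h' => absurd h' h.asymm)
    rw [this]
    simp [hne.symm, h]
  · have := key (fun z => if z = q' then 0 else 1) (fun h' => absurd h' (lt_asymm h))
      (by simp [hne])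
    rw [this]
    simp [hne, h.le]

end Pool.Agent.Helper89.EA
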