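import Pool.Agent.Helper89.EA.U.U1
import Pool.Agent.Helper89.EA.U.U3

/-!
# Project EA, piece U4a: the flip lemma in a homogeneous ladder

`t` is a tuple of arguments of an atom `a`, with finitely many classes `Q` of indices; `h, h'` are
injective placements of the classes in `ℕ`.  If the truth value of the atom is different for `h`
and `h'` then there are two classes `q, q'` in different order for `h` and `h'`, and such that the
atom has the order property with the coordinates at `q` and the coordinates at `q'`.

Proof.  The truth value `T h` depends only on the order which `h` induces on `Q` (`pl_st`; only the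
classes occurring in `t` matter, but one may use all of `Q`).  Induction on the number of pairs
`(q, q')` with `h q < h q'` and `h' q' < h' q`.  If there is none then `h` and `h'` induce the same
order, and `T h = T h'`, contradiction.  Otherwise there is such a pair which is adjacent for `h`
(no `h q''` between `h q` and `h q'`): e.g. take such a pair with `h q' - h q` minimal; if `q''` is
between, then one of the pairs `(q, q'')`, `(q'', q')` is also inverted.  Let `h''= h ∘ swap q q'`.
If `T h'' = T h` then use induction for `(h'', h')`: its inverted pairs are inverted pairs of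
`(h, h')`, without `(q, q')`.  If `T h'' ≠ T h`: for `n : ℕ` put `L = n + 1` and, for `i, j < n`,
`h_{ij} q = L * h q + i`, `h_{ij} q' = L * h q + j`, `h_{ij} q'' = L * h q''`.  It induces the same
order as `h` if `i < j` and the same order as `h''` if `j < i`; so the truth value of the atom at
`Λ.el ∘ pl h_{ij} ∘ t` is a ladder of length `n` (increasing or decreasing) with
`X = {u // ∃ i, t i = inr (q, u)}`, `Y = {u // ∃ i, t i = inr (q', u)}` and parameters
`C = P ⊕ Q × Co l k` (use only the part of `C` actually needed; `P` is arbitrary, so take as `C`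
the type `Fin a.ar` of the arguments, with the value `Λ.el (pl h_{ij} (t i))` for the arguments
which are not at `q, q'`).  Apply `op_of_ladders` or `op_of_ladders'`.
-/

namespace Pool.Agent.Helper89.EA

variable {σ : Sig} {M N P I : Type} {M0 : RS σ M} {k l p : ℕ} {s : σ.Sy}
  {α : Fin (σ.ar s) → (Fin l ⊕ Fin k) ⊕ Fin p}

/-- the truth value depends only on the order of the placement -/
theorem flip_congr (Λ : Lad M0 k l s p α P N) {Q : Type} (a : At σ)
    (t : Fin a.ar → P ⊕ Q × Co l k) (h h' : Q → ℕ) (hi : Function.Injective h)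
    (hh : ∀ x y, h x < h y → h' x < h' y) :
    a.ev Λ.A (Λ.el ∘ pl h ∘ t) ↔ a.ev Λ.A (Λ.el ∘ pl h' ∘ t) := by
  let _ : LinearOrder Q := LinearOrder.lift' h hi
  have hlt : ∀ x y : Q, x < y ↔ h x < h y := fun x y => Iff.rfl
  have h1 := pl_st Λ t h h' (fun i j q q' u u' _ _ hq => (hlt q q').1 hq)
    (fun i j q q' u u' _ _ hq => hh q q' ((hlt q q').1 hq))
  exact (st_iff_at.1 h1) a id

theorem flip_arith {L a b i : ℕ} (hab : a < b) (hi : i < L) : L * a + i < L * b := by
  have h1 : L * (a + 1) ≤ L * b := Nat.mul_le_mul_left L hab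
  rw [Nat.mul_add] at h1
  omega

open Classical in
/-- the ladder obtained from an adjacent transposition which changes the truth value -/
theorem flip_adj (Λ : Lad M0 k l s p α P N) {Q : Type} (a : At σ)
    (t : Fin a.ar → P ⊕ Q × Co l k) (h h2 : Q → ℕ) (hi : Function.Injective h)
    (hi2 : Function.Injective h2) (q q' : Q) (hqq : h q < h q')
    (hadj : ∀ x, h q < h x → h x < h q' → False)
    (h2q : h2 q = h q') (h2q' : h2 q' = h q) (h2o : ∀ x, x ≠ q → x ≠ q' → h2 x = h x)
    (hne : ¬ (a.ev Λ.A (Λ.el ∘ pl h ∘ t) ↔ a.ev Λ.A (Λ.el ∘ pl h2 ∘ t))) :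
    OP M0 (Nat.card {u : Co l k // ∃ i, t i = .inr (q, u)})
        (Nat.card {u : Co l k // ∃ i, t i = .inr (q', u)}) ∧
      OP M0 (Nat.card {u : Co l k // ∃ i, t i = .inr (q', u)})
        (Nat.card {u : Co l k // ∃ i, t i = .inr (q, u)}) := by
  have hneq : q' ≠ q := by
    rintro rfl
    exact lt_irrefl _ hqq
  -- the placements
  set H : ℕ → ℕ → ℕ → Q → ℕ := fun L i j x =>
    if x = q then L * h q + i else if x = q' then L * h q + j else L * h x with hH
  have Hq : ∀ L i j, H L i j q = L * h q + i := fun L i j => by simp [hH]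
  have Hq' : ∀ L i j, H L i j q' = L * h q + j := fun L i j => by simp [hH, hneq]
  have Ho : ∀ L i j x, x ≠ q → x ≠ q' → H L i j x = L * h x := fun L i j x h1 h2 => by
    simp [hH, h1, h2]
  have hupper : ∀ x, x ≠ q → x ≠ q' → h x < h q' → h x < h q := by
    intro x hx hx' hlt
    rcases lt_trichotomy (h x) (h q) with h1 | h1 | h1
    · exact h1
    · exact absurd (hi h1) hx
    · exact (hadj x h1 hlt).elim
  -- order, first case
  have ord1 : ∀ L i j, i < L → j < L → i < j → ∀ x y, h x < h y → H L i j x < H L i j y := by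
    intro L i j hiL hjL hij x y hxy
    by_cases hx : x = q
    · subst hx
      by_cases hy : y = q'
      · subst hy
        rw [Hq, Hq']
        omega
      · have hy' : y ≠ x := by
          rintro rfl
          exact lt_irrefl _ hxy
        rw [Hq, Ho _ _ _ _ hy' hy]
        exact flip_arith hxy hiL
    · by_cases hx' : x = q'
      · subst hx'
        by_cases hy : y = q
        · subst hy
          omega
        · have hy' : y ≠ x := by
            rintro rfl
            exact lt_irrefl _ hxy
          rw [Hq', Ho _ _ _ _ hy hy']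
          exact flip_arith (hqq.trans hxy) hjL
      · rw [Ho _ _ _ _ hx hx']
        by_cases hy : y = q
        · subst hy
          rw [Hq]
          have := flip_arith hxy (show 0 < L by omega)
          omega
        · by_cases hy' : y = q'
          · subst hy'
            rw [Hq']
            have := flip_arith (hupper x hx hx' hxy) (show 0 < L by omega)
            omega
          · rw [Ho _ _ _ _ hy hy']
            have := flip_arith hxy (show 0 < L by omega)
            omega
  -- order, second case
  have ord2 : ∀ L i j, i < L → j < L → j < i → ∀ x y, h2 x < h2 y → H L i j x < H L i j y := by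
    intro L i j hiL hjL hij x y hxy
    by_cases hx : x = q
    · subst hx
      rw [h2q] at hxy
      by_cases hy : y = q'
      · subst hy
        rw [h2q'] at hxy
        omega
      · have hy' : y ≠ x := by
          rintro rfl
          rw [h2q] at hxy
          exact lt_irrefl _ hxy
        rw [h2o y hy' hy] at hxy
        rw [Hq, Ho _ _ _ _ hy' hy]
        exact flip_arith (hqq.trans hxy) hiL
    · by_cases hx' : x = q'
      · subst hx'
        rw [h2q'] at hxy
        by_cases hy : y = q
        · subst hy
          rw [Hq, Hq']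
          omega
        · have hy' : y ≠ x := by
            rintro rfl
            rw [h2q'] at hxy
            exact lt_irrefl _ hxy
          rw [h2o y hy hy'] at hxy
          rw [Hq', Ho _ _ _ _ hy hy']
          exact flip_arith hxy hjL
      · rw [Ho _ _ _ _ hx hx']
        rw [h2o x hx hx'] at hxy
        by_cases hy : y = q
        · subst hy
          rw [h2q] at hxy
          rw [Hq]
          have := flip_arith (hupper x hx hx' hxy) (show 0 < L by omega)
          omega
        · by_cases hy' : y = q'
          · subst hy'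
            rw [h2q'] at hxy
            rw [Hq']
            have := flip_arith hxy (show 0 < L by omega)
            omega
          · rw [h2o y hy hy'] at hxy
            rw [Ho _ _ _ _ hy hy']
            have := flip_arith hxy (show 0 < L by omega)
            omega
  -- truth values
  have tv1 : ∀ L i j, i < L → j < L → i < j →
      (a.ev Λ.A (Λ.el ∘ pl h ∘ t) ↔ a.ev Λ.A (Λ.el ∘ pl (H L i j) ∘ t)) :=
    fun L i j h1 h3 h4 => flip_congr Λ a t h (H L i j) hi (ord1 L i j h1 h3 h4)
  have tv2 : ∀ L i j, i < L → j < L → j < i →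
      (a.ev Λ.A (Λ.el ∘ pl h2 ∘ t) ↔ a.ev Λ.A (Λ.el ∘ pl (H L i j) ∘ t)) :=
    fun L i j h1 h3 h4 => flip_congr Λ a t h2 (H L i j) hi2 (ord2 L i j h1 h3 h4)
  -- the atom
  have key : ∀ i0 : Fin a.ar, ∃ c : ({u : Co l k // ∃ i, t i = .inr (q, u)} ⊕
      {u : Co l k // ∃ i, t i = .inr (q', u)}) ⊕ Fin a.ar, ∀ L i j : ℕ,
      Sum.elim (Sum.elim (fun u : {u : Co l k // ∃ i, t i = .inr (q, u)} =>
          Λ.el (.inr (L * h q + i, u.1)))
        (fun u : {u : Co l k // ∃ i, t i = .inr (q', u)} => Λ.el (.inr (L * h q + j, u.1))))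
        (fun e => Λ.el (pl (fun x => L * h x) (t e))) c = Λ.el (pl (H L i j) (t i0)) := by
    intro i0
    rcases ht : t i0 with e | ⟨x, u⟩
    · refine ⟨.inr i0, fun L i j => ?_⟩
      simp only [Sum.elim_inr, ht, pl, Sum.map_inl]
    · by_cases hx : x = q
      · subst hx
        refine ⟨.inl (.inl ⟨u, i0, ht⟩), fun L i j => ?_⟩
        simp only [Sum.elim_inl, pl, Sum.map_inr, Prod.map, Hq, id]
      · by_cases hx' : x = q'
        · subst hx'
          refine ⟨.inl (.inr ⟨u, i0, ht⟩), fun L i j => ?_⟩
          simp only [Sum.elim_inl, Sum.elim_inr, pl, Sum.map_inr, Prod.map, Hq', id]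
        · refine ⟨.inr i0, fun L i j => ?_⟩
          simp only [Sum.elim_inr, ht, pl, Sum.map_inr, Prod.map, Ho _ _ _ _ hx hx', id]
  choose β hβ using key
  have hev : ∀ L i j : ℕ, a.ev Λ.A (Sum.elim (Sum.elim
      (fun u : {u : Co l k // ∃ i, t i = .inr (q, u)} => Λ.el (.inr (L * h q + i, u.1)))
        (fun u : {u : Co l k // ∃ i, t i = .inr (q', u)} => Λ.el (.inr (L * h q + j, u.1))))
        (fun e => Λ.el (pl (fun x => L * h x) (t e))) ∘ β) ↔
      a.ev Λ.A (Λ.el ∘ pl (H L i j) ∘ t) := by
    intro L i j
    have : (Sum.elim (Sum.elim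
      (fun u : {u : Co l k // ∃ i, t i = .inr (q, u)} => Λ.el (.inr (L * h q + i, u.1)))
        (fun u : {u : Co l k // ∃ i, t i = .inr (q', u)} => Λ.el (.inr (L * h q + j, u.1))))
        (fun e => Λ.el (pl (fun x => L * h x) (t e))) ∘ β) = Λ.el ∘ pl (H L i j) ∘ t := by
      funext i0
      exact hβ i0 L i j
    rw [this]
  by_cases hT : a.ev Λ.A (Λ.el ∘ pl h ∘ t)
  · have hT2 : ¬ a.ev Λ.A (Λ.el ∘ pl h2 ∘ t) := fun h3 => hne ⟨fun _ => h3, fun _ => hT⟩
    refine And.symm (op_of_ladders (M0 := M0) a β (fun n => ⟨N, Λ.A,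
      (fun i u => Λ.el (.inr ((n + 1) * h q + i, u.1))),
      (fun j u => Λ.el (.inr ((n + 1) * h q + j, u.1))),
      (fun e => Λ.el (pl (fun x => (n + 1) * h x) (t e))), Λ.inC, ?_⟩))
    intro i j hij
    rw [hev (n + 1) i j]
    have hin : (i : ℕ) < n + 1 := by omega
    have hjn : (j : ℕ) < n + 1 := by omega
    rcases lt_or_gt_of_ne hij with hlt | hlt
    · exact ⟨fun _ => hlt, fun _ => (tv1 _ _ _ hin hjn hlt).1 hT⟩
    · exact ⟨fun h3 => absurd ((tv2 _ _ _ hin hjn hlt).2 h3) hT2,
        fun h3 => absurd h3 (lt_asymm hlt)⟩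
  · have hT2 : a.ev Λ.A (Λ.el ∘ pl h2 ∘ t) := by
      by_contra h3
      exact hne ⟨fun h4 => absurd h4 hT, fun h4 => absurd h4 h3⟩
    refine And.symm (op_of_ladders' (M0 := M0) a β (fun n => ⟨N, Λ.A,
      (fun i u => Λ.el (.inr ((n + 1) * h q + i, u.1))),
      (fun j u => Λ.el (.inr ((n + 1) * h q + j, u.1))),
      (fun e => Λ.el (pl (fun x => (n + 1) * h x) (t e))), Λ.inC, ?_⟩))
    intro i j hij
    rw [hev (n + 1) i j]
    have hin : (i : ℕ) < n + 1 := by omega
    have hjn : (j : ℕ) < n + 1 := by omega
    rcases lt_or_gt_of_ne hij with hlt | hlt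
    · exact ⟨fun h3 => absurd ((tv1 _ _ _ hin hjn hlt).2 h3) hT,
        fun h3 => absurd h3 (lt_asymm hlt)⟩
    · exact ⟨fun _ => hlt, fun _ => (tv2 _ _ _ hin hjn hlt).1 hT2⟩

open Classical in
theorem flip (Λ : Lad M0 k l s p α P N) {Q : Type} [Finite Q] (a : At σ)
    (t : Fin a.ar → P ⊕ Q × Co l k) (h h' : Q → ℕ) (hi : Function.Injective h)
    (hi' : Function.Injective h')
    (hne : ¬ (a.ev Λ.A (Λ.el ∘ pl h ∘ t) ↔ a.ev Λ.A (Λ.el ∘ pl h' ∘ t))) :
    ∃ q q' : Q, h q < h q' ∧ h' q' < h' q ∧
      OP M0 (Nat.card {u : Co l k // ∃ i, t i = .inr (q, u)})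
        (Nat.card {u : Co l k // ∃ i, t i = .inr (q', u)}) ∧
      OP M0 (Nat.card {u : Co l k // ∃ i, t i = .inr (q', u)})
        (Nat.card {u : Co l k // ∃ i, t i = .inr (q, u)}) := by
  suffices hmain : ∀ (n : ℕ) (h : Q → ℕ), Function.Injective h →
      {x : Q × Q | h x.1 < h x.2 ∧ h' x.2 < h' x.1}.ncard ≤ n →
      ¬ (a.ev Λ.A (Λ.el ∘ pl h ∘ t) ↔ a.ev Λ.A (Λ.el ∘ pl h' ∘ t)) →
      ∃ q q' : Q, h q < h q' ∧ h' q' < h' q ∧
        OP M0 (Nat.card {u : Co l k // ∃ i, t i = .inr (q, u)})
          (Nat.card {u : Co l k // ∃ i, t i = .inr (q', u)}) ∧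
        OP M0 (Nat.card {u : Co l k // ∃ i, t i = .inr (q', u)})
          (Nat.card {u : Co l k // ∃ i, t i = .inr (q, u)}) from
    hmain _ h hi le_rfl hne
  clear hne hi h
  intro n
  induction n with
  | zero =>
    intro h hi hn hne
    exfalso
    have he : {x : Q × Q | h x.1 < h x.2 ∧ h' x.2 < h' x.1} = ∅ :=
      (Set.ncard_eq_zero (Set.toFinite _)).1 (Nat.le_zero.1 hn)
    apply hne
    apply flip_congr Λ a t h h' hi
    intro x y hxy
    have hx : (x, y) ∉ {x : Q × Q | h x.1 < h x.2 ∧ h' x.2 < h' x.1} := by
      rw [he]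
      exact Set.notMem_empty _
    rcases lt_trichotomy (h' x) (h' y) with h1 | h1 | h1
    · exact h1
    · have := hi' h1
      subst this
      exact absurd hxy (lt_irrefl _)
    · exact absurd ⟨hxy, h1⟩ hx
  | succ n ih =>
    intro h hi hn hne
    by_cases hemp : {x : Q × Q | h x.1 < h x.2 ∧ h' x.2 < h' x.1} = ∅
    · apply ih h hi _ hne
      rw [hemp, Set.ncard_empty]
      exact Nat.zero_le _
    · obtain ⟨⟨q, q'⟩, hmem, hmin⟩ := Set.exists_min_image
        {x : Q × Q | h x.1 < h x.2 ∧ h' x.2 < h' x.1} (fun x => h x.2 - h x.1)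
        (Set.toFinite _) (Set.nonempty_iff_ne_empty.2 hemp)
      obtain ⟨hqq, hqq'⟩ := hmem
      simp only at hqq hqq' hmin
      have hadj : ∀ x, h q < h x → h x < h q' → False := by
        intro x h1 h2
        by_cases h3 : h' x < h' q
        · have := hmin (q, x) ⟨h1, h3⟩
          simp only at this
          omega
        · have := hmin (x, q') ⟨h2, by simp only; omega⟩
          simp only at this
          omega
      have hneq : q' ≠ q := by
        rintro rfl
        exact lt_irrefl _ hqq
      set h2 : Q → ℕ := fun x => h (Equiv.swap q q' x) with hh2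
      have hi2 : Function.Injective h2 := hi.comp (Equiv.injective _)
      have h2q : h2 q = h q' := by simp [hh2]
      have h2q' : h2 q' = h q := by simp [hh2]
      have h2o : ∀ x, x ≠ q → x ≠ q' → h2 x = h x := by
        intro x hx hx'
        simp only [hh2]
        rw [Equiv.swap_apply_of_ne_of_ne hx hx']
      have hsub : ∀ x y, h2 x < h2 y → h' y < h' x → h x < h y := by
        intro x y hxy hxy'
        by_cases hx : x = q
        · subst hx
          rw [h2q] at hxy
          by_cases hy : y = q'
          · subst hy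
            exact hqq
          · have hy' : y ≠ x := by
              rintro rfl
              exact lt_irrefl _ hxy'
            rw [h2o y hy' hy] at hxy
            exact hqq.trans hxy
        · by_cases hx' : x = q'
          · subst hx'
            rw [h2q'] at hxy
            by_cases hy : y = q
            · subst hy
              exact absurd hxy' (lt_asymm hqq')
            · have hy' : y ≠ x := by
                rintro rfl
                exact lt_irrefl _ hxy'
              rw [h2o y hy hy'] at hxy
              rcases lt_trichotomy (h y) (h x) with h1 | h1 | h1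
              · exact (hadj y hxy h1).elim
              · exact absurd (hi h1) hy'
              · exact h1
          · rw [h2o x hx hx'] at hxy
            by_cases hy : y = q
            · subst hy
              rw [h2q] at hxy
              rcases lt_trichotomy (h x) (h y) with h1 | h1 | h1
              · exact h1
              · exact absurd (hi h1) hx
              · exact (hadj x h1 hxy).elim
            · by_cases hy' : y = q'
              · subst hy'
                rw [h2q'] at hxy
                exact hxy.trans hqq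
              · rw [h2o y hy hy'] at hxy
                exact hxy
      by_cases hT : (a.ev Λ.A (Λ.el ∘ pl h ∘ t) ↔ a.ev Λ.A (Λ.el ∘ pl h2 ∘ t))
      · have hne2 : ¬ (a.ev Λ.A (Λ.el ∘ pl h2 ∘ t) ↔ a.ev Λ.A (Λ.el ∘ pl h' ∘ t)) :=
          fun h3 => hne (hT.trans h3)
        have hss : {x : Q × Q | h2 x.1 < h2 x.2 ∧ h' x.2 < h' x.1} ⊂
            {x : Q × Q | h x.1 < h x.2 ∧ h' x.2 < h' x.1} := by
          refine ⟨fun x hx => ⟨hsub x.1 x.2 hx.1 hx.2, hx.2⟩, fun hcon => ?_⟩
          have h3 := hcon (show (q, q') ∈ {x : Q × Q | h x.1 < h x.2 ∧ h' x.2 < h' x.1} from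
            ⟨hqq, hqq'⟩)
          have h4 : h2 q < h2 q' := h3.1
          rw [h2q, h2q'] at h4
          exact lt_asymm h4 hqq
        have hlt := Set.ncard_lt_ncard hss (Set.toFinite _)
        obtain ⟨x, y, h3, h4, h5, h6⟩ := ih h2 hi2 (by omega) hne2
        exact ⟨x, y, hsub x y h3 h4, h4, h5, h6⟩
      · exact ⟨q, q', hqq, hqq', flip_adj Λ a t h h2 hi hi2 q q' hqq hadj h2q h2q' h2o hT⟩

end Pool.Agent.Helper89.EA
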