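import Pool.Agent.Helper89.EA.U.U4a

/-!
# Project EA, piece U4b: the flip lemma in the structure `star Λ Y`

Proof.  Apply `not_st_at`-style reasoning: let `Q` be the type of the indices of `v`
(`Q = {q : I // q ∈ Idx v}`, finite), `t : Fin a.ar → P ⊕ Q × Co l k` the tuple `v ∘ β`; by the
hypotheses `hcd, hco` there is an injective map `φ : Q → I` with `v' i = pl φ (v i)`, namely
`φ q = ` the index of `v' i` for any `i` with `(v i).ix = some q`.  Choose `g : I → ℕ` strictly
monotone on the finite set `Idx v ∪ Idx v'`, and apply `flip` with `h = g ∘ Subtype.val`,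
`h' = g ∘ φ`, using `star_st`.  The sets of coordinates in `flip` are subsets of the sets `pos`
below (`v` has more entries than `v ∘ β`), so the inequalities follow with the minimality: e.g. if
`Set.ncard (pos i) = k` then `k ≤ card_small i ≤ k`, so `OP M0 k (card_small j)` and
`l ≤ card_small j ≤ Set.ncard (pos j)`.
-/

namespace Pool.Agent.Helper89.EA

variable {σ : Sig} {M N P I : Type} {M0 : RS σ M} {k l p : ℕ} {s : σ.Sy}
  {α : Fin (σ.ar s) → (Fin l ⊕ Fin k) ⊕ Fin p}

/-- the coordinates used by the tuple `v` at the index of `v i` -/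
def pos {Y : I → Prop} {ι : Type} (v : ι → Car P I l k Y) (i : ι) : Set (Co l k) :=
  {u | ∃ i', (v i').ix = (v i).ix ∧ (v i').cd = .inr u}

private theorem exists_mono (I : Type) [LinearOrder I] (F : Set I) (hF : F.Finite) :
    ∃ g : I → ℕ, StrictMonoOn g F := by
  classical
  refine ⟨fun q => (hF.toFinset.filter (· < q)).card, ?_⟩
  intro q hq q' _ hlt
  refine Finset.card_lt_card ?_
  rw [Finset.ssubset_iff_of_subset]
  · refine ⟨q, ?_, ?_⟩
    · rw [Finset.mem_filter, Set.Finite.mem_toFinset]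
      exact ⟨hq, hlt⟩
    · rw [Finset.mem_filter]
      exact fun h => lt_irrefl _ h.2
  · intro x hx
    rw [Finset.mem_filter] at hx ⊢
    exact ⟨hx.1, hx.2.trans hlt⟩

private theorem idx_finite {Y : I → Prop} {ι : Type} [Finite ι] (v : ι → Car P I l k Y) :
    (Idx v).Finite := by
  have h : (Set.range (fun i => (v i).ix)).Finite := Set.finite_range _
  have h2 := h.preimage (f := (some : I → Option I)) (Option.some_injective I).injOn
  refine h2.subset ?_
  rintro q ⟨i, hi⟩
  exact ⟨i, hi⟩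

private theorem ix_eq {Y : I → Prop} (t : Car P I l k Y) (q : I) :
    t.ix = some q ↔ ∃ u, t.1 = .inr (q, u) := by
  obtain ⟨t, ht⟩ := t
  rcases t with e | ⟨q', u'⟩
  · simp [Car.ix]
  · simp [Car.ix]

theorem car_flip (hmin : IsMinOP M0 k l) (Λ : Lad M0 k l s p α P N) [LinearOrder I] {Y : I → Prop}
    {ι : Type} [Finite ι] (v v' : ι → Car P I l k Y) (hcd : ∀ i, (v i).cd = (v' i).cd)
    (hco : ∀ i j, (v i).ix = (v j).ix ↔ (v' i).ix = (v' j).ix)
    (hne : ¬ ST (star Λ Y) (star Λ Y) v v') :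
    ∃ i j, (v i).Lt (v j) ∧ (v' j).Lt (v' i) ∧ k ≤ (pos v i).ncard ∧ k ≤ (pos v j).ncard ∧
      ((pos v i).ncard = k → l ≤ (pos v j).ncard) ∧
      ((pos v j).ncard = k → l ≤ (pos v i).ncard) := by
  classical
  obtain ⟨g, hg⟩ := exists_mono I (Idx v ∪ Idx v') ((idx_finite v).union (idx_finite v'))
  have hgv : StrictMonoOn g (Idx v) := hg.mono Set.subset_union_left
  have hgv' : StrictMonoOn g (Idx v') := hg.mono Set.subset_union_right
  have hne' : ¬ ST Λ.A Λ.A (fun i => Λ.el (pl g (v i).1)) (fun i => Λ.el (pl g (v' i).1)) := by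
    intro h
    exact hne (st_trans (star_st Λ v g hgv) (st_trans h (st_symm (star_st Λ v' g hgv'))))
  obtain ⟨a, β, hβ⟩ := not_st_at hne'
  -- the classes of indices
  let Q : Type := {q : I // q ∈ Idx v}
  have : Finite Q := (idx_finite v).to_subtype
  have hQ : ∀ q : Q, ∃ i, (v i).ix = some q.1 := fun q => q.2
  choose ι0 hι0 using hQ
  have hφe : ∀ q : Q, ∃ r : I, (v' (ι0 q)).ix = some r := by
    intro q
    obtain ⟨u, hu⟩ := (ix_eq _ _).1 (hι0 q)
    have h1 := hcd (ι0 q)
    have h2 : (v (ι0 q)).cd = .inr u := by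
      simp only [Car.cd, hu]
    rw [h2] at h1
    revert h1
    rcases h3 : (v' (ι0 q)).1 with e | ⟨r, u'⟩
    · intro h1
      simp only [Car.cd, h3] at h1
      exact absurd h1 (by simp)
    · intro _
      exact ⟨r, (ix_eq _ _).2 ⟨u', h3⟩⟩
  choose φ hφ using hφe
  have hφi : Function.Injective φ := by
    intro q q' h
    have h1 : (v' (ι0 q)).ix = (v' (ι0 q')).ix := by rw [hφ, hφ, h]
    have h2 := (hco _ _).2 h1
    rw [hι0, hι0] at h2
    exact Subtype.ext (Option.some.inj h2)
  have hφv : ∀ q : Q, φ q ∈ Idx v' := fun q => ⟨ι0 q, hφ q⟩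
  let t0 : ι → P ⊕ Q × Co l k := fun i =>
    match h : (v i).1 with
    | .inl e => .inl e
    | .inr (q, u) => .inr (⟨q, i, (ix_eq _ _).2 ⟨u, h⟩⟩, u)
  have ht1 : ∀ i, pl g (v i).1 = pl (g ∘ Subtype.val) (t0 i) := by
    intro i
    simp only [t0]
    split
    · next e h => exact congrArg (pl g) h
    · next q u h => exact congrArg (pl g) h
  have ht2 : ∀ i, pl g (v' i).1 = pl (g ∘ φ) (t0 i) := by
    intro i
    simp only [t0]
    split
    · next e h =>
      have h1 := hcd i
      simp only [Car.cd, h] at h1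
      rcases h3 : (v' i).1 with e' | ⟨r, u'⟩
      · simp only [h3] at h1
        rw [Sum.inl.inj h1]
        rfl
      · simp only [h3] at h1
        exact absurd h1 (by simp)
    · next q u h =>
      have h1 := hcd i
      simp only [Car.cd, h] at h1
      rcases h3 : (v' i).1 with e' | ⟨r, u'⟩
      · simp only [h3] at h1
        exact absurd h1 (by simp)
      · simp only [h3] at h1
        have h4 : u = u' := Sum.inr.inj h1
        have h5 : (v i).ix = some q := (ix_eq _ _).2 ⟨u, h⟩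
        have h6 : (v' i).ix = some r := (ix_eq _ _).2 ⟨u', h3⟩
        let q0 : Q := ⟨q, i, h5⟩
        have h7 : (v i).ix = (v (ι0 q0)).ix := by rw [hι0, h5]
        have h8 := (hco _ _).1 h7
        rw [h6, hφ] at h8
        have h9 : r = φ q0 := Option.some.inj h8
        rw [← h4, h9]
        rfl
  have e1 : (fun i => Λ.el (pl g (v i).1)) ∘ β = Λ.el ∘ pl (g ∘ Subtype.val) ∘ (t0 ∘ β) := by
    funext i
    simp only [Function.comp_apply]
    rw [ht1]
  have e2 : (fun i => Λ.el (pl g (v' i).1)) ∘ β = Λ.el ∘ pl (g ∘ φ) ∘ (t0 ∘ β) := by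
    funext i
    simp only [Function.comp_apply]
    rw [ht2]
  rw [e1, e2] at hβ
  obtain ⟨q, q', hlt, hlt', hop, hop'⟩ := flip Λ a (t0 ∘ β) (g ∘ Subtype.val) (g ∘ φ)
    (fun x y hxy => Subtype.ext (hgv.injOn x.2 y.2 hxy))
    (fun x y hxy => hφi (hgv'.injOn (hφv x) (hφv y) hxy)) hβ
  have hsub : ∀ q : Q, Nat.card {u : Co l k // ∃ i, (t0 ∘ β) i = .inr (q, u)} ≤
      (pos v (ι0 q)).ncard := by
    intro q
    have h1 : {u : Co l k | ∃ i, (t0 ∘ β) i = .inr (q, u)} ⊆ pos v (ι0 q) := by
      rintro u ⟨i, hi⟩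
      refine ⟨β i, ?_, ?_⟩
      · rw [hι0]
        simp only [Function.comp_apply, t0] at hi
        split at hi
        · exact absurd hi (by simp)
        · next q1 u1 h =>
          have h2 := Sum.inr.inj hi
          rw [Prod.mk.injEq] at h2
          refine (ix_eq _ _).2 ⟨u1, ?_⟩
          rw [h, ← h2.1]
      · simp only [Function.comp_apply, t0] at hi
        split at hi
        · exact absurd hi (by simp)
        · next q1 u1 h =>
          have h2 := Sum.inr.inj hi
          rw [Prod.mk.injEq] at h2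
          simp only [Car.cd, h]
          rw [h2.2]
    exact Set.ncard_le_ncard h1 (Set.toFinite _)
  have hk1 := hmin.2.1 _ _ hop
  have hk2 := hmin.2.1 _ _ hop'
  have hs1 := hsub q
  have hs2 := hsub q'
  refine ⟨ι0 q, ι0 q', ?_, ?_, hk1.trans hs1, hk2.trans hs2, ?_, ?_⟩
  · exact ⟨q.1, q'.1, hι0 q, hι0 q', (hgv.lt_iff_lt q.2 q'.2).1 hlt⟩
  · exact ⟨φ q', φ q, hφ q', hφ q, (hgv'.lt_iff_lt (hφv q') (hφv q)).1 hlt'⟩
  · intro h
    have h1 : Nat.card {u : Co l k // ∃ i, (t0 ∘ β) i = .inr (q, u)} = k := by omega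
    rw [h1] at hop
    exact (hmin.2.2 _ hop).trans hs2
  · intro h
    have h1 : Nat.card {u : Co l k // ∃ i, (t0 ∘ β) i = .inr (q', u)} = k := by omega
    rw [h1] at hop'
    exact (hmin.2.2 _ hop').trans hs1

end Pool.Agent.Helper89.EA
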