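import Pool.Agent.Helper89.EA.U.U4b

/-!
# Project EA, piece U4c: two consequences of the flip lemma

`fl1`.  Apply `car_flip` to the tuples `Sum.elim (Sum.elim w z) c` and `Sum.elim (Sum.elim w' z) c`
(`Rl` is the truth value of an atom, so the types are different).  The hypotheses say that the
index of `w` is not an index of `z, c` for both placements.  The inverted pair cannot consist of
two entries of `z, c`, nor of two entries of `w`; so it consists of an entry of `w` and an entry of
`z` or `c` at an index `q` strictly between `q0` and `q1`; by `hJ` it is not an index of `c`, so all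
entries of the tuple at `q` are entries of `z`.  There are at least `k` different coordinates, so
all `k` entries of `z` are at `q`, and they are different: `Pure z q`.

`mv_lemma`.  Apply `car_flip` to `Sum.elim (Sum.elim w z) c` and `Sum.elim (Sum.elim w z') c`.  An
inverted pair cannot consist of two entries of `w, c` (not moved), nor of two entries of `z`
(hypothesis `hzz`), nor of an entry of `z` and one of `c` (hypothesis `hzc`).  So it consists of
`z b` and `w a`.  If the index of `z b` was also an index of `c` or of `w` then `z' b` would have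
the same index (by `hzc` resp. `hzw`; two non-`P` points have the same index iff neither `Lt`
holds), and nothing would be inverted.  So all entries at the index `v` of `z b` are entries of
`z`, there are at least `k` of them, and `z` is pure at `v`; then `z'` is pure at the index of
`z' b`.  Hence `(pos z b).ncard = k` and there are at least `l` coordinates at the index `i0` of
`w a`.  `i0` is not an index of `z` (all of them are at `v`), nor of `c` (since `z b < c e` and
`c e < z' b` contradicts `hzc`), so `w` is pure at `i0`.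
-/

namespace Pool.Agent.Helper89.EA

variable {σ : Sig} {M N P I : Type} {M0 : RS σ M} {k l p : ℕ} {s : σ.Sy}
  {α : Fin (σ.ar s) → (Fin l ⊕ Fin k) ⊕ Fin p}

private theorem ix_none_iff {Y : I → Prop} (t : Car P I l k Y) :
    t.ix = none ↔ ∃ e, t.cd = .inl e := by
  obtain ⟨t, ht⟩ := t
  rcases t with e | ⟨q, u⟩
  · simp [Car.ix, Car.cd]
  · simp [Car.ix, Car.cd]

private theorem car_ext {Y : I → Prop} {t t' : Car P I l k Y} (h1 : t.ix = t'.ix)
    (h2 : t.cd = t'.cd) : t = t' := by
  obtain ⟨t, ht⟩ := t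
  obtain ⟨t', ht'⟩ := t'
  apply Subtype.ext
  rcases t with e | ⟨q, u⟩ <;> rcases t' with e' | ⟨q', u'⟩
  · simp only [Car.cd, Sum.inl.injEq] at h2
    simp only [h2]
  · simp [Car.cd] at h2
  · simp [Car.cd] at h2
  · simp only [Car.cd, Sum.inr.injEq] at h2
    simp only [Car.ix, Option.some.injEq] at h1
    simp only [h1, h2]

private theorem lt_asymm' [LinearOrder I] {Y : I → Prop} {t t' : Car P I l k Y} (h : t.Lt t')
    (h' : t'.Lt t) : False := by
  obtain ⟨q, q', h1, h2, h3⟩ := h
  obtain ⟨r, r', h4, h5, h6⟩ := h'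
  have e1 : q' = r := Option.some.inj (h2.symm.trans h4)
  have e2 : q = r' := Option.some.inj (h1.symm.trans h5)
  subst e1 e2
  exact lt_asymm h3 h6

private theorem lt_of_ix [LinearOrder I] {Y : I → Prop} {t t' : Car P I l k Y} {q q' : I}
    (h : t.ix = some q) (h' : t'.ix = some q') : t.Lt t' ↔ q < q' := by
  constructor
  · rintro ⟨r, r', h1, h2, h3⟩
    have e1 : q = r := Option.some.inj (h.symm.trans h1)
    have e2 : q' = r' := Option.some.inj (h'.symm.trans h2)
    rwa [e1, e2]
  · intro h3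
    exact ⟨q, q', h, h', h3⟩

private theorem ix_eq_iff [LinearOrder I] {Y : I → Prop} (t t' : Car P I l k Y) :
    t.ix = t'.ix ↔ (t.ix = none ↔ t'.ix = none) ∧ ¬ t.Lt t' ∧ ¬ t'.Lt t := by
  constructor
  · intro h
    refine ⟨by rw [h], ?_, ?_⟩
    · rintro ⟨q, q', h1, h2, h3⟩
      rw [h, h2] at h1
      exact absurd (Option.some.inj h1) h3.ne'
    · rintro ⟨q, q', h1, h2, h3⟩
      rw [h, h1] at h2
      exact absurd (Option.some.inj h2) h3.ne
  · rintro ⟨h1, h2, h3⟩
    rcases h : t.ix with _ | q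
    · exact (h1.1 h).symm
    · rcases h' : t'.ix with _ | q'
      · rw [h1.2 h'] at h
        exact absurd h (by simp)
      · rw [lt_of_ix h h'] at h2
        rw [lt_of_ix h' h] at h3
        rw [le_antisymm (not_lt.1 h3) (not_lt.1 h2)]

/-- the coordinates of a tuple at one index: at most the length of the tuple, and if there are so
many then the tuple is pure -/
private theorem pure_of_le {Y : I → Prop} {m : ℕ} (y : Fin m → Car P I l k Y) (q : I)
    (S : Set (Co l k)) (hS : ∀ u ∈ S, ∃ b, (y b).ix = some q ∧ (y b).cd = .inr u) :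
    S.ncard ≤ m ∧ (m ≤ S.ncard → Pure y q) := by
  classical
  set f : Fin m → Option (Co l k) := fun b =>
    if (y b).ix = some q then (match (y b).cd with | .inl _ => none | .inr u => some u) else none
    with hf
  have hsub : S.image some ⊆ ((Finset.univ.image f : Finset (Option (Co l k))) : Set _) := by
    rintro _ ⟨u, hu, rfl⟩
    obtain ⟨b, hb1, hb2⟩ := hS u hu
    rw [Finset.coe_image, Finset.coe_univ, Set.image_univ]
    refine ⟨b, ?_⟩
    simp only [hf, hb1, if_true, hb2]
  have hcard : S.ncard = (S.image some).ncard :=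
    (Set.ncard_image_of_injective S (Option.some_injective _)).symm
  have hle : (S.image some).ncard ≤ (Finset.univ.image f).card := by
    rw [← Set.ncard_coe_finset]
    exact Set.ncard_le_ncard hsub (Finset.finite_toSet _)
  have hle2 : (Finset.univ.image f).card ≤ m := by
    refine Finset.card_image_le.trans ?_
    rw [Finset.card_univ, Fintype.card_fin]
  refine ⟨by omega, fun hm => ?_⟩
  have heq : (Finset.univ.image f).card = (Finset.univ : Finset (Fin m)).card := by
    rw [Finset.card_univ, Fintype.card_fin]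
    omega
  have hinj : Function.Injective f := by
    intro b b' hbb
    exact Finset.card_image_iff.1 heq (Finset.mem_coe.2 (Finset.mem_univ b))
      (Finset.mem_coe.2 (Finset.mem_univ b')) hbb
  have hset : S.image some = ((Finset.univ.image f : Finset (Option (Co l k))) : Set _) := by
    refine Set.eq_of_subset_of_ncard_le hsub ?_ (Finset.finite_toSet _)
    rw [Set.ncard_coe_finset]
    omega
  refine ⟨fun b => ?_, fun b b' hbb => hinj (by simp only [hf, hbb])⟩
  have h1 : f b ∈ S.image some := by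
    rw [hset, Finset.coe_image, Finset.coe_univ, Set.image_univ]
    exact ⟨b, rfl⟩
  obtain ⟨u, _, hu⟩ := h1
  by_contra hcon
  simp only [hf, if_neg hcon] at hu
  exact absurd hu (by simp)

/-- `FL1` : moving a pure tuple `w` -/
theorem fl1 (hmin : IsMinOP M0 k l) (Λ : Lad M0 k l s p α P N) [LinearOrder I] {Y : I → Prop}
    (w w' : Fin l → Car P I l k Y) (z : Fin k → Car P I l k Y) (c : Fin p → Car P I l k Y)
    (q0 q1 : I) (h01 : q0 < q1) (hw : Pure w q0) (hw' : Pure w' q1)
    (hcd : ∀ i, (w i).cd = (w' i).cd) (hz0 : q0 ∉ Idx z) (hz1 : q1 ∉ Idx z) (hc0 : q0 ∉ Idx c)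
    (hc1 : q1 ∉ Idx c) (hJ : ∀ q ∈ Idx c, ¬ (q0 < q ∧ q < q1))
    (hne : ¬ (Rl α (star Λ Y) w z c ↔ Rl α (star Λ Y) w' z c)) :
    ∃ q, q0 < q ∧ q < q1 ∧ Pure z q := by
  have hwz : ∀ a b, (w a).ix ≠ (z b).ix := fun a b h =>
    hz0 ⟨b, h.symm.trans (hw.1 a)⟩
  have hwz' : ∀ a b, (w' a).ix ≠ (z b).ix := fun a b h =>
    hz1 ⟨b, h.symm.trans (hw'.1 a)⟩
  have hwc : ∀ a e, (w a).ix ≠ (c e).ix := fun a e h =>
    hc0 ⟨e, h.symm.trans (hw.1 a)⟩
  have hwc' : ∀ a e, (w' a).ix ≠ (c e).ix := fun a e h =>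
    hc1 ⟨e, h.symm.trans (hw'.1 a)⟩
  obtain ⟨i, j, hij, hji, -, hkj, -, -⟩ := car_flip hmin Λ
    (Sum.elim (Sum.elim w z) c) (Sum.elim (Sum.elim w' z) c)
    (by
      rintro ((a | b) | e)
      · exact hcd a
      · rfl
      · rfl)
    (by
      rintro ((a | b) | e) ((a' | b') | e')
      · simp only [Sum.elim_inl, hw.1, hw'.1]
      · exact iff_of_false (hwz a b') (hwz' a b')
      · exact iff_of_false (hwc a e') (hwc' a e')
      · exact iff_of_false (fun h => hwz a' b h.symm) (fun h => hwz' a' b h.symm)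
      · exact Iff.rfl
      · exact Iff.rfl
      · exact iff_of_false (fun h => hwc a' e h.symm) (fun h => hwc' a' e h.symm)
      · exact Iff.rfl
      · exact Iff.rfl)
    (fun hst => hne (hst.2 s α))
  rcases i with (a | b) | e <;> rcases j with (a' | b') | e'
  · -- w, w
    have h1 := (lt_of_ix (hw.1 a) (hw.1 a')).1 hij
    exact absurd h1 (lt_irrefl _)
  · -- w, z
    obtain ⟨r, q, h1, h2, h3⟩ := hij
    obtain ⟨q', r', h4, h5, h6⟩ := hji
    simp only [Sum.elim_inl, Sum.elim_inr] at h1 h2 h4 h5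
    have e1 : q0 = r := Option.some.inj ((hw.1 a).symm.trans h1)
    have e2 : q1 = r' := Option.some.inj ((hw'.1 a).symm.trans h5)
    have e3 : q = q' := Option.some.inj (h2.symm.trans h4)
    subst e1 e2 e3
    refine ⟨q, h3, h6, (pure_of_le z q _ ?_).2 hkj⟩
    rintro u ⟨i', hi1, hi2⟩
    simp only [Sum.elim_inl, Sum.elim_inr, h2] at hi1
    rcases i' with (a'' | b'') | e''
    · simp only [Sum.elim_inl, hw.1] at hi1
      exact absurd (Option.some.inj hi1) h3.ne
    · exact ⟨b'', hi1, hi2⟩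
    · exact absurd ⟨h3, h6⟩ (hJ q ⟨e'', hi1⟩)
  · -- w, c
    obtain ⟨r, q, h1, h2, h3⟩ := hij
    obtain ⟨q', r', h4, h5, h6⟩ := hji
    simp only [Sum.elim_inl, Sum.elim_inr] at h1 h2 h4 h5
    have e1 : q0 = r := Option.some.inj ((hw.1 a).symm.trans h1)
    have e2 : q1 = r' := Option.some.inj ((hw'.1 a).symm.trans h5)
    have e3 : q = q' := Option.some.inj (h2.symm.trans h4)
    subst e1 e2 e3
    exact absurd ⟨h3, h6⟩ (hJ q ⟨e', h2⟩)
  · -- z, w
    obtain ⟨q, r, h1, h2, h3⟩ := hij
    obtain ⟨r', q', h4, h5, h6⟩ := hji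
    simp only [Sum.elim_inl, Sum.elim_inr] at h1 h2 h4 h5
    have e1 : q0 = r := Option.some.inj ((hw.1 a').symm.trans h2)
    have e2 : q1 = r' := Option.some.inj ((hw'.1 a').symm.trans h4)
    have e3 : q = q' := Option.some.inj (h1.symm.trans h5)
    subst e1 e2 e3
    exact absurd (h6.trans h3) (not_lt.2 h01.le)
  · exact (lt_asymm' hij hji).elim
  · exact (lt_asymm' hij hji).elim
  · -- c, w
    obtain ⟨q, r, h1, h2, h3⟩ := hij
    obtain ⟨r', q', h4, h5, h6⟩ := hji
    simp only [Sum.elim_inl, Sum.elim_inr] at h1 h2 h4 h5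
    have e1 : q0 = r := Option.some.inj ((hw.1 a').symm.trans h2)
    have e2 : q1 = r' := Option.some.inj ((hw'.1 a').symm.trans h4)
    have e3 : q = q' := Option.some.inj (h1.symm.trans h5)
    subst e1 e2 e3
    exact absurd (h6.trans h3) (not_lt.2 h01.le)
  · exact (lt_asymm' hij hji).elim
  · exact (lt_asymm' hij hji).elim

/-- `MV` : moving `z` -/
theorem mv_lemma (hmin : IsMinOP M0 k l) (Λ : Lad M0 k l s p α P N) [LinearOrder I] {Y : I → Prop}
    (w : Fin l → Car P I l k Y) (z z' : Fin k → Car P I l k Y) (c : Fin p → Car P I l k Y)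
    (hcd : ∀ i, (z i).cd = (z' i).cd)
    (hzz : ∀ i j, (z i).Lt (z j) ↔ (z' i).Lt (z' j))
    (hzc : ∀ i e, ((z i).Lt (c e) ↔ (z' i).Lt (c e)) ∧ ((c e).Lt (z i) ↔ (c e).Lt (z' i)))
    (hzw : ∀ i a, (z i).ix = (w a).ix ↔ (z' i).ix = (w a).ix)
    (hne : ¬ (Rl α (star Λ Y) w z c ↔ Rl α (star Λ Y) w z' c)) :
    ∃ v v' i0, Pure z v ∧ Pure z' v' ∧ Pure w i0 ∧ ((v < i0 ∧ i0 < v') ∨ (v' < i0 ∧ i0 < v)) ∧
      v ∉ Idx c ∧ v' ∉ Idx c ∧ i0 ∉ Idx c := by
  have hnone : ∀ i, ((z i).ix = none ↔ (z' i).ix = none) := fun i => by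
    rw [ix_none_iff, ix_none_iff, hcd i]
  have hzzi : ∀ i j, (z i).ix = (z j).ix ↔ (z' i).ix = (z' j).ix := fun i j => by
    rw [ix_eq_iff, ix_eq_iff, hnone i, hnone j, hzz i j, hzz j i]
  have hzci : ∀ i e, (z i).ix = (c e).ix ↔ (z' i).ix = (c e).ix := fun i e => by
    rw [ix_eq_iff, ix_eq_iff, hnone i, (hzc i e).1, (hzc i e).2]
  -- the main case
  have main : ∀ (b : Fin k) (a : Fin l) (v v' i0 : I), (z b).ix = some v → (z' b).ix = some v' →
      (w a).ix = some i0 → ((v < i0 ∧ i0 < v') ∨ (v' < i0 ∧ i0 < v)) →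
      k ≤ (pos (Sum.elim (Sum.elim w z) c) (.inl (.inr b))).ncard →
      ((pos (Sum.elim (Sum.elim w z) c) (.inl (.inr b))).ncard = k →
        l ≤ (pos (Sum.elim (Sum.elim w z) c) (.inl (.inl a))).ncard) →
      ∃ v v' i0, Pure z v ∧ Pure z' v' ∧ Pure w i0 ∧
        ((v < i0 ∧ i0 < v') ∨ (v' < i0 ∧ i0 < v)) ∧
        v ∉ Idx c ∧ v' ∉ Idx c ∧ i0 ∉ Idx c := by
    intro b a v v' i0 hv hv' hi0 hor hk hl
    have hvv' : v ≠ v' := by
      rintro rfl
      rcases hor with ⟨h1, h2⟩ | ⟨h1, h2⟩
      · exact lt_asymm h1 h2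
      · exact lt_asymm h1 h2
    have hvi : v ≠ i0 := by
      rcases hor with ⟨h1, h2⟩ | ⟨h1, h2⟩
      · exact h1.ne
      · exact h2.ne'
    have hvc : v ∉ Idx c := by
      rintro ⟨e, he⟩
      have h1 := (hzci b e).1 (hv.trans he.symm)
      rw [hv', he] at h1
      exact hvv' (Option.some.inj h1).symm
    have hv'c : v' ∉ Idx c := by
      rintro ⟨e, he⟩
      have h1 := (hzci b e).2 (hv'.trans he.symm)
      rw [hv, he] at h1
      exact hvv' (Option.some.inj h1)
    have hi0c : i0 ∉ Idx c := by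
      rintro ⟨e, he⟩
      rcases hor with ⟨h1, h2⟩ | ⟨h1, h2⟩
      · have h3 := (hzc b e).1.1 ((lt_of_ix hv he).2 h1)
        exact lt_asymm h2 ((lt_of_ix hv' he).1 h3)
      · have h3 := (hzc b e).2.1 ((lt_of_ix he hv).2 h2)
        exact lt_asymm h1 ((lt_of_ix he hv').1 h3)
    have hpz : ∀ u ∈ pos (Sum.elim (Sum.elim w z) c) (.inl (.inr b)),
        ∃ b', (z b').ix = some v ∧ (z b').cd = .inr u := by
      rintro u ⟨i', hi1, hi2⟩
      simp only [Sum.elim_inl, Sum.elim_inr, hv] at hi1
      rcases i' with (a'' | b'') | e''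
      · simp only [Sum.elim_inl] at hi1
        have h1 := (hzw b a'').1 (hv.trans hi1.symm)
        rw [hv', hi1] at h1
        exact absurd (Option.some.inj h1).symm hvv'
      · exact ⟨b'', hi1, hi2⟩
      · exact absurd ⟨e'', hi1⟩ hvc
    obtain ⟨hle, hpure⟩ := pure_of_le z v _ hpz
    have hPz : Pure z v := hpure hk
    have hPz' : Pure z' v' := by
      refine ⟨fun i => ?_, fun i j hij => hPz.2 (car_ext ?_ ?_)⟩
      · have h1 := (hzzi i b).1 ((hPz.1 i).trans hv.symm)
        rw [h1, hv']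
      · rw [hPz.1 i, hPz.1 j]
      · rw [hcd i, hcd j, hij]
    have hpw : ∀ u ∈ pos (Sum.elim (Sum.elim w z) c) (.inl (.inl a)),
        ∃ a', (w a').ix = some i0 ∧ (w a').cd = .inr u := by
      rintro u ⟨i', hi1, hi2⟩
      simp only [Sum.elim_inl, hi0] at hi1
      rcases i' with (a'' | b'') | e''
      · exact ⟨a'', hi1, hi2⟩
      · simp only [Sum.elim_inl, Sum.elim_inr, hPz.1] at hi1
        exact absurd (Option.some.inj hi1) hvi
      · exact absurd ⟨e'', hi1⟩ hi0c
    exact ⟨v, v', i0, hPz, hPz', (pure_of_le w i0 _ hpw).2 (hl (le_antisymm hle hk)), hor, hvc,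
      hv'c, hi0c⟩
  obtain ⟨i, j, hij, hji, hki, hkj, hli, hlj⟩ := car_flip hmin Λ
    (Sum.elim (Sum.elim w z) c) (Sum.elim (Sum.elim w z') c)
    (by
      rintro ((a | b) | e)
      · rfl
      · exact hcd b
      · rfl)
    (by
      rintro ((a | b) | e) ((a' | b') | e')
      · exact Iff.rfl
      · exact ⟨fun h => ((hzw b' a).1 h.symm).symm, fun h => ((hzw b' a).2 h.symm).symm⟩
      · exact Iff.rfl
      · exact hzw b a'
      · exact hzzi b b'
      · exact hzci b e'
      · exact Iff.rfl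
      · exact ⟨fun h => ((hzci b' e).1 h.symm).symm, fun h => ((hzci b' e).2 h.symm).symm⟩
      · exact Iff.rfl)
    (fun hst => hne (hst.2 s α))
  rcases i with (a | b) | e <;> rcases j with (a' | b') | e'
  · exact (lt_asymm' hij hji).elim
  · -- w, z
    obtain ⟨i0, v, h1, h2, h3⟩ := hij
    obtain ⟨v', i1, h4, h5, h6⟩ := hji
    simp only [Sum.elim_inl, Sum.elim_inr] at h1 h2 h4 h5
    have e1 : i0 = i1 := Option.some.inj (h1.symm.trans h5)
    subst e1
    exact main b' a v v' i0 h2 h4 h1 (Or.inr ⟨h6, h3⟩) hkj hlj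
  · exact (lt_asymm' hij hji).elim
  · -- z, w
    obtain ⟨v, i0, h1, h2, h3⟩ := hij
    obtain ⟨i1, v', h4, h5, h6⟩ := hji
    simp only [Sum.elim_inl, Sum.elim_inr] at h1 h2 h4 h5
    have e1 : i0 = i1 := Option.some.inj (h2.symm.trans h4)
    subst e1
    exact main b a' v v' i0 h1 h5 h2 (Or.inl ⟨h3, h6⟩) hki hli
  · exact (lt_asymm' ((hzz b b').1 hij) hji).elim
  · exact (lt_asymm' ((hzc b e').1.1 hij) hji).elim
  · exact (lt_asymm' hij hji).elim
  · exact (lt_asymm' ((hzc b' e).2.1 hij) hji).elim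
  · exact (lt_asymm' hij hji).elim

end Pool.Agent.Helper89.EA
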