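import Pool.Agent.Helper89.EA.UDefs

/-!
# Project EA, piece U5: the coding order `Ix S`

`exists_kd`: for large `n` there is an odd `a` with `r < a / (2 ^ m * 3 ^ n) < r'`; the
denominator of `a / (2 ^ m * 3 ^ n)` divides `2 ^ m * 3 ^ n` and is divisible by `2 ^ m`.
-/

namespace Pool.Agent.Helper89.EA

lemma kd_eq_of_val {q : ℚ} {m : ℕ} (h : padicValRat 2 q = -(m : ℤ)) : kd q = m := by
  have hcop : Nat.Coprime q.num.natAbs q.den := q.reduced
  have hp : Fact (Nat.Prime 2) := ⟨Nat.prime_two⟩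
  unfold padicValRat at h
  unfold kd
  have h2 : padicValInt 2 q.num = padicValNat 2 q.num.natAbs := rfl
  rw [h2] at h
  by_cases ha : 2 ∣ q.num.natAbs
  · have hb : ¬ 2 ∣ q.den := by
      intro hb
      have := Nat.dvd_gcd ha hb
      rw [hcop] at this
      omega
    rw [padicValNat.eq_zero_of_not_dvd hb] at h ⊢
    omega
  · rw [padicValNat.eq_zero_of_not_dvd ha] at h
    omega

theorem exists_kd (m : ℕ) (r r' : ℚ) (h : r < r') : ∃ q : ℚ, r < q ∧ q < r' ∧ kd q = m := by
  have hp : Fact (Nat.Prime 2) := ⟨Nat.prime_two⟩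
  obtain ⟨n, hn⟩ := exists_nat_gt (2 / ((r' - r) * 2 ^ m))
  have h3n : (n : ℚ) < 3 ^ n := by
    have : n < 3 ^ n := Nat.lt_pow_self (by norm_num)
    exact_mod_cast this
  have hpos : 0 < (r' - r) * 2 ^ m := mul_pos (by linarith) (by positivity)
  have hlen : 2 < (r' - r) * 2 ^ m * 3 ^ n := by
    rw [div_lt_iff₀ hpos] at hn
    nlinarith
  set D : ℚ := 2 ^ m * 3 ^ n with hD
  have hD0 : 0 < D := by positivity
  set x : ℚ := r * D with hx
  set a : ℤ := 2 * ⌊(x + 1) / 2⌋ + 1 with ha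
  have h1 : x < a := by
    have := Int.lt_floor_add_one ((x + 1) / 2)
    rw [ha]
    push_cast
    linarith
  have h2 : (a : ℚ) ≤ x + 2 := by
    have := Int.floor_le ((x + 1) / 2)
    rw [ha]
    push_cast
    linarith
  have h3 : x + 2 < r' * D := by
    have : (r' - r) * 2 ^ m * 3 ^ n = r' * D - x := by rw [hx, hD]; ring
    linarith
  refine ⟨a / D, ?_, ?_, ?_⟩
  · rw [lt_div_iff₀ hD0]
    exact h1
  · rw [div_lt_iff₀ hD0]
    linarith
  · apply kd_eq_of_val
    have ha0 : a ≠ 0 := by omega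
    have ha0' : (a : ℚ) ≠ 0 := by exact_mod_cast ha0
    rw [padicValRat.div ha0' hD0.ne', padicValRat.of_int]
    have h4 : padicValInt 2 a = 0 := by
      apply padicValInt.eq_zero_of_not_dvd
      omega
    have h5 : padicValRat 2 D = m := by
      rw [hD, padicValRat.mul (by positivity) (by positivity), padicValRat.pow, padicValRat.pow]
      have h6 : padicValRat 2 (2 : ℚ) = 1 := by
        have := padicValRat.self (p := 2) (by norm_num)
        exact_mod_cast this
      have h7 : padicValRat 2 (3 : ℚ) = 0 := by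
        have : padicValRat 2 ((3 : ℕ) : ℚ) = padicValNat 2 3 := padicValRat.of_nat
        have h8 : padicValNat 2 3 = 0 := padicValNat.eq_zero_of_not_dvd (by norm_num)
        rw [h8] at this
        exact_mod_cast this
      rw [h6, h7]
      ring
    rw [h4, h5]
    ring

variable {S : Set ℕ}

lemma Ix.lt_iff {a b : Ix S} : a < b ↔ a.pt < b.pt ∨
    (a.pt = b.pt ∧ (ofLex a.1).2 < (ofLex b.1).2) :=
  Prod.Lex.lt_iff (x := a.1) (y := b.1)

theorem lt_of_pt_lt {a b : Ix S} (h : a.pt < b.pt) : a < b :=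
  Ix.lt_iff.mpr (Or.inl h)

theorem pt_le_of_le {a b : Ix S} (h : a ≤ b) : a.pt ≤ b.pt := by
  by_contra hcon
  push Not at hcon
  exact absurd h (not_le.mpr (lt_of_pt_lt hcon))

lemma Ix.ext_iff' {a b : Ix S} (h : a.pt = b.pt) (h' : (ofLex a.1).2 = (ofLex b.1).2) :
    a = b := by
  apply Subtype.ext
  apply ofLex.injective
  exact Prod.ext h h'

lemma sz_pos (h0 : 0 ∉ S) (q : ℚ) : 0 < sz S q := by
  unfold sz
  split_ifs with h
  · rcases Nat.eq_zero_or_pos (kd q) with h1 | h1
    · rw [h1] at h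
      exact absurd h h0
    · exact h1
  · norm_num

/-- every rational number has an index -/
theorem exists_pt (h0 : 0 ∉ S) (q : ℚ) : ∃ a : Ix S, a.pt = q :=
  ⟨⟨toLex (q, 0), sz_pos h0 q⟩, rfl⟩

theorem Y_congr {a b : Ix S} (h : a.pt = b.pt) : a.Y ↔ b.Y := by
  unfold Ix.Y
  rw [h]

theorem eq_of_pt_eq {a b : Ix S} (h : a.pt = b.pt) (hY : ¬ a.Y) : a = b := by
  have hY' : ¬ b.Y := fun hb => hY ((Y_congr h).mpr hb)
  have h1 : (ofLex a.1).2 < sz S a.pt := a.2
  have h2 : (ofLex b.1).2 < sz S b.pt := b.2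
  unfold Ix.Y at hY hY'
  unfold sz at h1 h2
  rw [if_neg hY] at h1
  rw [if_neg hY'] at h2
  exact Ix.ext_iff' h (by omega)

/-- the run over a rational number -/
theorem exists_run {q : ℚ} (hq : kd q ∈ S) :
    ∃ e : Fin (kd q) → Ix S, StrictMono e ∧ (∀ i, (e i).pt = q) ∧
      ∀ b : Ix S, b.pt = q → ∃ i, e i = b := by
  have hsz : sz S q = kd q := by
    unfold sz
    rw [if_pos hq]
  refine ⟨fun i => ⟨toLex (q, i.val), ?_⟩, ?_, fun i => rfl, ?_⟩
  · change i.val < sz S q
    rw [hsz]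
    exact i.2
  · intro i j hij
    exact Ix.lt_iff.mpr (Or.inr ⟨rfl, hij⟩)
  · intro b hb
    have h1 : (ofLex b.1).2 < sz S b.pt := b.2
    rw [hb, hsz] at h1
    exact ⟨⟨(ofLex b.1).2, h1⟩, Ix.ext_iff' hb.symm rfl⟩

/-- the set of indices over a rational number is finite -/
theorem finite_pt (q : ℚ) : {a : Ix S | a.pt = q}.Finite := by
  refine Set.Finite.of_injOn (f := fun a : Ix S => (ofLex a.1).2) (t := Set.Iio (sz S q)) ?_ ?_
    (Set.finite_Iio _)
  · intro a ha
    have h1 : (ofLex a.1).2 < sz S a.pt := a.2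
    rw [Set.mem_ofPred_eq] at ha
    rw [ha] at h1
    exact h1
  · intro a ha b hb hab
    rw [Set.mem_ofPred_eq] at ha hb
    exact Ix.ext_iff' (ha.trans hb.symm) hab

/-- density, with an index of a prescribed class -/
theorem exists_between_kd (h0 : 0 ∉ S) (m : ℕ) {a b : Ix S} (h : a.pt < b.pt) :
    ∃ d : Ix S, a.pt < d.pt ∧ d.pt < b.pt ∧ kd d.pt = m := by
  obtain ⟨q, h1, h2, h3⟩ := exists_kd m _ _ h
  obtain ⟨d, hd⟩ := exists_pt h0 q
  exact ⟨d, by rw [hd]; exact h1, by rw [hd]; exact h2, by rw [hd]; exact h3⟩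

/-- density, with an index of the same colour (and class) as a given one -/
theorem exists_between_color (h0 : 0 ∉ S) (u : Ix S) {r r' : ℚ} (h : r < r') :
    ∃ d : Ix S, r < d.pt ∧ d.pt < r' ∧ (d.Y ↔ u.Y) := by
  obtain ⟨q, h1, h2, h3⟩ := exists_kd (kd u.pt) _ _ h
  obtain ⟨d, hd⟩ := exists_pt h0 q
  refine ⟨d, by rw [hd]; exact h1, by rw [hd]; exact h2, ?_⟩
  unfold Ix.Y
  rw [hd, h3]

/-- avoiding a finite set `F` of indices: for every index `v` whose rational number is different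
from those of the elements of `F` there are indices of the colour of `u` on both sides of `v`, with
different rational numbers, such that no element of `F` is between them; they can moreover be chosen
between given bounds `r < v.pt < r'`. -/
theorem exists_around (h0 : 0 ∉ S) (u v : Ix S) (F : Set (Ix S)) (hF : F.Finite)
    (hv : ∀ x ∈ F, x.pt ≠ v.pt) (r r' : ℚ) (hr : r < v.pt) (hr' : v.pt < r') :
    ∃ u1 u2 : Ix S, (u1.Y ↔ u.Y) ∧ (u2.Y ↔ u.Y) ∧ r < u1.pt ∧ u1.pt < v.pt ∧ v.pt < u2.pt ∧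
      u2.pt < r' ∧ ∀ x ∈ F, x < u1 ∨ u2 < x := by
  have key : ∃ s s' : ℚ, r ≤ s ∧ s < v.pt ∧ v.pt < s' ∧ s' ≤ r' ∧
      ∀ x ∈ F, x.pt ≤ s ∨ s' ≤ x.pt := by
    induction F, hF using Set.Finite.induction_on with
    | empty => exact ⟨r, r', le_rfl, hr, hr', le_rfl, by simp⟩
    | @insert x F _ _ ih =>
      obtain ⟨s, s', h1, h2, h3, h4, h5⟩ := ih (fun y hy => hv y (Set.mem_insert_of_mem _ hy))
      rcases lt_or_gt_of_ne (hv x (Set.mem_insert _ _)) with hx | hx
      · refine ⟨max s x.pt, s', h1.trans (le_max_left _ _), max_lt h2 hx, h3, h4, ?_⟩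
        intro y hy
        rcases Set.mem_insert_iff.mp hy with hy | hy
        · rw [hy]
          exact Or.inl (le_max_right _ _)
        · rcases h5 y hy with h | h
          · exact Or.inl (h.trans (le_max_left _ _))
          · exact Or.inr h
      · refine ⟨s, min s' x.pt, h1, h2, lt_min h3 hx, (min_le_left _ _).trans h4, ?_⟩
        intro y hy
        rcases Set.mem_insert_iff.mp hy with hy | hy
        · rw [hy]
          exact Or.inr (min_le_right _ _)
        · rcases h5 y hy with h | h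
          · exact Or.inl h
          · exact Or.inr ((min_le_left _ _).trans h)
  obtain ⟨s, s', h1, h2, h3, h4, h5⟩ := key
  obtain ⟨u1, a1, a2, a3⟩ := exists_between_color h0 u h2
  obtain ⟨u2, b1, b2, b3⟩ := exists_between_color h0 u h3
  refine ⟨u1, u2, a3, b3, lt_of_le_of_lt h1 a1, a2, b1, lt_of_lt_of_le b2 h4, ?_⟩
  intro x hx
  rcases h5 x hx with h | h
  · exact Or.inl (lt_of_pt_lt (lt_of_le_of_lt h a1))
  · exact Or.inr (lt_of_pt_lt (lt_of_lt_of_le b2 h))

end Pool.Agent.Helper89.EA
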