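import Pool.Agent.Helper89.EA.U.U3
import Pool.Agent.Helper89.EA.U.U5
import Pool.Agent.Helper89.EA.U.U5b

/-!
# Project EA, piece U6a: runs and paths of twins

`path_count`: if `kd q ∉ S` all `v i` are equal to one index `v` (`eq_of_pt_eq`), which is not a
`Y`-index, and `i ↦` the coordinate of `Z i 0` is an injection of `Fin m` in `Fin l`.  If
`kd q ∈ S` then `v` is injective (two disjoint `k`-tuples, `k ≥ 1`, cannot both be pure at the same
`Y`-index, `pure_full_k`), with values in the run of `kd q` elements (`exists_run`).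

`tw_adj`: a tuple `w` disjoint from `z` and from `z'` does not have the indices `v, v'`
(`not_idx_of_dj_k`), and no index is between `v` and `v'`; `oty_move` and `star_ot`.

`runP_of_run`: let `e` be the run of `v` (`exists_run`), `v = e i0`, and choose `j0` with
`j0 ≤ i0 < j0 + m`, `j0 + m ≤ kd v.pt`; `Z i = mv (e (j0 + i)) ∘ z`.  `ZZ` is transferred with
`oty_move` (the indices of `w0, w1, c` are not over the rational number `v.pt`), the twin relation
is `tw_adj` (`e` is the increasing enumeration of all indices over `v.pt`).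
-/

namespace Pool.Agent.Helper89.EA

variable {σ : Sig} {M N P : Type} {M0 : RS σ M} {k l p : ℕ} {s : σ.Sy}
  {α : Fin (σ.ar s) → (Fin l ⊕ Fin k) ⊕ Fin p} {S : Set ℕ}

theorem path_count (hk : 1 ≤ k) {m : ℕ} (Z : Fin m → Fin k → Car P (Ix S) l k Ix.Y)
    (v : Fin m → Ix S) (hZ : ∀ i, Pure (Z i) (v i)) {q : ℚ} (hq : ∀ i, (v i).pt = q)
    (hdj : ∀ i j, i ≠ j → Dj (Z i) (Z j)) :
    (kd q ∈ S → m ≤ kd q) ∧ (kd q ∉ S → m ≤ l) := by
  have b0 : Fin k := ⟨0, hk⟩
  constructor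
  · intro hS
    have hY : ∀ i, (v i).Y := by
      intro i
      unfold Ix.Y
      rw [hq i]
      exact hS
    have hinj : Function.Injective v := by
      intro i j hij
      by_contra hne
      obtain ⟨a, ha⟩ := pure_full_k (hZ i) (hY i) (t := Z j b0) (by rw [(hZ j).1 b0, hij])
      exact hdj i j hne a b0 ha
    obtain ⟨e, -, -, he⟩ := exists_run hS
    choose f hf using fun i => he (v i) (hq i)
    have hfi : Function.Injective f := by
      intro i j hij
      apply hinj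
      rw [← hf i, ← hf j, hij]
    simpa using Fintype.card_le_of_injective f hfi
  · intro hS
    have hY : ∀ i, ¬ (v i).Y := by
      intro i
      unfold Ix.Y
      rw [hq i]
      exact hS
    have hx : ∀ i, ∃ a : Fin l, (Z i b0).cd = .inr (.inl a) := by
      intro i
      rcases ix_some ((hZ i).1 b0) with ⟨h1, a, h2⟩ | ⟨h1, -⟩
      · exact ⟨a, by rw [h2, ofX_cd]⟩
      · exact absurd h1 (hY i)
    choose f hf using hx
    have hfi : Function.Injective f := by
      intro i j hij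
      by_contra hne
      refine hdj i j hne b0 b0 (car_ext ?_ ?_)
      · rw [(hZ i).1 b0, (hZ j).1 b0, eq_of_pt_eq ((hq i).trans (hq j).symm) (hY i)]
      · rw [hf i, hf j, hij]
    simpa using Fintype.card_le_of_injective f hfi

theorem tw_adj (Λ : Lad M0 k l s p α P N) (c : Fin p → Car P (Ix S) l k Ix.Y)
    (z z' : Fin k → Car P (Ix S) l k Ix.Y) {v v' : Ix S} (hz : Pure z v) (hz' : Pure z' v')
    (hcd : ∀ i, (z i).cd = (z' i).cd) (hY : v.Y) (hvv' : v < v')
    (hadj : ∀ x, ¬ (v < x ∧ x < v')) (hc : v ∉ Idx c) (hc' : v' ∉ Idx c) :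
    Tw α (star Λ Ix.Y) c z z' := by
  intro w hwz hwz' _
  rcases Nat.eq_zero_or_pos k with rfl | hk
  · have : z = z' := by
      funext i
      exact i.elim0
    rw [this]
  have b0 : Fin k := ⟨0, hk⟩
  have hY' : v'.Y := (color_of_cd (hcd b0) (hz.1 b0) (hz'.1 b0)).1 hY
  have h1 : v ∉ Idx w := not_idx_of_dj_k hz hY hwz
  have h2 : v' ∉ Idx w := not_idx_of_dj_k hz' hY' hwz'
  have key : ∀ x, x ≠ v → x ≠ v' → (x < v ∧ x < v') ∨ (v < x ∧ v' < x) := by
    intro x hx hx'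
    rcases lt_trichotomy x v with h | h | h
    · exact .inl ⟨h, h.trans hvv'⟩
    · exact absurd h hx
    · rcases lt_trichotomy x v' with h3 | h3 | h3
      · exact absurd ⟨h, h3⟩ (hadj x)
      · exact absurd h3 hx'
      · exact .inr ⟨h, h3⟩
  have hO := oty_move w c z z' hz hz' hcd
    (fun x hx => key x (fun h => h1 (h ▸ hx)) (fun h => h2 (h ▸ hx)))
    (fun x hx => key x (fun h => hc (h ▸ hx)) (fun h => hc' (h ▸ hx)))
  exact (star_ot Λ _ _ hO).2 s α

theorem runP_of_run (Λ : Lad M0 k l s p α P N) (w0 w1 : Fin l → Car P (Ix S) l k Ix.Y)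
    (c : Fin p → Car P (Ix S) l k Ix.Y) (z : Fin k → Car P (Ix S) l k Ix.Y) {v : Ix S}
    (hz : Pure z v) (hY : v.Y) (hZZ : ZZ α (star Λ Ix.Y) w0 w1 c z)
    (hc : ∀ x ∈ Idx c, x.pt ≠ v.pt) (h0 : ∀ x ∈ Idx w0, x.pt ≠ v.pt)
    (h1 : ∀ x ∈ Idx w1, x.pt ≠ v.pt) (hk : 1 ≤ k) {m : ℕ} (hm : 1 ≤ m) (hm' : m ≤ kd v.pt) :
    RunP α (star Λ Ix.Y) w0 w1 c m z := by
  obtain ⟨e, he, hept, hsurj⟩ := exists_run (S := S) (q := v.pt) hY
  obtain ⟨i0, hi0⟩ := hsurj v rfl
  obtain ⟨j0, hj1, hj2, hj3⟩ : ∃ j0 : ℕ, j0 ≤ i0.val ∧ i0.val < j0 + m ∧ j0 + m ≤ kd v.pt := by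
    have := i0.2
    refine ⟨min i0.val (kd v.pt - m), min_le_left _ _, ?_, ?_⟩
    · rcases le_total i0.val (kd v.pt - m) with h | h
      · rw [min_eq_left h]; omega
      · rw [min_eq_right h]; omega
    · have := min_le_right i0.val (kd v.pt - m)
      omega
  have hlt : ∀ i : Fin m, j0 + i.val < kd v.pt := fun i => by have := i.2; omega
  set u : Fin m → Ix S := fun i => e ⟨j0 + i.val, hlt i⟩ with hu
  have hupt : ∀ i, (u i).pt = v.pt := fun i => hept _
  have huY : ∀ i, v.Y ↔ (u i).Y := fun i => Y_congr (hupt i).symm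
  have hpure : ∀ i, Pure (fun b => (z b).mv (u i)) (u i) := fun i => pure_mv hz (huY i)
  have hcd : ∀ i b, (z b).cd = ((z b).mv (u i)).cd := fun i b => (mv_cd _ _).symm
  have key : ∀ (i : Fin m) (x : Ix S), x.pt ≠ v.pt → (x < v ∧ x < u i) ∨ (v < x ∧ u i < x) := by
    intro i x hx
    rcases lt_or_gt_of_ne hx with h | h
    · exact .inl ⟨lt_of_pt_lt h, lt_of_pt_lt (by rw [hupt i]; exact h)⟩
    · exact .inr ⟨lt_of_pt_lt h, lt_of_pt_lt (by rw [hupt i]; exact h)⟩
  have hnot : ∀ {ι : Type} (w : ι → Car P (Ix S) l k Ix.Y), (∀ x ∈ Idx w, x.pt ≠ v.pt) →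
      ∀ i, u i ∉ Idx w := fun w hw i hi => hw _ hi (hupt i)
  have hRl : ∀ (w : Fin l → Car P (Ix S) l k Ix.Y), (∀ x ∈ Idx w, x.pt ≠ v.pt) → ∀ i,
      (Rl α (star Λ Ix.Y) w z c ↔ Rl α (star Λ Ix.Y) w (fun b => (z b).mv (u i)) c) := by
    intro w hw i
    have hO := oty_move w c z (fun b => (z b).mv (u i)) hz (hpure i) (hcd i)
      (fun x hx => key i x (hw x hx)) (fun x hx => key i x (hc x hx))
    exact (star_ot Λ _ _ hO).2 s α
  refine ⟨fun i b => (z b).mv (u i), fun i => ⟨?_, ?_, ?_, ?_, ?_⟩, fun i j hij => ?_,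
    fun i j hij => ?_, ⟨⟨i0.val - j0, by omega⟩, ?_⟩⟩
  · exact dj_symm (dj_of_pure (hpure i) (hnot w0 h0 i))
  · exact dj_symm (dj_of_pure (hpure i) (hnot w1 h1 i))
  · exact dj_symm (dj_of_pure (hpure i) (hnot c hc i))
  · exact (hRl w0 h0 i).1 hZZ.2.2.2.1
  · exact fun h => hZZ.2.2.2.2 ((hRl w1 h1 i).2 h)
  · refine dj_of_pure (hpure j) ?_
    rw [idx_pure (hpure i) hk, Set.mem_singleton_iff]
    intro h
    apply hij
    have h2 := he.injective h
    rw [Fin.mk.injEq] at h2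
    exact Fin.ext (by omega)
  · refine tw_adj Λ c _ _ (hpure i) (hpure j) (fun b => by rw [mv_cd, mv_cd]) ((huY i).1 hY)
      (he (by rw [Fin.mk_lt_mk]; omega)) ?_ (hnot c hc i) (hnot c hc j)
    rintro x ⟨hx1, hx2⟩
    have h3 : x.pt = v.pt := by
      refine le_antisymm ?_ ?_
      · rw [← hupt j]; exact pt_le_of_le hx2.le
      · rw [← hupt i]; exact pt_le_of_le hx1.le
    obtain ⟨b, rfl⟩ := hsurj x h3
    have h4 := he.lt_iff_lt.1 hx1
    have h5 := he.lt_iff_lt.1 hx2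
    rw [Fin.lt_def] at h4 h5
    simp only at h4 h5
    omega
  · funext b
    have h6 : u ⟨i0.val - j0, by omega⟩ = v := by
      refine Eq.trans (congrArg e ?_) hi0
      exact Fin.ext (by simp only; omega)
    simp only [h6]
    refine car_ext ?_ (mv_cd _ _)
    rw [mv_ix (hz.1 b) Iff.rfl, hz.1 b]

end Pool.Agent.Helper89.EA
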