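import Pool.Agent.Helper89.EA.U.U4c
import Pool.Agent.Helper89.EA.U.U6a

/-!
# Project EA, piece U6b: twins are in the same run

`Flips Λ c w z u v t`: the tuples `w, z` are pure at `u, v`, in the same interval of the indices of
`c`, and when they are moved inside this interval, then the truth value of `R(w; z; c)` changes
when `w` passes `z`.

`flips_intro`: any two placements in the same cut with the same order have the same truth value
(`oty_move2`, `star_ot`); so it is determined by the two given ones, which are different.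

`tw_run`.  Let `z'` be a twin of `z`.  Let `F` be the finite set of all indices of `c, z'` whose
rational number is different from `v.pt`.  `exists_around` gives indices `u1 < v < u2` of the
colour of `u`, with rational numbers different from `v.pt`, with no element of `F` between; then
`u1, u2` are in the same cut of `c` as `v`.  Let `w1, w2` be `w` moved to `u1, u2`.  They are
disjoint from `z, z', c` (for `z'`: the indices `u1, u2` are not in `F` and not over `v.pt`).  By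
`Flips` the truth values of `R(w1; z; c)` and `R(w2; z; c)` are different, so those of
`R(w1; z'; c)` and `R(w2; z'; c)` are different, and `fl1` gives an index `v'` with
`u1 < v' < u2` at which `z'` is pure; so `v' ∉ F` and `v'.pt = v.pt`.  For the second part
(`Flips` for `z'`): use `flips_intro` with the placements `(u1, v')` and `(u2, v')`.
-/

namespace Pool.Agent.Helper89.EA

variable {σ : Sig} {M N P : Type} {M0 : RS σ M} {k l p : ℕ} {s : σ.Sy}
  {α : Fin (σ.ar s) → (Fin l ⊕ Fin k) ⊕ Fin p} {S : Set ℕ}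

/-- `x` and `y` are in the same cut of the indices of `c` -/
def SC {ι : Type} (c : ι → Car P (Ix S) l k Ix.Y) (x y : Ix S) : Prop :=
  ∀ q ∈ Idx c, (q < x ∧ q < y) ∨ (x < q ∧ y < q)

/-- moving `w` past `z` changes the truth value -/
def Flips (Λ : Lad M0 k l s p α P N) (c : Fin p → Car P (Ix S) l k Ix.Y)
    (w : Fin l → Car P (Ix S) l k Ix.Y) (z : Fin k → Car P (Ix S) l k Ix.Y) (u v : Ix S)
    (t : Prop) : Prop :=
  Pure w u ∧ Pure z v ∧ SC c u v ∧
    ∀ (w' : Fin l → Car P (Ix S) l k Ix.Y) (z' : Fin k → Car P (Ix S) l k Ix.Y) (u' v' : Ix S),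
      Pure w' u' → Pure z' v' → (∀ i, (w i).cd = (w' i).cd) → (∀ i, (z i).cd = (z' i).cd) →
      SC c u u' → SC c v v' → u' ≠ v' → (Rl α (star Λ Ix.Y) w' z' c ↔ (u' < v' ↔ t))

theorem SC.symm {ι : Type} {c : ι → Car P (Ix S) l k Ix.Y} {x y : Ix S} (h : SC c x y) :
    SC c y x := fun q hq => (h q hq).imp And.symm And.symm

theorem SC.trans {ι : Type} {c : ι → Car P (Ix S) l k Ix.Y} {x y z : Ix S} (h : SC c x y)
    (h' : SC c y z) : SC c x z := by
  intro q hq
  rcases h q hq with ⟨h1, h2⟩ | ⟨h1, h2⟩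
  · rcases h' q hq with ⟨h3, h4⟩ | ⟨h3, h4⟩
    · exact Or.inl ⟨h1, h4⟩
    · exact absurd h2 h3.asymm
  · rcases h' q hq with ⟨h3, h4⟩ | ⟨h3, h4⟩
    · exact absurd h3 h2.asymm
    · exact Or.inr ⟨h1, h4⟩

theorem rl_move (Λ : Lad M0 k l s p α P N) (c : Fin p → Car P (Ix S) l k Ix.Y)
    (w w' : Fin l → Car P (Ix S) l k Ix.Y) (z z' : Fin k → Car P (Ix S) l k Ix.Y)
    {u u' v v' : Ix S} (hw : Pure w u) (hw' : Pure w' u') (hz : Pure z v) (hz' : Pure z' v')
    (hwcd : ∀ i, (w i).cd = (w' i).cd) (hzcd : ∀ i, (z i).cd = (z' i).cd)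
    (h2 : SC c u u') (h3 : SC c v v') (huv : u ≠ v) (huv' : u' ≠ v') (hlt : u < v ↔ u' < v') :
    Rl α (star Λ Ix.Y) w z c ↔ Rl α (star Λ Ix.Y) w' z' c :=
  (star_ot Λ _ _ (oty_move2 c w w' z z' hw hw' hwcd hz hz' hzcd huv huv' hlt h2 h3)).2 s α

theorem flips_intro (Λ : Lad M0 k l s p α P N) (c : Fin p → Car P (Ix S) l k Ix.Y)
    (w w' : Fin l → Car P (Ix S) l k Ix.Y) (z z' : Fin k → Car P (Ix S) l k Ix.Y)
    {u u' v v' : Ix S} (hw : Pure w u) (hw' : Pure w' u') (hz : Pure z v) (hz' : Pure z' v')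
    (hwcd : ∀ i, (w i).cd = (w' i).cd) (hzcd : ∀ i, (z i).cd = (z' i).cd)
    (h1 : SC c u v) (h2 : SC c u u') (h3 : SC c v v') (hlt : u < v) (hlt' : v' < u')
    (hne : ¬ (Rl α (star Λ Ix.Y) w z c ↔ Rl α (star Λ Ix.Y) w' z' c)) :
    ∃ t, Flips Λ c w z u v t ∧ Flips Λ c w' z' u' v' t := by
  have key : ∀ (w'' : Fin l → Car P (Ix S) l k Ix.Y) (z'' : Fin k → Car P (Ix S) l k Ix.Y)
      (u'' v'' : Ix S), Pure w'' u'' → Pure z'' v'' → (∀ i, (w i).cd = (w'' i).cd) →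
      (∀ i, (z i).cd = (z'' i).cd) → SC c u u'' → SC c v v'' → u'' ≠ v'' →
      (Rl α (star Λ Ix.Y) w'' z'' c ↔ (u'' < v'' ↔ Rl α (star Λ Ix.Y) w z c)) := by
    intro w'' z'' u'' v'' a1 a2 a3 a4 a5 a6 a7
    rcases lt_or_gt_of_ne a7 with h | h
    · have := rl_move Λ c w w'' z z'' hw a1 hz a2 a3 a4 a5 a6 hlt.ne a7 (iff_of_true hlt h)
      rw [← this]
      simp [h]
    · have := rl_move Λ c w' w'' z' z'' hw' a1 hz' a2 (fun i => (hwcd i).symm.trans (a3 i))
        (fun i => (hzcd i).symm.trans (a4 i)) (h2.symm.trans a5) (h3.symm.trans a6) hlt'.ne' a7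
        (iff_of_false hlt'.asymm h.asymm)
      rw [← this]
      have h4 : ¬ u'' < v'' := h.asymm
      simp only [h4, false_iff]
      tauto
  refine ⟨_, ⟨hw, hz, h1, key⟩, hw', hz', (h2.symm.trans h1).trans h3, ?_⟩
  intro w'' z'' u'' v'' a1 a2 a3 a4 a5 a6 a7
  exact key w'' z'' u'' v'' a1 a2 (fun i => (hwcd i).trans (a3 i)) (fun i => (hzcd i).trans (a4 i))
    (h2.trans a5) (h3.trans a6) a7

theorem tw_run (h0 : 0 ∉ S) (hmin : IsMinOP M0 k l) (Λ : Lad M0 k l s p α P N)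
    (c : Fin p → Car P (Ix S) l k Ix.Y) (w : Fin l → Car P (Ix S) l k Ix.Y)
    (z z' : Fin k → Car P (Ix S) l k Ix.Y) {u v : Ix S} {t : Prop} (hf : Flips Λ c w z u v t)
    (hc : ∀ x ∈ Idx c, x.pt ≠ v.pt) (htw : Tw α (star Λ Ix.Y) c z z') :
    ∃ (w' : Fin l → Car P (Ix S) l k Ix.Y) (u' v' : Ix S) (t' : Prop),
      Pure z' v' ∧ v'.pt = v.pt ∧ Flips Λ c w' z' u' v' t' := by
  rcases Nat.eq_zero_or_pos k with hk | hk
  · subst hk
    have hzz : z = z' := funext fun i => i.elim0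
    subst hzz
    exact ⟨w, u, v, t, hf.2.1, rfl, hf⟩
  obtain ⟨hw, hz, huv, hfl⟩ := hf
  set F : Set (Ix S) := {x | (x ∈ Idx c ∨ x ∈ Idx z') ∧ x.pt ≠ v.pt} with hFdef
  have hF : F.Finite := ((idx_finite c).union (idx_finite z')).subset fun x hx => hx.1
  obtain ⟨u1, u2, hY1, hY2, -, hu1, hu2, -, hF'⟩ := exists_around h0 u v F hF
    (fun x hx => hx.2) (v.pt - 1) (v.pt + 1) (by linarith) (by linarith)
  have l1 : u1 < v := lt_of_pt_lt hu1
  have l2 : v < u2 := lt_of_pt_lt hu2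
  have hcF : ∀ x ∈ Idx c, x < u1 ∨ u2 < x := fun x hx => hF' x ⟨Or.inl hx, hc x hx⟩
  have hn1 : ∀ x : Ix S, x.pt ≠ v.pt → (x ∈ Idx c ∨ x ∈ Idx z') → x < u1 ∨ u2 < x :=
    fun x hx hx' => hF' x ⟨hx', hx⟩
  have sc : ∀ x : Ix S, u1 ≤ x → x ≤ u2 → SC c v x := by
    intro x hx1 hx2 q hq
    rcases hcF q hq with h | h
    · exact Or.inl ⟨h.trans l1, h.trans_le hx1⟩
    · exact Or.inr ⟨l2.trans h, hx2.trans_lt h⟩
  have sc1 : SC c v u1 := sc u1 le_rfl (l1.trans l2).le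
  have sc2 : SC c v u2 := sc u2 (l1.trans l2).le le_rfl
  have scv : SC c v v := sc v l1.le l2.le
  have nc1 : u1 ∉ Idx c := fun h => by
    rcases hcF u1 h with h' | h'
    · exact lt_irrefl _ h'
    · exact lt_irrefl _ ((l1.trans l2).trans h')
  have nc2 : u2 ∉ Idx c := fun h => by
    rcases hcF u2 h with h' | h'
    · exact lt_irrefl _ ((l1.trans l2).trans h')
    · exact lt_irrefl _ h'
  have nz1 : u1 ∉ Idx z' := fun h => by
    rcases hn1 u1 hu1.ne (Or.inr h) with h' | h'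
    · exact lt_irrefl _ h'
    · exact lt_irrefl _ ((l1.trans l2).trans h')
  have nz2 : u2 ∉ Idx z' := fun h => by
    rcases hn1 u2 hu2.ne' (Or.inr h) with h' | h'
    · exact lt_irrefl _ ((l1.trans l2).trans h')
    · exact lt_irrefl _ h'
  set w1 : Fin l → Car P (Ix S) l k Ix.Y := fun i => (w i).mv u1 with hw1
  set w2 : Fin l → Car P (Ix S) l k Ix.Y := fun i => (w i).mv u2 with hw2
  have p1 : Pure w1 u1 := pure_mv hw hY1.symm
  have p2 : Pure w2 u2 := pure_mv hw hY2.symm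
  have c1 : ∀ i, (w i).cd = (w1 i).cd := fun i => (mv_cd u1 (w i)).symm
  have c2 : ∀ i, (w i).cd = (w2 i).cd := fun i => (mv_cd u2 (w i)).symm
  have t1 := hfl w1 z u1 v p1 hz c1 (fun _ => rfl) (huv.trans sc1) scv l1.ne
  have t2 := hfl w2 z u2 v p2 hz c2 (fun _ => rfl) (huv.trans sc2) scv l2.ne'
  have nv : ∀ (w' : Fin l → Car P (Ix S) l k Ix.Y) (x : Ix S), Pure w' x → x ≠ v →
      v ∉ Idx w' := by
    rintro w' x hx hne ⟨i, hi⟩
    rw [hx.1 i] at hi
    exact hne (Option.some.inj hi)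
  have e1 := htw w1 (dj_of_pure hz (nv w1 u1 p1 l1.ne)) (dj_symm (dj_of_pure p1 nz1))
    (dj_symm (dj_of_pure p1 nc1))
  have e2 := htw w2 (dj_of_pure hz (nv w2 u2 p2 l2.ne')) (dj_symm (dj_of_pure p2 nz2))
    (dj_symm (dj_of_pure p2 nc2))
  have hne : ¬ (Rl α (star Λ Ix.Y) w1 z' c ↔ Rl α (star Λ Ix.Y) w2 z' c) := by
    rw [← e1, ← e2, t1, t2]
    have h4 : ¬ u2 < v := l2.asymm
    simp only [l1, h4, true_iff, false_iff]
    tauto
  obtain ⟨v', g1, g2, g3⟩ := fl1 hmin Λ w1 w2 z' c u1 u2 (l1.trans l2) p1 p2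
    (fun i => (c1 i).symm.trans (c2 i)) nz1 nz2 nc1 nc2
    (fun q hq h => by
      rcases hcF q hq with h' | h'
      · exact h'.asymm h.1
      · exact h'.asymm h.2) hne
  have hv' : v'.pt = v.pt := by
    by_contra hcon
    rcases hn1 v' hcon (Or.inr ⟨⟨0, hk⟩, g3.1 _⟩) with h' | h'
    · exact h'.asymm g1
    · exact h'.asymm g2
  have sc' : SC c v v' := sc v' g1.le g2.le
  obtain ⟨t', ht', -⟩ := flips_intro Λ c w1 w2 z' z' p1 p2 g3 g3
    (fun i => (c1 i).symm.trans (c2 i)) (fun _ => rfl) (sc1.symm.trans sc') (sc1.symm.trans sc2)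
    (sc'.symm.trans sc') g1 g2 hne
  exact ⟨w1, u1, v', t', g3, hv', ht'⟩

end Pool.Agent.Helper89.EA
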