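import Pool.Agent.Helper89.EA.UDefs

/-!
# Project EA, piece U7a: an infinite ladder from the coding sentence

Proof.  Start with `w 0` (nonempty trace) and choose `w (i + 1)` with a nonempty strictly smaller
trace (recursion in the subtype of the `w` with `WW` and nonempty trace); let `z i` be in the trace
of `w i` and not in the trace of `w (i + 1)`.  The traces decrease, so for `i ≤ j` the tuple `z j`
is in the trace of `w j`, hence of `w i`; and for `j < i` it is not in the trace of `w (j + 1)`,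
hence not in that of `w i`; since `HH (z j)` this means `¬ (Dj (w i) (z j) ∧ Rl …)`.
-/

namespace Pool.Agent.Helper89.EA

variable {σ : Sig} {N : Type} {k l p : ℕ} {s : σ.Sy}
  {α : Fin (σ.ar s) → (Fin l ⊕ Fin k) ⊕ Fin p}

theorem chain_of_psi {A : RS σ N} {m : ℕ} (h : Psi α m N A) :
    ∃ (w0 w1 : Fin l → N) (c : Fin p → N) (w : ℕ → Fin l → N) (z : ℕ → Fin k → N),
      (∀ i, HH α A w0 w1 c m (z i)) ∧
      (∀ i j, i ≤ j → Dj (w i) (z j) ∧ Rl α A (w i) (z j) c) ∧
      (∀ i j, j < i → ¬ (Dj (w i) (z j) ∧ Rl α A (w i) (z j) c)) := by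
  obtain ⟨w0, w1, c, ⟨wa, hwa, hza⟩, hstep⟩ := h
  let T := {w : Fin l → N // WW α A w0 w1 c m w ∧ ∃ z, Tr α A w0 w1 c m w z}
  have hs : ∀ t : T, ∃ t' : T,
      (∀ z, Tr α A w0 w1 c m t'.1 z → Tr α A w0 w1 c m t.1 z) ∧
        ∃ z, Tr α A w0 w1 c m t.1 z ∧ ¬ Tr α A w0 w1 c m t'.1 z := by
    rintro ⟨w, hw, hz⟩
    obtain ⟨w', hw', hz', h1, h2⟩ := hstep w hw hz
    exact ⟨⟨w', hw', hz'⟩, h1, h2⟩
  choose nx hnx1 hnx2 using hs
  let t : ℕ → T := fun i => Nat.rec (⟨wa, hwa, hza⟩ : T) (fun _ t => nx t) i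
  have ht : ∀ i, t (i + 1) = nx (t i) := fun i => rfl
  choose zz hzz1 hzz2 using hnx2
  have hmono : ∀ i j, i ≤ j → ∀ z, Tr α A w0 w1 c m (t j).1 z → Tr α A w0 w1 c m (t i).1 z := by
    intro i j hij
    induction j, hij using Nat.le_induction with
    | base => exact fun z hz => hz
    | succ j _ ih =>
      intro z hz
      apply ih z
      apply hnx1 (t j) z
      rw [← ht]
      exact hz
  refine ⟨w0, w1, c, fun i => (t i).1, fun i => zz (t i), fun i => (hzz1 (t i)).1, ?_, ?_⟩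
  · intro i j hij
    exact (hmono i j hij _ (hzz1 (t j))).2
  · intro i j hji hc
    have h1 : Tr α A w0 w1 c m (t i).1 (zz (t j)) := ⟨(hzz1 (t j)).1, hc⟩
    have h2 := hmono (j + 1) i hji _ h1
    rw [ht] at h2
    exact hzz2 (t j) h2

end Pool.Agent.Helper89.EA
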