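import Pool.Agent.Helper89.EA.U.U6c

/-!
# Project EA, piece U9a: the sets `ZZ` and `HH` for the real parameters

The parameters are `X_{u0}, X_{u1}` (`Car.ofX`) with `u0 < u1`, and `c = Λ.c` in `P` (so `c` has no
indices).

`real_zz`: `z` is disjoint from `X_{u0}, X_{u1}`, so `u0, u1` are not indices of `z`
(`not_idx_of_dj_l`, `pure_ofX`, `isMinOP_pos` gives `k ≤ l`); `fl1` with `w = X_{u0}`,
`w' = X_{u1}` gives `v`.  For every `u ≠ v` without `Y`: the placement `(u, v)` has the order type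
of `(u0, v)` or of `(u1, v)` (`oty_move2` with `c` without indices), so `Rl X_u z c ↔ u < v`.
`Flips`: from `flips_intro` (with `w = X_{u0}`, `w' = X_{u1}`, `z = z'`).

`real_hh`: from `hh_iff`; `u0.pt ≠ v.pt` since otherwise `u0 = v` (`eq_of_pt_eq`), same for `u1`.

`real_mv`: `ZZ` is transferred with `oty_move`.
-/

namespace Pool.Agent.Helper89.EA

variable {σ : Sig} {M N P : Type} {M0 : RS σ M} {k l p : ℕ} {s : σ.Sy}
  {α : Fin (σ.ar s) → (Fin l ⊕ Fin k) ⊕ Fin p} {S : Set ℕ}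

/-- the parameters in `P` -/
def cP (Λ : Lad M0 k l s p α P N) (S : Set ℕ) : Fin p → Car P (Ix S) l k Ix.Y :=
  fun e => Car.ofP (Λ.c e)

theorem idx_cP (Λ : Lad M0 k l s p α P N) (S : Set ℕ) : Idx (cP Λ S) = ∅ := by
  ext q
  simp only [Set.mem_empty_iff_false, iff_false]
  rintro ⟨i, hi⟩
  have h : (cP Λ S i).ix = none := ofP_ix _
  rw [h] at hi
  exact absurd hi (by simp)

private theorem not_mem_cP (Λ : Lad M0 k l s p α P N) (x : Ix S) : x ∉ Idx (cP Λ S) := by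
  rw [idx_cP]
  exact Set.notMem_empty x

private theorem pure_unique (hk : 1 ≤ k) {z : Fin k → Car P (Ix S) l k Ix.Y} {v v' : Ix S}
    (h : Pure z v) (h' : Pure z v') : v = v' := by
  have h1 := h.1 ⟨0, hk⟩
  rw [h'.1 ⟨0, hk⟩] at h1
  exact (Option.some_injective _ h1).symm

private theorem rl_of_oty (Λ : Lad M0 k l s p α P N) {w w' : Fin l → Car P (Ix S) l k Ix.Y}
    {z z' : Fin k → Car P (Ix S) l k Ix.Y} {c : Fin p → Car P (Ix S) l k Ix.Y}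
    (h : OTy (Sum.elim (Sum.elim w z) c) (Sum.elim (Sum.elim w' z') c)) :
    Rl α (star Λ Ix.Y) w z c ↔ Rl α (star Λ Ix.Y) w' z' c :=
  (star_ot Λ _ _ h).2 s α

theorem real_zz (h0 : 0 ∉ S) (hmin : IsMinOP M0 k l) (Λ : Lad M0 k l s p α P N) {u0 u1 : Ix S}
    (hu0 : ¬ u0.Y) (hu1 : ¬ u1.Y) (h01 : u0 < u1) (z : Fin k → Car P (Ix S) l k Ix.Y)
    (hz : ZZ α (star Λ Ix.Y) (Car.ofX u0 hu0) (Car.ofX u1 hu1) (cP Λ S) z) :
    ∃ v, u0 < v ∧ v < u1 ∧ Pure z v ∧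
      (∀ (u : Ix S) (hu : ¬ u.Y), u ≠ v →
        (Rl α (star Λ Ix.Y) (Car.ofX u hu) z (cP Λ S) ↔ u < v)) ∧
      ∃ t, Flips Λ (cP Λ S) (Car.ofX u0 hu0) z u0 v t := by
  obtain ⟨hd0, hd1, hdc, hr0, hr1⟩ := hz
  obtain ⟨hk, hkl⟩ := isMinOP_pos hmin
  have p0 : Pure (Car.ofX u0 hu0 : Fin l → Car P (Ix S) l k Ix.Y) u0 := pure_ofX u0 hu0
  have p1 : Pure (Car.ofX u1 hu1 : Fin l → Car P (Ix S) l k Ix.Y) u1 := pure_ofX u1 hu1
  have n0 : u0 ∉ Idx z := not_idx_of_dj_l hkl p0 hd0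
  have n1 : u1 ∉ Idx z := not_idx_of_dj_l hkl p1 hd1
  have hne : ¬ (Rl α (star Λ Ix.Y) (Car.ofX u0 hu0) z (cP Λ S) ↔
      Rl α (star Λ Ix.Y) (Car.ofX u1 hu1) z (cP Λ S)) := fun h => hr1 (h.1 hr0)
  obtain ⟨v, hv0, hv1, hv⟩ := fl1 hmin Λ (Car.ofX u0 hu0) (Car.ofX u1 hu1) z (cP Λ S) u0 u1 h01
    p0 p1 (fun i => by rw [ofX_cd, ofX_cd]) n0 n1 (not_mem_cP Λ u0) (not_mem_cP Λ u1)
    (fun q hq => absurd hq (not_mem_cP Λ q)) hne
  refine ⟨v, hv0, hv1, hv, ?_, ?_⟩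
  · intro u hu huv
    have pu : Pure (Car.ofX u hu : Fin l → Car P (Ix S) l k Ix.Y) u := pure_ofX u hu
    rcases lt_or_gt_of_ne huv with hlt | hgt
    · have h1 := rl_of_oty Λ (oty_move2 (cP Λ S) (Car.ofX u0 hu0) (Car.ofX u hu) z z p0 pu
        (fun i => by rw [ofX_cd, ofX_cd]) hv hv (fun _ => rfl) hv0.ne huv
        (iff_of_true hv0 hlt) (fun x hx => absurd hx (not_mem_cP Λ x))
        (fun x hx => absurd hx (not_mem_cP Λ x)))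
      exact iff_of_true (h1.1 hr0) hlt
    · have h1 := rl_of_oty Λ (oty_move2 (cP Λ S) (Car.ofX u1 hu1) (Car.ofX u hu) z z p1 pu
        (fun i => by rw [ofX_cd, ofX_cd]) hv hv (fun _ => rfl) hv1.ne' huv
        (iff_of_false (lt_asymm hv1) (lt_asymm hgt)) (fun x hx => absurd hx (not_mem_cP Λ x))
        (fun x hx => absurd hx (not_mem_cP Λ x)))
      exact iff_of_false (fun h => hr1 (h1.2 h)) (lt_asymm hgt)
  · have hSC : ∀ x y : Ix S, SC (cP Λ S) x y := fun x y q hq => absurd hq (not_mem_cP Λ q)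
    obtain ⟨t, ht, -⟩ := flips_intro Λ (cP Λ S) (Car.ofX u0 hu0) (Car.ofX u1 hu1) z z p0 p1 hv hv
      (fun i => by rw [ofX_cd, ofX_cd]) (fun _ => rfl) (hSC _ _) (hSC _ _) (hSC _ _) hv0 hv1 hne
    exact ⟨t, ht⟩

theorem real_hh (h0 : 0 ∉ S) (hmin : IsMinOP M0 k l) (Λ : Lad M0 k l s p α P N) {u0 u1 : Ix S}
    (hu0 : ¬ u0.Y) (hu1 : ¬ u1.Y) (h01 : u0 < u1) {m : ℕ} (hm : l < m) (hmS : m ∈ S)
    (z : Fin k → Car P (Ix S) l k Ix.Y) :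
    HH α (star Λ Ix.Y) (Car.ofX u0 hu0) (Car.ofX u1 hu1) (cP Λ S) m z ↔
      ZZ α (star Λ Ix.Y) (Car.ofX u0 hu0) (Car.ofX u1 hu1) (cP Λ S) z ∧
        ∃ v, Pure z v ∧ kd v.pt = m := by
  obtain ⟨hk, hkl⟩ := isMinOP_pos hmin
  have key : ∀ hZ : ZZ α (star Λ Ix.Y) (Car.ofX u0 hu0) (Car.ofX u1 hu1) (cP Λ S) z,
      ∃ v, Pure z v ∧ (HH α (star Λ Ix.Y) (Car.ofX u0 hu0) (Car.ofX u1 hu1) (cP Λ S) m z ↔
        (kd v.pt ∈ S ∧ kd v.pt = m)) := by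
    intro hZ
    obtain ⟨v, hv0, hv1, hv, -, t, ht⟩ := real_zz h0 hmin Λ hu0 hu1 h01 z hZ
    refine ⟨v, hv, hh_iff h0 hmin Λ _ _ _ _ z ht hZ (fun x hx => absurd hx (not_mem_cP Λ x))
      ?_ ?_ hm⟩
    · intro x hx hxv
      rw [idx_pure (pure_ofX u0 hu0) (hk.trans hkl), Set.mem_singleton_iff] at hx
      rw [hx] at hxv
      exact absurd (eq_of_pt_eq hxv hu0) hv0.ne
    · intro x hx hxv
      rw [idx_pure (pure_ofX u1 hu1) (hk.trans hkl), Set.mem_singleton_iff] at hx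
      rw [hx] at hxv
      exact absurd (eq_of_pt_eq hxv hu1) hv1.ne'
  constructor
  · intro h
    obtain ⟨v, hv, hiff⟩ := key h.1
    exact ⟨h.1, v, hv, (hiff.1 h).2⟩
  · rintro ⟨hZ, v', hv', hkd⟩
    obtain ⟨v, hv, hiff⟩ := key hZ
    have e := pure_unique hk hv hv'
    rw [e] at hiff
    exact hiff.2 ⟨by rw [hkd]; exact hmS, hkd⟩

private theorem real_dj (hmin : IsMinOP M0 k l) (Λ : Lad M0 k l s p α P N) {u0 : Ix S}
    (hu0 : ¬ u0.Y) (z : Fin k → Car P (Ix S) l k Ix.Y) {v : Ix S} (hv : Pure z v) (h : u0 ≠ v) :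
    Dj z (Car.ofX u0 hu0 : Fin l → Car P (Ix S) l k Ix.Y) := by
  obtain ⟨hk, hkl⟩ := isMinOP_pos hmin
  refine dj_of_pure (pure_ofX u0 hu0) ?_
  rw [idx_pure hv hk, Set.mem_singleton_iff]
  exact h

private theorem real_djc (Λ : Lad M0 k l s p α P N) (z : Fin k → Car P (Ix S) l k Ix.Y) {v : Ix S}
    (hv : Pure z v) : Dj z (cP Λ S) :=
  dj_symm (dj_of_pure hv (not_mem_cP Λ v))

theorem real_mv (h0 : 0 ∉ S) (hmin : IsMinOP M0 k l) (Λ : Lad M0 k l s p α P N) {u0 u1 : Ix S}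
    (hu0 : ¬ u0.Y) (hu1 : ¬ u1.Y) (h01 : u0 < u1) {m : ℕ} (hm : l < m) (hmS : m ∈ S)
    (z z' : Fin k → Car P (Ix S) l k Ix.Y)
    (hz : HH α (star Λ Ix.Y) (Car.ofX u0 hu0) (Car.ofX u1 hu1) (cP Λ S) m z) {v v' : Ix S}
    (hv : Pure z v) (hv' : Pure z' v') (hcd : ∀ i, (z i).cd = (z' i).cd) (h0' : u0 < v')
    (h1' : v' < u1) (hk : kd v'.pt = m) :
    HH α (star Λ Ix.Y) (Car.ofX u0 hu0) (Car.ofX u1 hu1) (cP Λ S) m z' := by
  obtain ⟨hk1, hkl⟩ := isMinOP_pos hmin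
  obtain ⟨v2, hv20, hv21, hv2, -, -⟩ := real_zz h0 hmin Λ hu0 hu1 h01 z hz.1
  obtain rfl := pure_unique hk1 hv hv2
  obtain ⟨-, -, -, hr0, hr1⟩ := hz.1
  rw [real_hh h0 hmin Λ hu0 hu1 h01 hm hmS]
  refine ⟨⟨real_dj hmin Λ hu0 z' hv' h0'.ne, real_dj hmin Λ hu1 z' hv' h1'.ne',
    real_djc Λ z' hv', ?_, ?_⟩, v', hv', hk⟩
  · refine (rl_of_oty Λ (oty_move (Car.ofX u0 hu0) (cP Λ S) z z' hv hv' hcd ?_
      (fun x hx => absurd hx (not_mem_cP Λ x)))).1 hr0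
    intro x hx
    rw [idx_pure (pure_ofX u0 hu0) (hk1.trans hkl), Set.mem_singleton_iff] at hx
    rw [hx]
    exact Or.inl ⟨hv20, h0'⟩
  · intro hr
    refine hr1 ((rl_of_oty Λ (oty_move (Car.ofX u1 hu1) (cP Λ S) z z' hv hv' hcd ?_
      (fun x hx => absurd hx (not_mem_cP Λ x)))).2 hr)
    intro x hx
    rw [idx_pure (pure_ofX u1 hu1) (hk1.trans hkl), Set.mem_singleton_iff] at hx
    rw [hx]
    exact Or.inr ⟨hv21, h1'⟩

/-- the tuples `y` over runs of length `m` between `u0` and `u1` are in `HH` -/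
theorem real_y (h0 : 0 ∉ S) (hmin : IsMinOP M0 k l) (Λ : Lad M0 k l s p α P N) {u0 u1 : Ix S}
    (hu0 : ¬ u0.Y) (hu1 : ¬ u1.Y) (h01 : u0 < u1) {m : ℕ} (hm : l < m) (hmS : m ∈ S) {v : Ix S}
    (hv : v.Y) (h0v : u0 < v) (hv1 : v < u1) (hk : kd v.pt = m) :
    HH α (star Λ Ix.Y) (Car.ofX u0 hu0) (Car.ofX u1 hu1) (cP Λ S) m (Car.ofY v hv) := by
  have pv : Pure (Car.ofY v hv : Fin k → Car P (Ix S) l k Ix.Y) v := pure_ofY v hv
  rw [real_hh h0 hmin Λ hu0 hu1 h01 hm hmS]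
  refine ⟨⟨real_dj hmin Λ hu0 _ pv h0v.ne, real_dj hmin Λ hu1 _ pv hv1.ne', real_djc Λ _ pv,
    ?_, ?_⟩, v, pv, hk⟩
  · exact (star_rel Λ u0 v hu0 hv).2 h0v
  · intro h
    exact absurd ((star_rel Λ u1 v hu1 hv).1 h) (lt_asymm hv1)

/-- a change of the truth value between two places of `z` is due to a pure `w` between them -/
theorem real_between (hmin : IsMinOP M0 k l) (Λ : Lad M0 k l s p α P N)
    (w : Fin l → Car P (Ix S) l k Ix.Y) (z z' : Fin k → Car P (Ix S) l k Ix.Y) {v v' : Ix S}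
    (hv : Pure z v) (hv' : Pure z' v') (hcd : ∀ i, (z i).cd = (z' i).cd) (hw : v ∉ Idx w)
    (hw' : v' ∉ Idx w)
    (hne : ¬ (Rl α (star Λ Ix.Y) w z (cP Λ S) ↔ Rl α (star Λ Ix.Y) w z' (cP Λ S))) :
    ∃ i0, Pure w i0 ∧ ((v < i0 ∧ i0 < v') ∨ (v' < i0 ∧ i0 < v)) := by
  obtain ⟨hk, hkl⟩ := isMinOP_pos hmin
  have hcn : ∀ e, (cP Λ S e).ix = none := fun e => ofP_ix _
  have hl1 : ∀ (t : Car P (Ix S) l k Ix.Y) e, ¬ t.Lt (cP Λ S e) := by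
    rintro t e ⟨q, q', -, h2, -⟩
    rw [hcn e] at h2
    exact absurd h2 (by simp)
  have hl2 : ∀ (t : Car P (Ix S) l k Ix.Y) e, ¬ (cP Λ S e).Lt t := by
    rintro t e ⟨q, q', h1, -, -⟩
    rw [hcn e] at h1
    exact absurd h1 (by simp)
  obtain ⟨v1, v1', i0, a1, a2, a3, a4, -⟩ := mv_lemma hmin Λ w z z' (cP Λ S) hcd
    (fun i j => by
      rw [lt_iff_of_ix (hv.1 i) (hv.1 j), lt_iff_of_ix (hv'.1 i) (hv'.1 j)]
      exact iff_of_false (lt_irrefl _) (lt_irrefl _))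
    (fun i e => ⟨iff_of_false (hl1 _ e) (hl1 _ e), iff_of_false (hl2 _ e) (hl2 _ e)⟩)
    (fun i a => by
      rw [hv.1 i, hv'.1 i]
      exact iff_of_false (fun h => hw ⟨a, h.symm⟩) (fun h => hw' ⟨a, h.symm⟩)) hne
  obtain rfl := pure_unique hk hv a1
  obtain rfl := pure_unique hk hv' a2
  exact ⟨i0, a3, a4⟩

end Pool.Agent.Helper89.EA
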